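import Pool.Agent.W539.Cube.Space

/-!
# The group action
-/

namespace Pool.Agent.W539.Cube

open Set Filter Topology Pool.Agent.W539.CubeDefs

/-- The block containing the origin on the first side. -/
def root : Blk := (false, [])

/-! ### The symmetry exchanging the two sides -/

/-- the exchange of the sides -/
def swapE : Blk ≃ Blk where
  toFun b := (!b.1, b.2)
  invFun b := (!b.1, b.2)
  left_inv b := by simp
  right_inv b := by simp

lemma swapE_symm : swapE.symm = swapE := rfl

/-! ### The symmetries fixing the root block -/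

/-- the third vertex -/
def third : Dir → Dir → Dir
  | .hor, .ver => .diag
  | .ver, .hor => .diag
  | .hor, .diag => .ver
  | .diag, .hor => .ver
  | .ver, .diag => .hor
  | .diag, .ver => .hor
  | a, _ => a

lemma third_third {a v : Dir} (h : v ≠ a) : third a (third a v) = v := by
  cases a <;> cases v <;> first | rfl | exact absurd rfl h

lemma third_ne {a v : Dir} (h : v ≠ a) : third a v ≠ a := by
  cases a <;> cases v <;> first | (intro h'; exact absurd h' (by decide)) | exact absurd rfl h

/-- the reflection of the square exchanging the origin and the vertex `a` -/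
def flip : Dir → ℝ × ℝ → ℝ × ℝ
  | .hor, u => (1 - u.1, u.2)
  | .ver, u => (u.1, 1 - u.2)
  | .diag, u => (1 - u.1, 1 - u.2)

lemma flip_flip (a : Dir) (u : ℝ × ℝ) : flip a (flip a u) = u := by
  cases a <;> simp [flip]

lemma flip_zero (a : Dir) : flip a 0 = a.vec := by
  cases a <;> simp [flip, Dir.vec]

lemma flip_vec (a : Dir) : flip a a.vec = 0 := by
  rw [← flip_zero, flip_flip]

lemma flip_vec_ne {a v : Dir} (h : v ≠ a) : flip a v.vec = (third a v).vec := by
  cases a <;> cases v <;> first | exact absurd rfl h | simp [flip, Dir.vec, third]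

lemma flip_mem (a : Dir) {u : ℝ × ℝ} (hu : u ∈ sq) : flip a u ∈ sq := by
  obtain ⟨⟨h1, h2⟩, h3, h4⟩ := hu
  cases a
  · exact ⟨⟨by simp only [flip]; linarith, by simp only [flip]; linarith⟩, h3, h4⟩
  · exact ⟨⟨h1, h2⟩, by simp only [flip]; linarith, by simp only [flip]; linarith⟩
  · exact ⟨⟨by simp only [flip]; linarith, by simp only [flip]; linarith⟩,
      by simp only [flip]; linarith, by simp only [flip]; linarith⟩

lemma flip_iso (a : Dir) (u v : ℝ × ℝ) : N 2 (flip a u - flip a v) = N 2 (u - v) := by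
  have h : ∀ x y : ℝ, |1 - x - (1 - y)| = |x - y| := fun x y => by
    rw [show 1 - x - (1 - y) = -(x - y) by ring, abs_neg]
  cases a <;> simp only [N, flip, Prod.fst_sub, Prod.snd_sub, h]

/-- the permutation of the blocks -/
def piL (a : Dir) (s : Bool) : List Dir → Blk
  | [] => if s then (false, [a]) else root
  | v :: l => if s = false ∧ l = [] then (if v = a then (true, []) else (false, [third a v]))
      else child v (piL a s l)

/-- the permutation of the blocks -/
def pi (a : Dir) (b : Blk) : Blk := piL a b.1 b.2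

lemma pi_root (a : Dir) : pi a root = root := rfl

lemma pi_true (a : Dir) : pi a (true, []) = child a root := rfl

lemma pi_child_root (a v : Dir) :
    pi a (child v root) = if v = a then (true, []) else child (third a v) root := rfl

lemma pi_child (a v : Dir) {b : Blk} (hb : b ≠ root) : pi a (child v b) = child v (pi a b) := by
  have : ¬ (b.1 = false ∧ b.2 = []) := fun h => hb (Prod.ext h.1 h.2)
  simp only [pi, child, piL, this, if_false]

/-- Induction on blocks. -/
lemma blk_induction {Q : Blk → Prop} (h1 : Q root) (h2 : Q (true, []))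
    (h3 : ∀ v, Q (child v root)) (h4 : ∀ v b, b ≠ root → Q b → Q (child v b)) (b : Blk) : Q b := by
  obtain ⟨s, l⟩ := b
  induction l with
  | nil => cases s; exacts [h1, h2]
  | cons v l ih =>
    by_cases h : (s, l) = root
    · have h' : ((s, v :: l) : Blk) = child v root := by
        rw [← h]; rfl
      rw [h']; exact h3 v
    · exact h4 v (s, l) h ih

lemma child_ne_root (v : Dir) (b : Blk) : child v b ≠ root := by
  intro h
  have := congrArg Prod.snd h
  simp [child, root] at this

lemma pi_ne_root (a : Dir) {b : Blk} (hb : b ≠ root) : pi a b ≠ root := by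
  induction b using blk_induction with
  | h1 => exact absurd rfl hb
  | h2 => rw [pi_true]; exact child_ne_root _ _
  | h3 v =>
    rw [pi_child_root]
    split_ifs
    · intro h; have := congrArg Prod.fst h; simp [root] at this
    · exact child_ne_root _ _
  | h4 v b hb' _ => rw [pi_child a v hb']; exact child_ne_root _ _

lemma pi_pi (a : Dir) (b : Blk) : pi a (pi a b) = b := by
  induction b using blk_induction with
  | h1 => rfl
  | h2 => rw [pi_true, pi_child_root, if_pos rfl]
  | h3 v =>
    rw [pi_child_root]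
    split_ifs with h
    · rw [pi_true, h]
    · rw [pi_child_root, if_neg (third_ne h), third_third h]
  | h4 v b hb ih => rw [pi_child a v hb, pi_child a v (pi_ne_root a hb), ih]

/-- the permutation of the blocks as an equivalence -/
def piE (a : Dir) : Blk ≃ Blk := ⟨pi a, pi a, pi_pi a, pi_pi a⟩

lemma pi_append (a : Dir) (l : List Dir) : pi a (false, l ++ [a]) = (true, l) := by
  induction l with
  | nil => change pi a (child a root) = _; rw [pi_child_root, if_pos rfl]
  | cons v l ih =>
    have : (false, (v :: l) ++ [a]) = child v (false, l ++ [a]) := rfl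
    rw [this, pi_child, ih]
    · rfl
    · intro h
      have := congrArg Prod.snd h
      simp [root] at this

/-- the symmetry -/
noncomputable def Fa (a : Dir) (x : YK) : YK :=
  (Finsupp.equivMapDomain (piE a) x).update root (flip a (x root))

lemma Fa_root (a : Dir) (x : YK) : Fa a x root = flip a (x root) := by
  simp [Fa]

lemma Fa_ne (a : Dir) (x : YK) {c : Blk} (hc : c ≠ root) : Fa a x c = x (pi a c) := by
  simp only [Fa, Finsupp.coe_update, Function.update_of_ne hc]
  rfl

lemma Fa_Fa (a : Dir) (x : YK) : Fa a (Fa a x) = x := by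
  ext1 c
  by_cases hc : c = root
  · rw [hc, Fa_root, Fa_root, flip_flip]
  · rw [Fa_ne a _ hc, Fa_ne a _ (pi_ne_root a hc), pi_pi]

lemma Fa_add (a : Dir) (x : YK) {b : Blk} (hb : b ≠ root) (w : ℝ × ℝ) :
    Fa a (x + Finsupp.single b w) = Fa a x + Finsupp.single (pi a b) w := by
  ext1 c
  by_cases hc : c = root
  · rw [hc, Finsupp.add_apply, Fa_root, Fa_root, Finsupp.add_apply,
      Finsupp.single_eq_of_ne (Ne.symm hb), Finsupp.single_eq_of_ne (Ne.symm (pi_ne_root a hb)),
      add_zero, add_zero]
  · rw [Finsupp.add_apply, Fa_ne a _ hc, Fa_ne a _ hc, Finsupp.add_apply]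
    congr 1
    by_cases h : pi a c = b
    · have h' : c = pi a b := by rw [← h, pi_pi]
      rw [h, ← h', Finsupp.single_eq_same, Finsupp.single_eq_same]
    · have h' : c ≠ pi a b := fun h'' => h (by rw [h'', pi_pi])
      rw [Finsupp.single_eq_of_ne h, Finsupp.single_eq_of_ne h']

lemma Fa_single (a : Dir) (w : ℝ × ℝ) :
    Fa a (Finsupp.single root w) = Finsupp.single root (flip a w) := by
  ext1 c
  by_cases hc : c = root
  · rw [hc, Fa_root, Finsupp.single_eq_same, Finsupp.single_eq_same]
  · rw [Fa_ne a _ hc, Finsupp.single_eq_of_ne (pi_ne_root a hc), Finsupp.single_eq_of_ne hc]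

lemma P_root : P root = 0 := rfl

lemma Fa_P (a : Dir) {b : Blk} (hb : b ≠ root) : Fa a (P b) = P (pi a b) := by
  induction b using blk_induction with
  | h1 => exact absurd rfl hb
  | h2 =>
    rw [pi_true, P_child, P_nil, P_root, zero_add, ← flip_zero, ← Fa_single,
      Finsupp.single_zero]
  | h3 v =>
    rw [P_child, P_root, zero_add, Fa_single, pi_child_root]
    split_ifs with h
    · rw [h, flip_vec, Finsupp.single_zero]; rfl
    · rw [P_child, P_root, zero_add, flip_vec_ne h]
  | h4 v b hb' ih => rw [P_child, Fa_add a _ hb', ih hb', pi_child a v hb', P_child]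

/-! ### Symmetries of the tree of squares -/

/-- An involutive symmetry of the tree of squares. -/
structure KSym where
  F : YK → YK
  π : Blk → Blk
  ι : Blk → ℝ × ℝ → ℝ × ℝ
  invF : ∀ x, F (F x) = x
  invπ : ∀ b, π (π b) = b
  mem : ∀ b, ∀ u ∈ sq, ι b u ∈ sq
  iso : ∀ b u v, N 2 (ι b u - ι b v) = N 2 (u - v)
  map : ∀ b u, F (pt b u) = pt (π b) (ι b u)

/-- the identity -/
def KSym.id : KSym := ⟨fun x => x, fun b => b, fun _ u => u, fun _ => rfl, fun _ => rfl,
  fun _ _ h => h, fun _ _ _ => rfl, fun _ _ => rfl⟩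

lemma swap_P (b : Blk) : Finsupp.equivMapDomain swapE (P b) = P (swapE b) := by
  obtain ⟨s, l⟩ := b
  induction l with
  | nil =>
    change Finsupp.equivMapDomain swapE (0 : YK) = 0
    ext1 c; rfl
  | cons v l ih =>
    change Finsupp.equivMapDomain swapE (P (child v (s, l))) = P (child v (swapE (s, l)))
    rw [P_child, P_child, ← ih, ← Finsupp.equivMapDomain_single]
    ext1 c
    rfl

/-- the exchange of the two sides -/
noncomputable def KSym.swap : KSym where
  F := Finsupp.equivMapDomain swapE
  π := swapE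
  ι _ u := u
  invF x := by
    ext1 c
    change x (swapE.symm (swapE.symm c)) = x c
    simp [swapE]
  invπ b := by simp [swapE]
  mem _ _ h := h
  iso _ _ _ := rfl
  map b u := by
    rw [pt, pt, ← swap_P, ← Finsupp.equivMapDomain_single]
    ext1 c
    rfl

open Classical in
/-- the symmetry fixing the root block -/
noncomputable def KSym.rot (a : Dir) : KSym where
  F := Fa a
  π := pi a
  ι b := if b = root then flip a else fun u => u
  invF := Fa_Fa a
  invπ := pi_pi a
  mem b u hu := by
    split_ifs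
    · exact flip_mem a hu
    · exact hu
  iso b u v := by
    split_ifs
    · exact flip_iso a u v
    · rfl
  map b u := by
    by_cases hb : b = root
    · subst hb
      rw [if_pos rfl, pi_root, pt, pt, P_root, zero_add, zero_add, Fa_single]
    · rw [if_neg hb, pt, pt, Fa_add a _ hb, Fa_P a hb]

namespace KSym

variable (S : KSym)

lemma map_K {x : YK} (hx : x ∈ K) : S.F x ∈ K := by
  rw [K_eq] at hx
  obtain ⟨b, u, hu, rfl⟩ := mem_iUnion.1 hx
  rw [S.map]
  exact blk_subset_K _ ⟨_, S.mem b u hu, rfl⟩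

/-- the map of the complex given by a symmetry of the tree and a translation of the line -/
noncomputable def toMap (k : ℤ) (x : Pt XC) : Pt XC :=
  mkX (S.F (coord x).1, (coord x).2 + k) ⟨S.map_K (coord_mem x).1, mem_univ _⟩

lemma coord_toMap (k : ℤ) (x : Pt XC) :
    coord (S.toMap k x) = (S.F (coord x).1, (coord x).2 + k) := coord_mkX _ _

lemma toMap_toMap (k : ℤ) (x : Pt XC) : S.toMap (-k) (S.toMap k x) = x := by
  apply coord_inj
  rw [coord_toMap, coord_toMap]
  simp [S.invF]

/-- the same as a permutation -/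
noncomputable def toPerm (k : ℤ) : Equiv.Perm (Pt XC) where
  toFun := S.toMap k
  invFun := S.toMap (-k)
  left_inv := S.toMap_toMap k
  right_inv x := by
    have := S.toMap_toMap (-k) x
    rwa [neg_neg] at this

lemma toMap_mem {k : ℤ} {b : Blk} {m : ℤ} {x : Pt XC} (hx : x.1 ∈ (cubeAt b m).pts) :
    (S.toMap k x).1 ∈ (cubeAt (S.π b) (m + k)).pts := by
  obtain ⟨u, hu, s, h1, h2, h⟩ := coord_of_mem hx
  apply mem_cube_of_coord (S.mem b u hu) (s := s + k)
  · push_cast; linarith
  · push_cast; linarith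
  · rw [coord_toMap, h]
    simp only
    rw [S.map]

lemma mapsCubes (k : ℤ) : MapsCubes XC (S.toMap k) := by
  rintro Q ⟨b, m, rfl⟩
  refine ⟨cubeAt (S.π b) (m + k), ⟨_, _, rfl⟩, fun x => ⟨fun hx => S.toMap_mem hx, fun hx => ?_⟩,
    fun x y hx hy => ?_⟩
  · have := S.toMap_mem (k := -k) hx
    rwa [S.toMap_toMap, S.invπ, add_neg_cancel_right] at this
  · obtain ⟨u, hu, s, _, _, h⟩ := coord_of_mem hx
    obtain ⟨u', hu', s', _, _, h'⟩ := coord_of_mem hy
    rw [← emb_coord x, ← emb_coord y, h, h', dist_cubeAt (by norm_num),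
      ← emb_coord (S.toMap k x), ← emb_coord (S.toMap k y), coord_toMap, coord_toMap, h, h']
    simp only
    rw [S.map, S.map, dist_cubeAt (by norm_num)]
    simp only [DX, prodD, dR]
    rw [DK_pt (by norm_num), DK_pt (by norm_num), S.iso]
    congr 2
    ring

end KSym

lemma card_cubeAt (b : Blk) (m : ℤ) : (cubeAt b m).dirs.card = 3 := by
  change Finset.card ({none, some (b, false), some (b, true)} : Finset Idx) = 3
  rw [Finset.card_insert_of_notMem, Finset.card_insert_of_notMem, Finset.card_singleton]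
  · simp
  · simp

/-- The group of the automorphisms of the complex. -/
def autGroup : Subgroup (Equiv.Perm (Pt XC)) where
  carrier := {f | MapsCubes XC f ∧ MapsCubes XC f.symm}
  mul_mem' {f g} hf hg := by
    have key : ∀ f g : Pt XC → Pt XC, MapsCubes XC f → MapsCubes XC g →
        MapsCubes XC (fun x => f (g x)) := by
      intro f g hf hg Q hQ
      obtain ⟨Q', hQ', h1, h2⟩ := hg Q hQ
      obtain ⟨Q'', hQ'', h3, h4⟩ := hf Q' hQ'
      refine ⟨Q'', hQ'', fun x => (h1 x).trans (h3 _), fun x y hx hy => ?_⟩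
      rw [h4 _ _ ((h1 x).1 hx) ((h1 y).1 hy), h2 x y hx hy]
    exact ⟨key f g hf.1 hg.1, key g.symm f.symm hg.2 hf.2⟩
  one_mem' := ⟨fun Q hQ => ⟨Q, hQ, fun _ => Iff.rfl, fun _ _ _ _ => rfl⟩,
    fun Q hQ => ⟨Q, hQ, fun _ => Iff.rfl, fun _ _ _ _ => rfl⟩⟩
  inv_mem' {f} hf := ⟨hf.2, hf.1⟩

lemma KSym.toPerm_mem (S : KSym) (k : ℤ) : S.toPerm k ∈ autGroup :=
  ⟨S.mapsCubes k, S.mapsCubes (-k)⟩

/-- Every point can be moved into the root block. -/
lemma move (n : ℕ) : ∀ (s : Bool) (l : List Dir), l.length = n → ∀ x : Pt XC,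
    (coord x).1 ∈ blk (s, l) → ∃ g ∈ autGroup, (coord (g x)).1 ∈ blk root ∧
      (coord (g x)).2 = (coord x).2 := by
  induction n with
  | zero =>
    intro s l hl x hx
    have : l = [] := List.length_eq_zero_iff.1 hl
    subst this
    cases s
    · exact ⟨1, autGroup.one_mem, hx, rfl⟩
    · refine ⟨KSym.swap.toPerm 0, KSym.toPerm_mem _ _, ?_⟩
      obtain ⟨u, hu, h⟩ := hx
      have h2 : coord (KSym.swap.toPerm 0 x) = _ := KSym.coord_toMap _ _ _
      rw [h2, ← h, KSym.map]
      exact ⟨⟨_, hu, rfl⟩, by simp⟩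
  | succ n ih =>
    have key : ∀ (l : List Dir), l.length = n + 1 → ∀ x : Pt XC, (coord x).1 ∈ blk (false, l) →
        ∃ g ∈ autGroup, (coord (g x)).1 ∈ blk root ∧ (coord (g x)).2 = (coord x).2 := by
      intro l hl x hx
      obtain ⟨l', a, rfl⟩ : ∃ l' a, l = l' ++ [a] := by
        rcases List.eq_nil_or_concat l with h | ⟨l', a, h⟩
        · rw [h] at hl; simp at hl
        · exact ⟨l', a, by simpa using h⟩
      have hl' : l'.length = n := by simpa using hl
      obtain ⟨u, hu, h⟩ := hx
      have h2 : coord ((KSym.rot a).toPerm 0 x) = _ := KSym.coord_toMap _ _ _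
      have hb : ((false, l' ++ [a]) : Blk) ≠ root := by
        intro h; have := congrArg Prod.snd h; simp [root] at this
      rw [← h, KSym.map] at h2
      have h3 : (coord ((KSym.rot a).toPerm 0 x)).1 ∈ blk (true, l') := by
        rw [h2]
        change pt (pi a (false, l' ++ [a])) _ ∈ _
        rw [pi_append]
        exact ⟨_, (KSym.rot a).mem _ u hu, rfl⟩
      obtain ⟨g, hg, h4, h5⟩ := ih true l' hl' _ h3
      refine ⟨g * (KSym.rot a).toPerm 0, autGroup.mul_mem hg (KSym.toPerm_mem _ _), h4, ?_⟩
      rw [Equiv.Perm.mul_apply, h5, h2]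
      simp
    intro s l hl x hx
    cases s
    · exact key l hl x hx
    · obtain ⟨u, hu, h⟩ := hx
      have h2 : coord (KSym.swap.toPerm 0 x) = _ := KSym.coord_toMap _ _ _
      rw [← h, KSym.map] at h2
      obtain ⟨g, hg, h4, h5⟩ := key l hl (KSym.swap.toPerm 0 x) (by
        rw [h2]; exact ⟨u, hu, rfl⟩)
      refine ⟨g * KSym.swap.toPerm 0, autGroup.mul_mem hg (KSym.toPerm_mem _ _), h4, ?_⟩
      rw [Equiv.Perm.mul_apply, h5, h2]
      simp

lemma move' (x : Pt XC) : ∃ g ∈ autGroup, ∃ u ∈ sq, ∃ s ∈ Icc (0 : ℝ) 1,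
    coord (g x) = (pt root u, s) := by
  have hK : (coord x).1 ∈ ⋃ b, blk b := K_eq ▸ (coord_mem x).1
  obtain ⟨⟨s, l⟩, hb⟩ := mem_iUnion.1 hK
  obtain ⟨g, hg, h1, h2⟩ := move l.length s l rfl x hb
  obtain ⟨u, hu, h3⟩ := h1
  set k : ℤ := -⌊(coord x).2⌋ with hk
  have h4 : coord (KSym.id.toPerm k (g x)) = _ := KSym.coord_toMap _ _ _
  refine ⟨KSym.id.toPerm k * g, autGroup.mul_mem (KSym.toPerm_mem _ _) hg, u, hu,
    Int.fract (coord x).2, ⟨Int.fract_nonneg _, (Int.fract_lt_one _).le⟩, ?_⟩
  rw [Equiv.Perm.mul_apply, h4, h2, ← h3]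
  apply Prod.ext
  · rfl
  · simp only [hk, Int.fract]; push_cast; ring

/-- The parametrisation of the root cube. -/
noncomputable def rootMap (w : ↥(sq ×ˢ Icc (0 : ℝ) 1)) : Pt XC :=
  mkX (pt root w.1.1, w.1.2) ⟨blk_subset_K _ ⟨_, w.2.1, rfl⟩, mem_univ _⟩

lemma coord_rootMap (w : ↥(sq ×ˢ Icc (0 : ℝ) 1)) :
    coord (rootMap w) = (pt root w.1.1, w.1.2) := coord_mkX _ _

lemma continuous_rootMap : @Continuous _ _ _ (metricTop (pdist XC 2)) rootMap := by
  rw [metricTop, continuous_generateFrom_iff]
  rintro U ⟨x, ε, _, rfl⟩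
  rw [isOpen_iff_mem_nhds]
  intro w hw
  have hw' : pdist XC 2 x (rootMap w) < ε := hw
  have hd : ∀ w', pdist XC 2 (rootMap w) (rootMap w') =
      M 2 (M 2 |w.1.1.1 - w'.1.1.1| |w.1.1.2 - w'.1.1.2|) |w.1.2 - w'.1.2| := by
    intro w'
    rw [pdist_eq (by norm_num), coord_rootMap, coord_rootMap]
    simp only [DX, prodD, dR]
    rw [DK_pt (by norm_num)]
    rfl
  have hc : Continuous fun w' : ↥(sq ×ˢ Icc (0 : ℝ) 1) =>
      pdist XC 2 (rootMap w) (rootMap w') := by
    simp only [hd, M]
    have h2 : ∀ f : ↥(sq ×ˢ Icc (0 : ℝ) 1) → ℝ, Continuous f → Continuous fun w => f w ^ (2 : ℝ) :=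
      fun f hf => hf.rpow_const fun _ => Or.inr (by norm_num)
    have h3 : ∀ f : ↥(sq ×ˢ Icc (0 : ℝ) 1) → ℝ, Continuous f →
        Continuous fun w => f w ^ (1 / (2 : ℝ)) :=
      fun f hf => hf.rpow_const fun _ => Or.inr (by norm_num)
    apply h3
    apply Continuous.add
    · apply h2; apply h3
      apply Continuous.add <;> apply h2 <;> fun_prop
    · apply h2; fun_prop
  have h0 : pdist XC 2 (rootMap w) (rootMap w) = 0 := (isMetric_pdist (by norm_num)).self _
  have h1 : ∀ᶠ w' in 𝓝 w, pdist XC 2 (rootMap w) (rootMap w') < ε - pdist XC 2 x (rootMap w) := by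
    apply hc.continuousAt.eventually_lt continuousAt_const
    rw [h0]; linarith
  filter_upwards [h1] with w' hw'
  have := (isMetric_pdist (p := 2) (by norm_num)).tri x (rootMap w) (rootMap w')
  change pdist XC 2 x (rootMap w') < ε
  linarith

/-- **The action of the automorphism group is cocompact.** -/
lemma cocompact : IsCocompactAction XC autGroup := by
  refine ⟨fun g => g.2.1, ?_⟩
  let _ : TopologicalSpace (Pt XC) := metricTop (pdist XC 2)
  have hcomp : CompactSpace ↥(sq ×ˢ Icc (0 : ℝ) 1) := by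
    rw [← isCompact_iff_compactSpace]
    exact (isCompact_Icc.prod isCompact_Icc).prod isCompact_Icc
  let q : Pt XC → MulAction.orbitRel.Quotient autGroup (Pt XC) := Quotient.mk _
  have hq : Continuous q := continuous_quotient_mk'
  have hr : Continuous rootMap := continuous_rootMap
  have hs : Function.Surjective (q ∘ rootMap) := by
    intro y
    obtain ⟨x, rfl⟩ := Quotient.exists_rep y
    obtain ⟨g, hg, u, hu, s, hs, h⟩ := move' x
    refine ⟨⟨(u, s), hu, hs⟩, ?_⟩
    apply Quotient.sound
    refine ⟨⟨g, hg⟩, ?_⟩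
    apply coord_inj
    rw [coord_rootMap]
    exact h
  exact hs.compactSpace (hq.comp hr)

end Pool.Agent.W539.Cube
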