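import Pool.Agent.W539.Cube.Ray

/-!
# The identity does not extend
-/

namespace Pool.Agent.W539.Cube

open Set Filter Topology Pool.Agent.W539.CubeDefs
open scoped NNReal

variable {p r : ℝ}

lemma isBus_X (hp : 1 < p) : IsBus (pdist XC p) where
  metric := isMetric_pdist hp.le
  geodesic := exists_geodesic hp
  bus _ _ _ _ _ hc hc' _ ht := busemann hp hc hc' ht

section Path

variable {b : Blk} {u : ℝ × ℝ}

lemma path_mem (hu : u ∈ sq) (s0 : ℝ) (p : ℝ) (n : ℕ) : (κ b u n, s0 + T b u p n) ∈ KX :=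
  ⟨κ_mem hu n, mem_univ _⟩

/-- The points on the ray of slope one. -/
noncomputable def path (b : Blk) (hu : u ∈ sq) (s0 : ℝ) (p : ℝ) (n : ℕ) : Pt XC :=
  mkX (κ b u n, s0 + T b u p n) (path_mem hu s0 p n)

lemma T_nonneg (hp : 1 ≤ p) (n : ℕ) : 0 ≤ T b u p n :=
  (DK_met hp univ).nonneg (mem_univ _) (mem_univ _)

lemma T_top (hp : 1 ≤ p) : Tendsto (fun n => T b u p n) atTop atTop := by
  obtain ⟨C, hC⟩ := T_formula (b := b) (u := u) hp
  have h1 : Tendsto (fun n : ℕ => (n : ℝ) + C) atTop atTop :=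
    tendsto_atTop_add_const_right _ _ tendsto_natCast_atTop_atTop
  refine tendsto_atTop_mono' _ ?_ h1
  filter_upwards [eventually_gt_atTop 0] with n hn
  rw [hC n hn]
  have : 0 ≤ (kap p - 1) * cnt n := mul_nonneg (by linarith [one_le_kap hp]) (Nat.cast_nonneg _)
  linarith

lemma pdist_path (hp : 1 ≤ p) (hr : 1 ≤ r) (hu : u ∈ sq) (s0 : ℝ) {i j : ℕ} (hij : i ≤ j) :
    pdist XC r (path b hu s0 p i) (path b hu s0 p j) =
      M r (T b u r j - T b u r i) (T b u p j - T b u p i) := by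
  rw [pdist_eq hr, path, path, coord_mkX, coord_mkX]
  simp only [DX, prodD, DK_κ hr hij, dR]
  congr 1
  have h1 : T b u p j - T b u p i = DK p (κ b u i) (κ b u j) := (DK_κ hp hij).symm
  have h2 : 0 ≤ DK p (κ b u i) (κ b u j) := (DK_met hp univ).nonneg (mem_univ _) (mem_univ _)
  rw [abs_sub_comm, show s0 + T b u p j - (s0 + T b u p i) = T b u p j - T b u p i by ring,
    abs_of_nonneg (by rw [h1]; exact h2)]

lemma pdist_path_zero (hp : 1 ≤ p) (hr : 1 ≤ r) (hu : u ∈ sq) (s0 : ℝ) (j : ℕ) :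
    pdist XC r (path b hu s0 p 0) (path b hu s0 p j) = M r (T b u r j) (T b u p j) := by
  rw [pdist_path hp hr hu s0 (Nat.zero_le j), T_zero hp, T_zero hr, sub_zero, sub_zero]

lemma aligned_path (hp : 1 < p) (hu : u ∈ sq) (s0 : ℝ) :
    Aligned (pdist XC p) (path b hu s0 p 0) (path b hu s0 p) where
  add n m hnm := by
    rw [pdist_path_zero hp.le hp.le, pdist_path_zero hp.le hp.le,
      pdist_path hp.le hp.le hu s0 hnm]
    have h1 : ∀ a : ℝ, 0 ≤ a → M p a a = a * kap p := by
      intro a ha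
      have := M_smul hp.le ha zero_le_one zero_le_one
      rwa [mul_one] at this
    have h2 : 0 ≤ T b u p m - T b u p n := by
      rw [← DK_κ hp.le hnm]; exact (DK_met hp.le univ).nonneg (mem_univ _) (mem_univ _)
    rw [h1 _ (T_nonneg hp.le n), h1 _ (T_nonneg hp.le m), h1 _ h2]
    ring
  top := by
    refine tendsto_atTop_mono (fun n => ?_) (T_top (b := b) (u := u) hp.le)
    rw [pdist_path_zero hp.le hp.le]
    exact le_M_left hp.le (T_nonneg hp.le n) (T_nonneg hp.le n)

/-- The line coordinate of the points of a geodesic. -/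
lemma line_coord (hr : 1 < r) {c : ℝ → Pt XC} {x y : Pt XC} (hc : IsGeodesic (pdist XC r) c x y)
    {t : ℝ} (ht : t ∈ Icc (0 : ℝ) 1) :
    (coord (c t)).2 = (1 - t) * (coord x).2 + t * (coord y).2 :=
  geod_real (geod_prod hr (DK_met hr.le _) (dR_met _) (geodesic_iff hr.le hc)).2 ht

lemma line_le (hr : 1 ≤ r) (x y : Pt XC) : |(coord x).2 - (coord y).2| ≤ pdist XC r x y := by
  rw [pdist_eq hr]
  exact le_M_right hr ((DK_met hr univ).nonneg (mem_univ _) (mem_univ _)) (abs_nonneg _)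

end Path

/-- **The identity does not extend.** -/
theorem no_extension (hp : 1 < p) (hr : 1 < r) (hpr : p ≠ r) {σ τ : Pt XC → Pt XC → ℝ → Pt XC}
    (hσ : IsBicombing (pdist XC p) σ) (hτ : IsBicombing (pdist XC r) τ) (o : Pt XC) :
    ¬ IdentityExtends (pdist XC p) (pdist XC r) σ τ o := by
  rintro ⟨Φ, hΦ, hid⟩
  have hK : (coord o).1 ∈ ⋃ b, blk b := K_eq ▸ (coord_mem o).1
  obtain ⟨b, u, hu, hbu⟩ := mem_iUnion.1 hK
  set s0 := (coord o).2 with hs0
  have ho : path b hu s0 p 0 = o := by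
    apply coord_inj
    rw [path, coord_mkX]
    apply Prod.ext
    · exact hbu
    · simp only [T_zero hp.le, add_zero]; rfl
  have hal := aligned_path (b := b) hp hu s0
  rw [ho] at hal
  have h1 := hal.tendsto_ray (isBus_X hp) hσ
  have h2 := (hΦ.tendsto _).comp h1
  have h3 : (Φ ∘ fun n => (Bar.pt (path b hu s0 p n) : Bar (pdist XC p) σ o)) =
      fun n => (Bar.pt (path b hu s0 p n) : Bar (pdist XC r) τ o) := by
    funext n; exact hid _
  rw [h3] at h2
  have hd : ∀ n, pdist XC r o (path b hu s0 p n) = M r (T b u r n) (T b u p n) := by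
    intro n
    rw [← pdist_path_zero hp.le hr.le hu s0 n, ho]
  have htop : Tendsto (fun n => pdist XC r o (path b hu s0 p n)) atTop atTop := by
    refine tendsto_atTop_mono (fun n => ?_) (T_top (b := b) (u := u) hp.le)
    rw [hd]
    exact le_M_right hr.le (T_nonneg hr.le n) (T_nonneg hp.le n)
  obtain ⟨y, hy⟩ := limit_of_tendsto (isBus_X hr) htop h2
  apply hpr
  apply no_limit (b := b) (u := u) (l := (coord y).2 - s0) hp hr
  rw [tendsto_iff_dist_tendsto_zero]
  refine squeeze_zero' (Eventually.of_forall fun _ => dist_nonneg) ?_ hy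
  filter_upwards [htop.eventually_ge_atTop 1] with n hn
  have hpos : 0 < pdist XC r o (path b hu s0 p n) := by linarith
  have ht : 1 / pdist XC r o (path b hu s0 p n) ∈ Icc (0 : ℝ) 1 :=
    ⟨by positivity, by rw [div_le_one hpos]; exact hn⟩
  have h4 := line_coord hr (hτ o (path b hu s0 p n)) ht
  have h5 := line_le hr.le
    (τ o (path b hu s0 p n) (1 / pdist XC r o (path b hu s0 p n))) y
  refine le_trans (le_of_eq ?_) h5
  rw [h4, Real.dist_eq]
  have h6 : (coord (path b hu s0 p n)).2 = s0 + T b u p n := by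
    rw [path, coord_mkX]
  rw [h6, ← hs0, ← hd n]
  congr 1
  field_simp
  ring

end Pool.Agent.W539.Cube
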