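import Pool.Agent.W539.Cube.Defs

/-!
# Bicombings and rays in uniquely geodesic spaces with the Busemann inequality
-/

namespace Pool.Agent.W539.Cube

open Set Filter Topology Pool.Agent.W539.CubeDefs
open scoped NNReal

/-- A geodesic metric space with the Busemann inequality. -/
structure IsBus {X : Type} (d : X → X → ℝ) : Prop where
  metric : IsMetric d
  geodesic : ∀ x y, ∃ c, IsGeodesic d c x y
  bus : ∀ x y z c c', IsGeodesic d c x y → IsGeodesic d c' x z → ∀ t ∈ Icc (0 : ℝ) 1,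
    d (c t) (c' t) ≤ t * d y z

variable {X : Type} {d : X → X → ℝ}

lemma isMetric_nonneg (h : IsMetric d) (x y : X) : 0 ≤ d x y := by
  have := h.tri x y x
  rw [h.self, h.symm y x] at this
  linarith

namespace IsGeo

variable {c : ℝ → X} {x y : X}

lemma left (h : IsGeodesic d c x y) {t : ℝ} (ht : t ∈ Icc (0 : ℝ) 1) :
    d x (c t) = t * d x y := by
  have := h.dist 0 ⟨le_rfl, zero_le_one⟩ t ht
  rwa [h.zero, zero_sub, abs_neg, abs_of_nonneg ht.1] at this

lemma right (h : IsGeodesic d c x y) {t : ℝ} (ht : t ∈ Icc (0 : ℝ) 1) :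
    d (c t) y = (1 - t) * d x y := by
  have := h.dist t ht 1 ⟨zero_le_one, le_rfl⟩
  rwa [h.one, abs_sub_comm, abs_of_nonneg (by linarith [ht.2])] at this

lemma reverse (hm : IsMetric d) (h : IsGeodesic d c x y) :
    IsGeodesic d (fun t => c (1 - t)) y x := by
  refine ⟨by simp [h.one], by simp [h.zero], fun s hs t ht => ?_⟩
  rw [h.dist _ ⟨by linarith [hs.2], by linarith [hs.1]⟩ _ ⟨by linarith [ht.2], by linarith [ht.1]⟩,
    hm.symm y x]
  congr 1
  rw [show (1 - s - (1 - t)) = -(s - t) by ring, abs_neg]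

lemma piece (h : IsGeodesic d c x y) {a b : ℝ} (ha : a ∈ Icc (0 : ℝ) 1) (hb : b ∈ Icc (0 : ℝ) 1)
    (hab : a ≤ b) : IsGeodesic d (fun t => c (a + t * (b - a))) (c a) (c b) := by
  have hm : ∀ t ∈ Icc (0 : ℝ) 1, a + t * (b - a) ∈ Icc (0 : ℝ) 1 := by
    intro t ht
    have h1 : 0 ≤ t * (b - a) := mul_nonneg ht.1 (by linarith)
    have h2 : t * (b - a) ≤ 1 * (b - a) := mul_le_mul_of_nonneg_right ht.2 (by linarith)
    exact ⟨by linarith [ha.1], by linarith [hb.2]⟩
  refine ⟨by simp, by simp, fun s hs t ht => ?_⟩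
  rw [h.dist _ (hm s hs) _ (hm t ht), h.dist a ha b hb, ← mul_assoc, abs_sub_comm a b,
    abs_of_nonneg (show (0 : ℝ) ≤ b - a by linarith)]
  congr 1
  rw [show a + s * (b - a) - (a + t * (b - a)) = (s - t) * (b - a) by ring, abs_mul,
    abs_of_nonneg (show (0 : ℝ) ≤ b - a by linarith)]

end IsGeo

namespace IsBus

variable (h : IsBus d)
include h

lemma unique {x y : X} {c c' : ℝ → X} (hc : IsGeodesic d c x y) (hc' : IsGeodesic d c' x y)
    {t : ℝ} (ht : t ∈ Icc (0 : ℝ) 1) : c t = c' t := by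
  apply h.metric.eq
  have := h.bus x y y c c' hc hc' t ht
  rw [h.metric.self, mul_zero] at this
  exact le_antisymm this (isMetric_nonneg h.metric _ _)

lemma conv {x y x' y' : X} {c c' : ℝ → X} (hc : IsGeodesic d c x y)
    (hc' : IsGeodesic d c' x' y') {t : ℝ} (ht : t ∈ Icc (0 : ℝ) 1) :
    d (c t) (c' t) ≤ (1 - t) * d x x' + t * d y y' := by
  obtain ⟨e, he⟩ := h.geodesic x y'
  have h1 := h.bus x y y' c e hc he t ht
  have ht' : 1 - t ∈ Icc (0 : ℝ) 1 := ⟨by linarith [ht.2], by linarith [ht.1]⟩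
  have h2 := h.bus y' x x' _ _ (IsGeo.reverse h.metric he) (IsGeo.reverse h.metric hc') (1 - t) ht'
  simp only [sub_sub_cancel] at h2
  have h3 := h.metric.tri (c t) (e t) (c' t)
  linarith

lemma convexOn {x y x' y' : X} {c c' : ℝ → X} (hc : IsGeodesic d c x y)
    (hc' : IsGeodesic d c' x' y') : ConvexOn ℝ (Icc (0 : ℝ) 1) fun t => d (c t) (c' t) := by
  have key : ∀ a ∈ Icc (0 : ℝ) 1, ∀ b ∈ Icc (0 : ℝ) 1, a ≤ b → ∀ r s : ℝ, 0 ≤ r → 0 ≤ s →
      r + s = 1 → d (c (r * a + s * b)) (c' (r * a + s * b)) ≤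
        r * d (c a) (c' a) + s * d (c b) (c' b) := by
    intro a ha b hb hab r s hr hs hrs
    have h1 := h.conv (IsGeo.piece hc ha hb hab) (IsGeo.piece hc' ha hb hab)
      (t := s) ⟨hs, by linarith⟩
    have e : a + s * (b - a) = r * a + s * b := by
      have : r = 1 - s := by linarith
      rw [this]; ring
    have e' : 1 - s = r := by linarith
    simp only [e, e'] at h1
    exact h1
  refine ⟨convex_Icc 0 1, fun a ha b hb r s hr hs hrs => ?_⟩
  simp only [smul_eq_mul]
  rcases le_total a b with hab | hab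
  · exact key a ha b hb hab r s hr hs hrs
  · have := key b hb a ha hab s r hs hr (by linarith)
    rw [add_comm (r * a), add_comm (r * _)]
    exact this

lemma exists_bicombing : ∃ σ, IsConvexBicombing d σ := by
  choose σ hσ using h.geodesic
  exact ⟨σ, hσ, fun x y x' y' => h.convexOn (hσ x y) (hσ x' y')⟩

/-- Concatenation of two geodesics. -/
lemma concat {x y z : X} (hz : d x z + d z y = d x y) (hxy : 0 < d x y) :
    ∀ c, IsGeodesic d c x y → c (d x z / d x y) = z := by
  intro c hc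
  have hm := h.metric
  have n1 := isMetric_nonneg hm x z
  have n2 := isMetric_nonneg hm z y
  by_cases h1 : d x z = 0
  · rw [h1, zero_div, hc.zero]; exact hm.eq _ _ h1
  by_cases h2 : d z y = 0
  · have : d x z = d x y := by linarith
    rw [this, div_self hxy.ne', hc.one]; exact (hm.eq _ _ h2).symm
  have p1 : 0 < d x z := lt_of_le_of_ne n1 (Ne.symm h1)
  have p2 : 0 < d z y := lt_of_le_of_ne n2 (Ne.symm h2)
  obtain ⟨c1, hc1⟩ := h.geodesic x z
  obtain ⟨c2, hc2⟩ := h.geodesic z y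
  set a := d x z with ha
  set b := d z y with hb
  have hL : d x y = a + b := hz.symm
  have k1 : ∀ t ∈ Icc (0 : ℝ) 1, t * (a + b) ≤ a → t * (a + b) / a ∈ Icc (0 : ℝ) 1 := by
    intro t ht h3
    exact ⟨div_nonneg (mul_nonneg ht.1 (by linarith)) n1, by rwa [div_le_one p1]⟩
  have k2 : ∀ t ∈ Icc (0 : ℝ) 1, ¬ t * (a + b) ≤ a → (t * (a + b) - a) / b ∈ Icc (0 : ℝ) 1 := by
    intro t ht h3
    refine ⟨div_nonneg (by linarith) n2, ?_⟩
    rw [div_le_one p2]
    have : t * (a + b) ≤ 1 * (a + b) := mul_le_mul_of_nonneg_right ht.2 (by linarith)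
    linarith
  let e : ℝ → X := fun t => if t * (a + b) ≤ a then c1 (t * (a + b) / a)
    else c2 ((t * (a + b) - a) / b)
  have hex : ∀ t ∈ Icc (0 : ℝ) 1, d x (e t) ≤ t * (a + b) ∧ d (e t) y ≤ (1 - t) * (a + b) := by
    intro t ht
    by_cases h3 : t * (a + b) ≤ a
    · simp only [e, h3, if_true]
      have f1 := IsGeo.left hc1 (k1 t ht h3)
      have f2 := IsGeo.right hc1 (k1 t ht h3)
      have f3 := hm.tri (c1 (t * (a + b) / a)) z y
      rw [← ha] at f1 f2
      rw [← hb] at f3
      have f4 : t * (a + b) / a * a = t * (a + b) := by field_simp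
      constructor
      · rw [f1, f4]
      · have : (1 - t * (a + b) / a) * a = a - t * (a + b) := by rw [sub_mul, f4, one_mul]
        linarith
    · simp only [e, h3, if_false]
      have f1 := IsGeo.left hc2 (k2 t ht h3)
      have f2 := IsGeo.right hc2 (k2 t ht h3)
      have f3 := hm.tri x z (c2 ((t * (a + b) - a) / b))
      rw [← hb] at f1 f2
      rw [← ha] at f3
      have f4 : (t * (a + b) - a) / b * b = t * (a + b) - a := by field_simp
      constructor
      · linarith
      · rw [f2, sub_mul, f4]; linarith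
  have hle : ∀ s ∈ Icc (0 : ℝ) 1, ∀ t ∈ Icc (0 : ℝ) 1, s ≤ t →
      d (e s) (e t) ≤ (t - s) * (a + b) := by
    intro s hs t ht hst
    by_cases h3 : t * (a + b) ≤ a
    · have h4 : s * (a + b) ≤ a :=
        (mul_le_mul_of_nonneg_right hst (by linarith)).trans h3
      simp only [e, h3, h4, if_true]
      rw [hc1.dist _ (k1 s hs h4) _ (k1 t ht h3), ← ha, abs_sub_comm, ← sub_div,
        ← sub_mul, abs_of_nonneg (div_nonneg (mul_nonneg (by linarith) (by linarith)) n1)]
      apply le_of_eq; field_simp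
    · by_cases h4 : s * (a + b) ≤ a
      · simp only [e, h3, h4, if_true, if_false]
        have f1 := IsGeo.right hc1 (k1 s hs h4)
        have f2 := IsGeo.left hc2 (k2 t ht h3)
        have f3 := hm.tri (c1 (s * (a + b) / a)) z (c2 ((t * (a + b) - a) / b))
        rw [← ha] at f1
        rw [← hb] at f2
        have f4 : (t * (a + b) - a) / b * b = t * (a + b) - a := by field_simp
        have f5 : s * (a + b) / a * a = s * (a + b) := by field_simp
        rw [f4] at f2
        rw [sub_mul, f5, one_mul] at f1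
        linarith
      · simp only [e, h3, h4, if_false]
        rw [hc2.dist _ (k2 s hs h4) _ (k2 t ht h3), ← hb, abs_sub_comm, ← sub_div,
          show t * (a + b) - a - (s * (a + b) - a) = (t - s) * (a + b) by ring,
          abs_of_nonneg (div_nonneg (mul_nonneg (by linarith) (by linarith)) n2)]
        apply le_of_eq; field_simp
  have heq : ∀ s ∈ Icc (0 : ℝ) 1, ∀ t ∈ Icc (0 : ℝ) 1, s ≤ t →
      d (e s) (e t) = (t - s) * (a + b) := by
    intro s hs t ht hst
    apply le_antisymm (hle s hs t ht hst)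
    have f1 := (hex s hs).1
    have f2 := (hex t ht).2
    have f3 := hm.tri x (e s) y
    have f4 := hm.tri (e s) (e t) y
    rw [hL] at f3
    nlinarith
  have he : IsGeodesic d e x y := by
    refine ⟨?_, ?_, fun s hs t ht => ?_⟩
    · have : (0 : ℝ) * (a + b) ≤ a := by linarith
      simp only [e, this, if_true]
      simp [hc1.zero]
    · have : ¬ (1 : ℝ) * (a + b) ≤ a := by linarith
      simp only [e, this, if_false]
      rw [show (1 * (a + b) - a) / b = 1 by field_simp; ring, hc2.one]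
    · rcases le_total s t with hst | hst
      · rw [heq s hs t ht hst, hL, abs_sub_comm, abs_of_nonneg (by linarith)]
      · rw [hm.symm, heq t ht s hs hst, hL, abs_of_nonneg (by linarith)]
  have hmem : a / (a + b) ∈ Icc (0 : ℝ) 1 :=
    ⟨div_nonneg n1 (by linarith), by rw [div_le_one (by linarith)]; linarith⟩
  rw [hL, h.unique hc he hmem]
  have : a / (a + b) * (a + b) ≤ a := by
    apply le_of_eq; field_simp
  simp only [e, this, if_true]
  rw [show a / (a + b) * (a + b) / a = 1 by field_simp, hc1.one]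

end IsBus

/-- A sequence of points aligned from `o` and tending to infinity. -/
structure Aligned (d : X → X → ℝ) (o : X) (x : ℕ → X) : Prop where
  add : ∀ n m : ℕ, n ≤ m → d o (x n) + d (x n) (x m) = d o (x m)
  top : Tendsto (fun n => d o (x n)) atTop atTop

namespace Aligned

variable {o : X} {x : ℕ → X}

lemma exists_far (hx : Aligned d o x) (T : ℝ) : ∃ n, T ≤ d o (x n) ∧ 0 < d o (x n) := by
  obtain ⟨n, hn⟩ := (hx.top.eventually_ge_atTop (max T 1)).exists
  exact ⟨n, (le_max_left _ _).trans hn, lt_of_lt_of_le zero_lt_one ((le_max_right _ _).trans hn)⟩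

/-- an index beyond the distance `T` -/
noncomputable def idx (hx : Aligned d o x) (T : ℝ≥0) : ℕ := (hx.exists_far T).choose

lemma idx_spec (hx : Aligned d o x) (T : ℝ≥0) :
    (T : ℝ) ≤ d o (x (hx.idx T)) ∧ 0 < d o (x (hx.idx T)) := (hx.exists_far T).choose_spec

variable {σ : X → X → ℝ → X}

/-- The ray through the points of an aligned sequence. -/
noncomputable def ray (σ : X → X → ℝ → X) (hx : Aligned d o x) (T : ℝ≥0) : X :=
  σ o (x (hx.idx T)) (T / d o (x (hx.idx T)))

lemma comb_eq (h : IsBus d) (hσ : IsBicombing d σ) (hx : Aligned d o x) {n m : ℕ} (hnm : n ≤ m)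
    {t : ℝ} (ht : 0 ≤ t) (htn : t ≤ d o (x n)) (hn : 0 < d o (x n)) :
    σ o (x n) (t / d o (x n)) = σ o (x m) (t / d o (x m)) := by
  have hadd := hx.add n m hnm
  have hnn := isMetric_nonneg h.metric (x n) (x m)
  have hm : 0 < d o (x m) := by linarith
  have h1 := h.concat hadd hm _ (hσ o (x m))
  have hb : d o (x n) / d o (x m) ∈ Icc (0 : ℝ) 1 :=
    ⟨by positivity, by rw [div_le_one hm]; linarith⟩
  have h2 := IsGeo.piece (hσ o (x m)) (a := 0) ⟨le_rfl, zero_le_one⟩ hb hb.1
  rw [h1, (hσ o (x m)).zero] at h2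
  have hr : t / d o (x n) ∈ Icc (0 : ℝ) 1 := ⟨by positivity, by rwa [div_le_one hn]⟩
  rw [h.unique (hσ o (x n)) h2 hr]
  simp only [zero_add, sub_zero]
  congr 1
  field_simp

lemma ray_eq (h : IsBus d) (hσ : IsBicombing d σ) (hx : Aligned d o x) {n : ℕ} {T : ℝ≥0}
    (hT : (T : ℝ) ≤ d o (x n)) (hn : 0 < d o (x n)) :
    hx.ray σ T = σ o (x n) (T / d o (x n)) := by
  obtain ⟨h1, h2⟩ := hx.idx_spec T
  rcases le_total n (hx.idx T) with h3 | h3
  · exact (comb_eq h hσ hx h3 T.2 hT hn).symm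
  · exact comb_eq h hσ hx h3 T.2 h1 h2

lemma isRay (h : IsBus d) (hσ : IsBicombing d σ) (hx : Aligned d o x) :
    IsRay d σ o (hx.ray σ) where
  zero := by
    obtain ⟨h1, h2⟩ := hx.idx_spec 0
    rw [ray]
    simp only [NNReal.coe_zero, zero_div]
    exact (hσ o _).zero
  dist s t := by
    obtain ⟨n, h1, h2⟩ := hx.exists_far (max s t : ℝ≥0)
    have hs : (s : ℝ) ≤ d o (x n) := le_trans (NNReal.coe_le_coe.2 (le_max_left s t)) h1
    have ht : (t : ℝ) ≤ d o (x n) := le_trans (NNReal.coe_le_coe.2 (le_max_right s t)) h1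
    rw [hx.ray_eq h hσ hs h2, hx.ray_eq h hσ ht h2,
      (hσ o (x n)).dist ((s : ℝ) / d o (x n)) ⟨div_nonneg s.2 h2.le, by rwa [div_le_one h2]⟩
        ((t : ℝ) / d o (x n)) ⟨div_nonneg t.2 h2.le, by rwa [div_le_one h2]⟩, ← sub_div, abs_div,
      abs_of_pos h2]
    field_simp
  comb T s hT hs := by
    obtain ⟨n, h1, h2⟩ := hx.exists_far T
    have hs' : (s : ℝ) ≤ d o (x n) := le_trans (NNReal.coe_le_coe.2 hs) h1
    rw [hx.ray_eq h hσ h1 h2, hx.ray_eq h hσ hs' h2]
    have hT' : (0 : ℝ) < T := hT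
    have hb : (T : ℝ) / d o (x n) ∈ Icc (0 : ℝ) 1 :=
      ⟨div_nonneg T.2 h2.le, by rwa [div_le_one h2]⟩
    have h3 := IsGeo.piece (hσ o (x n)) (a := 0) ⟨le_rfl, zero_le_one⟩ hb hb.1
    rw [(hσ o (x n)).zero] at h3
    have hr : (s : ℝ) / T ∈ Icc (0 : ℝ) 1 :=
      ⟨div_nonneg s.2 T.2, by rw [div_le_one hT']; exact_mod_cast hs⟩
    rw [h.unique (hσ o _) h3 hr]
    simp only [zero_add, sub_zero]
    congr 1
    field_simp

/-- The points of an aligned sequence converge to the ray through them. -/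
lemma tendsto_ray (h : IsBus d) (hσ : IsBicombing d σ) (hx : Aligned d o x) :
    Tendsto (fun n => (Bar.pt (x n) : Bar d σ o)) atTop
      (𝓝 (Bar.ray (hx.ray σ) (hx.isRay h hσ))) := by
  rw [TopologicalSpace.tendsto_nhds_generateFrom_iff]
  rintro U (⟨y, ε, _, rfl⟩ | ⟨c, _, R, hR, ε, _, rfl⟩) hU
  · obtain ⟨z, _, hz⟩ := hU
    exact absurd hz (by simp)
  · have hU' : d (hx.ray σ R) (c R) < ε := hU
    filter_upwards [hx.top.eventually_gt_atTop (R : ℝ)] with n hn
    change (R : ℝ) < d o (x n) ∧ d (σ o (x n) (R / d o (x n))) (c R) < ε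
    refine ⟨hn, ?_⟩
    rw [← hx.ray_eq h hσ hn.le (lt_of_le_of_lt R.2 hn)]
    exact hU'

end Aligned

/-- If the points of a sequence tending to infinity converge in the compactification, then the
points at distance `1` from `o` on the geodesics converge. -/
lemma limit_of_tendsto (h : IsBus d) {σ : X → X → ℝ → X} {o : X} {x : ℕ → X}
    (htop : Tendsto (fun n => d o (x n)) atTop atTop) {e : Bar d σ o}
    (he : Tendsto (fun n => (Bar.pt (x n) : Bar d σ o)) atTop (𝓝 e)) :
    ∃ y : X, Tendsto (fun n => d (σ o (x n) (1 / d o (x n))) y) atTop (𝓝 0) := by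
  cases e with
  | pt y =>
    exfalso
    have hU : IsOpen {e : Bar d σ o | ∃ z, d y z < 1 ∧ e = .pt z} :=
      TopologicalSpace.isOpen_generateFrom_of_mem (Or.inl ⟨y, 1, one_pos, rfl⟩)
    have h1 := he.eventually (hU.mem_nhds ⟨y, by rw [h.metric.self]; exact one_pos, rfl⟩)
    obtain ⟨n, ⟨z, hz, hz'⟩, hn⟩ :=
      (h1.and (htop.eventually_ge_atTop (d o y + 1))).exists
    have hz'' : x n = z := by simpa using hz'
    rw [← hz''] at hz
    have := h.metric.tri o y (x n)
    linarith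
  | ray c hc =>
    refine ⟨c 1, ?_⟩
    rw [Metric.tendsto_atTop]
    intro ε hε
    have hU : IsOpen (cone d σ o c 1 ε) :=
      TopologicalSpace.isOpen_generateFrom_of_mem (Or.inr ⟨c, hc, 1, one_pos, ε, hε, rfl⟩)
    have hmem : (Bar.ray c hc : Bar d σ o) ∈ cone d σ o c 1 ε := by
      change d (c 1) (c 1) < ε
      rwa [h.metric.self]
    have h1 := he.eventually (hU.mem_nhds hmem)
    obtain ⟨N, hN⟩ := eventually_atTop.1 h1
    refine ⟨N, fun n hn => ?_⟩
    have h2 : ((1 : ℝ≥0) : ℝ) < d o (x n) ∧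
      d (σ o (x n) ((1 : ℝ≥0) / d o (x n))) (c 1) < ε := hN n hn
    rw [Real.dist_eq, sub_zero, abs_of_nonneg (isMetric_nonneg h.metric _ _)]
    simpa using h2.2

end Pool.Agent.W539.Cube
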