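import Mathlib

/-!
# Cube complexes, piecewise `ℓ^p` metrics, bicombings and compactifications: definitions
-/

namespace Pool.Agent.W539.CubeDefs

open Set

/-! ### Cube complexes and their piecewise `ℓ^p` metrics -/

/-- A unit cube of the standard cubing of the space `ℝ^I` of all functions `I → ℝ`: the
coordinates in the finite set `dirs` run through the interval `[n i, n i + 1]`, the other
coordinates have the constant integral value `n i`. -/
structure Cube (I : Type) where
  /-- the corner -/
  n : I → ℤ
  /-- the directions of the cube -/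
  dirs : Finset I

variable {I : Type}

/-- The points of a cube. -/
def Cube.pts (Q : Cube I) : Set (I → ℝ) :=
  {x | (∀ i ∈ Q.dirs, (Q.n i : ℝ) ≤ x i ∧ x i ≤ Q.n i + 1) ∧ ∀ i ∉ Q.dirs, x i = Q.n i}

/-- The `ℓ^p` distance of two points of a cube. -/
noncomputable def Cube.dist (p : ℝ) (Q : Cube I) (x y : I → ℝ) : ℝ :=
  (∑ i ∈ Q.dirs, |x i - y i| ^ p) ^ (1 / p)

/-- The points of the cube complex `C`: a cube complex is given by a set `C` of cubes of the
standard cubing of `ℝ^I`, and it is the union of these cubes (any two cubes of the standard cubing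
meet in a common face or not at all). -/
def Pt (C : Set (Cube I)) : Type := {x : I → ℝ // ∃ Q ∈ C, x ∈ Q.pts}

/-- `Str C p x y L`: there is a string `x = x₀, x₁, …, x_m = y` of points of the complex such that
consecutive points lie in a common cube, with total `ℓ^p` length `L`. -/
inductive Str (C : Set (Cube I)) (p : ℝ) : Pt C → Pt C → ℝ → Prop
  | refl (x : Pt C) : Str C p x x 0
  | step (x y z : Pt C) (L : ℝ) (Q : Cube I) (hQ : Q ∈ C) (hx : x.1 ∈ Q.pts) (hy : y.1 ∈ Q.pts)
      (h : Str C p y z L) : Str C p x z (Q.dist p x.1 y.1 + L)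

/-- The piecewise `ℓ^p` metric: the infimum of the lengths of strings. -/
noncomputable def pdist (C : Set (Cube I)) (p : ℝ) (x y : Pt C) : ℝ :=
  sInf {L | Str C p x y L}

/-- Any two points are joined by a string. -/
def IsConn (C : Set (Cube I)) : Prop := ∀ x y : Pt C, ∃ L, Str C 2 x y L

/-! ### Geodesics, `CAT(0)` spaces, bicombings -/

section Metric

variable {X : Type}

/-- The function `d` is a metric. -/
structure IsMetric (d : X → X → ℝ) : Prop where
  self : ∀ x, d x x = 0
  eq : ∀ x y, d x y = 0 → x = y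
  symm : ∀ x y, d x y = d y x
  tri : ∀ x y z, d x z ≤ d x y + d y z

/-- `c`, restricted to `[0, 1]`, is a geodesic of constant speed from `x` to `y`. -/
structure IsGeodesic (d : X → X → ℝ) (c : ℝ → X) (x y : X) : Prop where
  zero : c 0 = x
  one : c 1 = y
  dist : ∀ s ∈ Icc (0 : ℝ) 1, ∀ t ∈ Icc (0 : ℝ) 1, d (c s) (c t) = |s - t| * d x y

/-- A `CAT(0)` space: a geodesic metric space in which geodesic triangles are not thicker than
Euclidean triangles, i.e. the distance from a vertex `z` to a point of the opposite side `[x, y]`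
is at most the corresponding distance in the Euclidean triangle with the same side lengths. -/
structure IsCAT0 (d : X → X → ℝ) : Prop where
  metric : IsMetric d
  geodesic : ∀ x y, ∃ c, IsGeodesic d c x y
  thin : ∀ x y z c, IsGeodesic d c x y → ∀ t ∈ Icc (0 : ℝ) 1,
    d z (c t) ^ 2 ≤ (1 - t) * d z x ^ 2 + t * d z y ^ 2 - t * (1 - t) * d x y ^ 2

/-- A geodesic bicombing; only the values `σ x y t` with `t` in `[0, 1]` matter. -/
def IsBicombing (d : X → X → ℝ) (σ : X → X → ℝ → X) : Prop :=
  ∀ x y, IsGeodesic d (σ x y) x y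

/-- A convex geodesic bicombing. -/
structure IsConvexBicombing (d : X → X → ℝ) (σ : X → X → ℝ → X) : Prop where
  bicombing : IsBicombing d σ
  convex : ∀ x y x' y', ConvexOn ℝ (Icc (0 : ℝ) 1) fun t => d (σ x y t) (σ x' y' t)

/-- The topology of the metric `d`. -/
def metricTop (d : X → X → ℝ) : TopologicalSpace X :=
  TopologicalSpace.generateFrom {U | ∃ x, ∃ ε > 0, U = {y | d x y < ε}}

end Metric

/-! ### Automorphisms and cocompact actions -/

/-- The bijection `f` maps every cube of the complex isometrically onto a cube of the complex. -/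
def MapsCubes (C : Set (Cube I)) (f : Pt C → Pt C) : Prop :=
  ∀ Q ∈ C, ∃ Q' ∈ C, (∀ x : Pt C, x.1 ∈ Q.pts ↔ (f x).1 ∈ Q'.pts) ∧
    ∀ x y : Pt C, x.1 ∈ Q.pts → y.1 ∈ Q.pts → Q'.dist 2 (f x).1 (f y).1 = Q.dist 2 x.1 y.1

/-- The group `G` acts by automorphisms of the cube complex, with compact quotient. -/
def IsCocompactAction (C : Set (Cube I)) (G : Type) [Group G] [MulAction G (Pt C)] : Prop :=
  (∀ g : G, MapsCubes C fun x => g • x) ∧
    letI : TopologicalSpace (Pt C) := metricTop (pdist C 2)
    CompactSpace (MulAction.orbitRel.Quotient G (Pt C))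

/-! ### The compactification -/

section Compactification

open scoped NNReal

variable {X : Type}

/-- `c` is a `σ`-ray from `o`: a geodesic ray whose initial pieces are reparametrised
`σ`-geodesics. -/
structure IsRay (d : X → X → ℝ) (σ : X → X → ℝ → X) (o : X) (c : ℝ≥0 → X) : Prop where
  zero : c 0 = o
  dist : ∀ s t : ℝ≥0, d (c s) (c t) = |(s : ℝ) - t|
  comb : ∀ T s : ℝ≥0, 0 < T → s ≤ T → c s = σ o (c T) (s / T)

/-- The set `X ∪ ∂X` of the points of `X` and the `σ`-rays from `o`. -/
inductive Bar (d : X → X → ℝ) (σ : X → X → ℝ → X) (o : X) : Type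
  | pt (x : X) : Bar d σ o
  | ray (c : ℝ≥0 → X) (hc : IsRay d σ o c) : Bar d σ o

/-- The points and rays whose `σ`-geodesic from `o` passes, at distance `R` from `o`, within `ε`
of `c R`. -/
def cone (d : X → X → ℝ) (σ : X → X → ℝ → X) (o : X) (c : ℝ≥0 → X) (R : ℝ≥0) (ε : ℝ) :
    Set (Bar d σ o) :=
  {e | match e with
    | .pt x => (R : ℝ) < d o x ∧ d (σ o x (R / d o x)) (c R) < ε
    | .ray c' _ => d (c' R) (c R) < ε}

/-- The cone topology: generated by the open balls of `X` and the neighbourhoods `cone c R ε` of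
the rays. -/
instance barTop (d : X → X → ℝ) (σ : X → X → ℝ → X) (o : X) : TopologicalSpace (Bar d σ o) :=
  TopologicalSpace.generateFrom
    ({U | ∃ x, ∃ ε > 0, U = {e | ∃ y, d x y < ε ∧ e = .pt y}} ∪
      {U | ∃ c, IsRay d σ o c ∧ ∃ R > 0, ∃ ε > 0, U = cone d σ o c R ε})

/-- The identity of `X` extends to a continuous map between the two compactifications. -/
def IdentityExtends (d d' : X → X → ℝ) (σ σ' : X → X → ℝ → X) (o : X) : Prop :=
  ∃ Φ : Bar d σ o → Bar d' σ' o, Continuous Φ ∧ ∀ x, Φ (.pt x) = .pt x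

end Compactification

end Pool.Agent.W539.CubeDefs
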