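import Pool.Agent.W539.Cube.Lp

/-!
# Uniquely geodesic sets with the Busemann inequality
-/

namespace Pool.Agent.W539.Cube

open Set

variable {Y Y' : Type*}

/-- `D` is a metric on the set `A`. -/
structure IsMetricOn (D : Y → Y → ℝ) (A : Set Y) : Prop where
  self : ∀ x ∈ A, D x x = 0
  symm : ∀ x ∈ A, ∀ y ∈ A, D x y = D y x
  tri : ∀ x ∈ A, ∀ y ∈ A, ∀ z ∈ A, D x z ≤ D x y + D y z
  eq : ∀ x ∈ A, ∀ y ∈ A, D x y = 0 → x = y

lemma IsMetricOn.nonneg {D : Y → Y → ℝ} {A : Set Y} (h : IsMetricOn D A) {x y : Y} (hx : x ∈ A)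
    (hy : y ∈ A) : 0 ≤ D x y := by
  have := h.tri x hx y hy x hx
  rw [h.self x hx, h.symm y hy x hx] at this
  linarith

lemma IsMetricOn.mono {D : Y → Y → ℝ} {A B : Set Y} (h : IsMetricOn D B) (hAB : A ⊆ B) :
    IsMetricOn D A :=
  ⟨fun x hx => h.self x (hAB hx), fun x hx y hy => h.symm x (hAB hx) y (hAB hy),
    fun x hx y hy z hz => h.tri x (hAB hx) y (hAB hy) z (hAB hz),
    fun x hx y hy => h.eq x (hAB hx) y (hAB hy)⟩

/-- `c` is a geodesic from `x` to `y` in `A`, with constant speed, parametrised by `[0,1]`. -/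
structure IsGeod (D : Y → Y → ℝ) (A : Set Y) (c : ℝ → Y) (x y : Y) : Prop where
  zero : c 0 = x
  one : c 1 = y
  mem : ∀ t ∈ Icc (0 : ℝ) 1, c t ∈ A
  dist : ∀ s ∈ Icc (0 : ℝ) 1, ∀ t ∈ Icc (0 : ℝ) 1, D (c s) (c t) = |s - t| * D x y

namespace IsGeod

variable {D : Y → Y → ℝ} {A B : Set Y} {c : ℝ → Y} {x y : Y}

lemma left_mem (h : IsGeod D A c x y) : x ∈ A := h.zero ▸ h.mem 0 ⟨le_rfl, zero_le_one⟩

lemma right_mem (h : IsGeod D A c x y) : y ∈ A := h.one ▸ h.mem 1 ⟨zero_le_one, le_rfl⟩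

lemma dist_left (h : IsGeod D A c x y) {t : ℝ} (ht : t ∈ Icc (0 : ℝ) 1) :
    D x (c t) = t * D x y := by
  have := h.dist 0 ⟨le_rfl, zero_le_one⟩ t ht
  rwa [h.zero, zero_sub, abs_neg, abs_of_nonneg ht.1] at this

lemma dist_right (h : IsGeod D A c x y) {t : ℝ} (ht : t ∈ Icc (0 : ℝ) 1) :
    D (c t) y = (1 - t) * D x y := by
  have := h.dist t ht 1 ⟨zero_le_one, le_rfl⟩
  rwa [h.one, abs_sub_comm, abs_of_nonneg (by linarith [ht.2])] at this

lemma mono (h : IsGeod D A c x y) (hAB : A ⊆ B) : IsGeod D B c x y :=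
  ⟨h.zero, h.one, fun t ht => hAB (h.mem t ht), h.dist⟩

lemma restr (h : IsGeod D A c x y) (hB : ∀ t ∈ Icc (0 : ℝ) 1, c t ∈ B) : IsGeod D B c x y :=
  ⟨h.zero, h.one, hB, h.dist⟩

lemma reverse (hm : IsMetricOn D A) (h : IsGeod D A c x y) :
    IsGeod D A (fun t => c (1 - t)) y x := by
  refine ⟨by simp [h.one], by simp [h.zero], fun t ht => h.mem _ ⟨by linarith [ht.2],
    by linarith [ht.1]⟩, fun s hs t ht => ?_⟩
  rw [h.dist _ ⟨by linarith [hs.2], by linarith [hs.1]⟩ _ ⟨by linarith [ht.2], by linarith [ht.1]⟩,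
    hm.symm y h.right_mem x h.left_mem]
  congr 1
  rw [show (1 - s - (1 - t)) = -(s - t) by ring, abs_neg]

/-- A piece of a geodesic, reparametrised. -/
lemma piece (h : IsGeod D A c x y) {a b : ℝ} (ha : a ∈ Icc (0 : ℝ) 1) (hb : b ∈ Icc (0 : ℝ) 1)
    (hab : a ≤ b) : IsGeod D A (fun t => c (a + t * (b - a))) (c a) (c b) := by
  have hm : ∀ t ∈ Icc (0 : ℝ) 1, a + t * (b - a) ∈ Icc (0 : ℝ) 1 := by
    intro t ht
    have h1 : 0 ≤ t * (b - a) := mul_nonneg ht.1 (by linarith)
    have h2 : t * (b - a) ≤ 1 * (b - a) := mul_le_mul_of_nonneg_right ht.2 (by linarith)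
    exact ⟨by linarith [ha.1], by linarith [hb.2]⟩
  refine ⟨by simp, by simp, fun t ht => h.mem _ (hm t ht), fun s hs t ht => ?_⟩
  rw [h.dist _ (hm s hs) _ (hm t ht), h.dist a ha b hb, ← mul_assoc, abs_sub_comm a b,
    abs_of_nonneg (show (0 : ℝ) ≤ b - a by linarith)]
  congr 1
  rw [show a + s * (b - a) - (a + t * (b - a)) = (s - t) * (b - a) by ring, abs_mul,
    abs_of_nonneg (show (0 : ℝ) ≤ b - a by linarith)]

end IsGeod

/-- Geodesics exist in `A`, and two geodesics in `A` with a common origin satisfy the Busemann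
inequality. In particular geodesics are unique. -/
structure Good (D : Y → Y → ℝ) (A : Set Y) : Prop where
  exi : ∀ x ∈ A, ∀ y ∈ A, ∃ c, IsGeod D A c x y
  bus : ∀ x y z c c', IsGeod D A c x y → IsGeod D A c' x z → ∀ t ∈ Icc (0 : ℝ) 1,
    D (c t) (c' t) ≤ t * D y z

/-- The `CAT(0)` inequality. -/
def CN (D : Y → Y → ℝ) (A : Set Y) : Prop :=
  ∀ x y c, IsGeod D A c x y → ∀ z ∈ A, ∀ t ∈ Icc (0 : ℝ) 1,
    D z (c t) ^ 2 ≤ (1 - t) * D z x ^ 2 + t * D z y ^ 2 - t * (1 - t) * D x y ^ 2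

section Glue

variable {D : Y → Y → ℝ} {A B : Set Y} {o : Y}

/-- The sets `A` and `B` are glued at the point `o`. -/
structure Glued (D : Y → Y → ℝ) (A B : Set Y) (o : Y) : Prop where
  met : IsMetricOn D (A ∪ B)
  oA : o ∈ A
  oB : o ∈ B
  sep : ∀ a ∈ A, ∀ b ∈ B, D a b = D a o + D o b

namespace Glued

variable (h : Glued D A B o)
include h

lemma swap : Glued D B A o := by
  refine ⟨by rw [union_comm]; exact h.met, h.oB, h.oA, fun b hb a ha => ?_⟩
  rw [h.met.symm b (Or.inr hb) a (Or.inl ha), h.sep a ha b hb,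
    h.met.symm a (Or.inl ha) o (Or.inl h.oA), h.met.symm o (Or.inl h.oA) b (Or.inr hb), add_comm]

lemma nonneg {x y : Y} (hx : x ∈ A ∪ B) (hy : y ∈ A ∪ B) : 0 ≤ D x y := h.met.nonneg hx hy

lemma mem_of_between {x y z : Y} (hx : x ∈ A) (hy : y ∈ A) (hz : z ∈ A ∪ B)
    (hd : D x z + D z y = D x y) : z ∈ A := by
  rcases hz with hz | hz
  · exact hz
  · have e1 := h.sep x hx z hz
    have e2 := h.sep y hy z hz
    rw [h.met.symm z (Or.inr hz) y (Or.inl hy)] at hd
    have e3 := h.met.tri x (Or.inl hx) o (Or.inl h.oA) y (Or.inl hy)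
    rw [h.met.symm o (Or.inl h.oA) y (Or.inl hy)] at e3
    have e4 := h.nonneg (Or.inl h.oA) (Or.inr hz : z ∈ A ∪ B)
    have e5 : D o z = 0 := by linarith
    rw [← h.met.eq o (Or.inl h.oA) z (Or.inr hz) e5]
    exact h.oA

lemma geod_left {c : ℝ → Y} {x y : Y} (hc : IsGeod D (A ∪ B) c x y) (hx : x ∈ A) (hy : y ∈ A) :
    IsGeod D A c x y := by
  refine hc.restr fun t ht => h.mem_of_between hx hy (hc.mem t ht) ?_
  rw [hc.dist_left ht, hc.dist_right ht]; ring

lemma geod_left' {c : ℝ → Y} {x z : Y} (hc : IsGeod D (A ∪ B) c x z) (hx : x ∈ A) {t : ℝ}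
    (ht : t ∈ Icc (0 : ℝ) 1) (h1 : t * D x z ≤ D x o) : c t ∈ A := by
  rcases hc.mem t ht with h2 | h2
  · exact h2
  · have e1 := h.sep x hx _ h2
    rw [hc.dist_left ht] at e1
    have e2 := h.nonneg (Or.inl h.oA) (Or.inr h2 : c t ∈ A ∪ B)
    have e3 : D o (c t) = 0 := by linarith
    rw [← h.met.eq o (Or.inl h.oA) _ (Or.inr h2) e3]
    exact h.oA

lemma geod_right' {c : ℝ → Y} {x z : Y} (hc : IsGeod D (A ∪ B) c x z) (hx : x ∈ A) (hz : z ∈ B)
    {t : ℝ} (ht : t ∈ Icc (0 : ℝ) 1) (h1 : D x o ≤ t * D x z) : c t ∈ B := by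
  rcases hc.mem t ht with h2 | h2
  · have e1 := h.sep _ h2 z hz
    rw [hc.dist_right ht] at e1
    have e2 := h.nonneg (Or.inl h2 : c t ∈ A ∪ B) (Or.inl h.oA)
    have e3 := h.sep x hx z hz
    have e4 : D (c t) o = 0 := by linarith
    rw [h.met.eq _ (Or.inl h2) o (Or.inl h.oA) e4]
    exact h.oB
  · exact h2

lemma geod_mid {c : ℝ → Y} {x z : Y} (hc : IsGeod D (A ∪ B) c x z) (hx : x ∈ A) (hz : z ∈ B)
    {t : ℝ} (ht : t ∈ Icc (0 : ℝ) 1) (h1 : t * D x z = D x o) : c t = o := by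
  have h2 := h.geod_right' hc hx hz ht h1.ge
  have e1 := h.sep x hx _ h2
  rw [hc.dist_left ht] at e1
  have e3 : D o (c t) = 0 := by linarith
  exact (h.met.eq o (Or.inl h.oA) _ (Or.inr h2) e3).symm

/-- the first piece of a geodesic from `A` to `B` -/
lemma first_piece {c : ℝ → Y} {x z : Y} (hc : IsGeod D (A ∪ B) c x z) (hx : x ∈ A) (hz : z ∈ B)
    (hL : 0 < D x z) : IsGeod D A (fun s => c (s * (D x o / D x z))) x o := by
  have hX := h.nonneg (Or.inl hx) (Or.inl h.oA : o ∈ A ∪ B)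
  have hZ := h.nonneg (Or.inl h.oA) (Or.inr hz : z ∈ A ∪ B)
  have hs := h.sep x hx z hz
  have hb : D x o / D x z ∈ Icc (0 : ℝ) 1 := ⟨by positivity, by rw [div_le_one hL]; linarith⟩
  have hmid : c (D x o / D x z) = o := h.geod_mid hc hx hz hb (by field_simp)
  have := hc.piece (a := 0) (b := D x o / D x z) ⟨le_rfl, zero_le_one⟩ hb hb.1
  simp only [zero_add, sub_zero, hc.zero, hmid] at this
  refine this.restr fun t ht => ?_
  apply h.geod_left' hc hx ⟨mul_nonneg ht.1 hb.1, ?_⟩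
  · calc t * (D x o / D x z) * D x z = t * D x o := by field_simp
      _ ≤ 1 * D x o := mul_le_mul_of_nonneg_right ht.2 hX
      _ = D x o := one_mul _
  · calc t * (D x o / D x z) ≤ 1 * 1 := mul_le_mul ht.2 hb.2 hb.1 zero_le_one
      _ = 1 := one_mul _

/-- the last piece of a geodesic from `A` to `B` -/
lemma last_piece {c : ℝ → Y} {x z : Y} (hc : IsGeod D (A ∪ B) c x z) (hx : x ∈ A) (hz : z ∈ B)
    (hL : 0 < D x z) :
    IsGeod D B (fun s => c (D x o / D x z + s * (1 - D x o / D x z))) o z := by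
  have hX := h.nonneg (Or.inl hx) (Or.inl h.oA : o ∈ A ∪ B)
  have hZ := h.nonneg (Or.inl h.oA) (Or.inr hz : z ∈ A ∪ B)
  have hs := h.sep x hx z hz
  have hb : D x o / D x z ∈ Icc (0 : ℝ) 1 := ⟨by positivity, by rw [div_le_one hL]; linarith⟩
  have hmid : c (D x o / D x z) = o := h.geod_mid hc hx hz hb (by field_simp)
  have := hc.piece (a := D x o / D x z) (b := 1) hb ⟨zero_le_one, le_rfl⟩ hb.2
  simp only [hc.one, hmid] at this
  refine this.restr fun t ht => ?_
  have h1 : 0 ≤ t * (1 - D x o / D x z) := mul_nonneg ht.1 (by linarith [hb.2])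
  have h2 : t * (1 - D x o / D x z) ≤ 1 * (1 - D x o / D x z) :=
    mul_le_mul_of_nonneg_right ht.2 (by linarith [hb.2])
  apply h.geod_right' hc hx hz ⟨by linarith [hb.1], by linarith⟩
  calc D x o = D x o / D x z * D x z := by field_simp
    _ ≤ (D x o / D x z + t * (1 - D x o / D x z)) * D x z :=
      mul_le_mul_of_nonneg_right (by linarith) hL.le

lemma bus1 (hA : Good D A) {x y z : Y} {c c' : ℝ → Y} (hx : x ∈ A) (hy : y ∈ A) (hz : z ∈ B)
    (hc : IsGeod D (A ∪ B) c x y) (hc' : IsGeod D (A ∪ B) c' x z) {t : ℝ}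
    (ht : t ∈ Icc (0 : ℝ) 1) : D (c t) (c' t) ≤ t * D y z := by
  have hcA := h.geod_left hc hx hy
  have e1 := h.sep x hx z hz
  have e2 := h.sep y hy z hz
  have hX := h.nonneg (Or.inl hx) (Or.inl h.oA : o ∈ A ∪ B)
  have hZ := h.nonneg (Or.inl h.oA) (Or.inr hz : z ∈ A ∪ B)
  by_cases hX0 : D x o = 0
  · have hxo := h.met.eq x (Or.inl hx) o (Or.inl h.oA) hX0
    have h1 := h.met.tri (c t) (hc.mem t ht) x (Or.inl hx) (c' t) (hc'.mem t ht)
    rw [h.met.symm (c t) (hc.mem t ht) x (Or.inl hx), hc.dist_left ht, hc'.dist_left ht] at h1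
    rw [e2, ← hxo, h.met.symm y (Or.inl hy) x (Or.inl hx)]
    linarith
  · have hXpos : 0 < D x o := lt_of_le_of_ne hX (Ne.symm hX0)
    have hL : 0 < D x z := by linarith
    have hc1 := h.first_piece hc' hx hz hL
    rcases le_or_gt (t * D x z) (D x o) with h1 | h1
    · -- c' t is in A
      have ht' : t * (D x z / D x o) ∈ Icc (0 : ℝ) 1 := by
        refine ⟨by have := ht.1; positivity, ?_⟩
        rw [← mul_div_assoc, div_le_one hXpos]; exact h1
      have e3 := hA.bus x y o c _ hcA hc1 t ht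
      have e4 := hc1.dist t ht _ ht'
      have e5 : t * (D x z / D x o) * (D x o / D x z) = t := by field_simp
      rw [e5] at e4
      have e6 : |t - t * (D x z / D x o)| * D x o = t * D o z := by
        have : t ≤ t * (D x z / D x o) := by
          apply le_mul_of_one_le_right ht.1
          rw [one_le_div hXpos]; linarith
        rw [abs_sub_comm, abs_of_nonneg (by linarith), e1]
        field_simp
        ring
      have hm : c' (t * (D x o / D x z)) ∈ A ∪ B := Or.inl (hc1.mem t ht)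
      have e7 := h.met.tri (c t) (hc.mem t ht) _ hm (c' t) (hc'.mem t ht)
      rw [e2]
      calc _ ≤ _ := e7
        _ ≤ t * D y o + t * D o z := by rw [e4, e6]; linarith
        _ = _ := by ring
    · have h2 := h.geod_right' hc' hx hz ht h1.le
      have e3 := h.sep _ (hcA.mem t ht) _ h2
      have e4 := h.sep _ hx _ h2
      rw [hc'.dist_left ht] at e4
      have e5 := hA.bus x y o c _ hcA hc1 t ht
      have e6 := hc1.dist_right ht
      have hm : c' (t * (D x o / D x z)) ∈ A ∪ B := Or.inl (hc1.mem t ht)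
      have e7 := h.met.tri (c t) (hc.mem t ht) _ hm o (Or.inl h.oA)
      rw [e3, e2]
      have : D (c t) o ≤ t * D y o + (1 - t) * D x o := by linarith
      nlinarith

lemma bus2 (hA : Good D A) (hB : Good D B) {x y z : Y} {c c' : ℝ → Y} (hx : x ∈ A) (hy : y ∈ B)
    (hz : z ∈ B) (hc : IsGeod D (A ∪ B) c x y) (hc' : IsGeod D (A ∪ B) c' x z)
    (hle : D o y ≤ D o z) {t : ℝ}
    (ht : t ∈ Icc (0 : ℝ) 1) : D (c t) (c' t) ≤ t * D y z := by
  have e1 := h.sep x hx z hz
  have e2 := h.sep x hx y hy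
  have hX := h.nonneg (Or.inl hx) (Or.inl h.oA : o ∈ A ∪ B)
  have hZ := h.nonneg (Or.inl h.oA) (Or.inr hz : z ∈ A ∪ B)
  have hY := h.nonneg (Or.inl h.oA) (Or.inr hy : y ∈ A ∪ B)
  have htri : D o z - D o y ≤ D y z := by
    have := h.met.tri o (Or.inl h.oA) y (Or.inr hy) z (Or.inr hz); linarith
  by_cases hX0 : D x o = 0
  · have hxo := h.met.eq x (Or.inl hx) o (Or.inl h.oA) hX0
    have hxB : x ∈ B := hxo ▸ h.oB
    have hs := h.swap
    rw [union_comm] at hc hc'
    exact hB.bus x y z c c' (hs.geod_left hc hxB hy) (hs.geod_left hc' hxB hz) t ht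
  · have hXpos : 0 < D x o := lt_of_le_of_ne hX (Ne.symm hX0)
    have hL : 0 < D x y := by linarith
    have hL' : 0 < D x z := by linarith
    have hc1 := h.first_piece hc hx hy hL
    have hc1' := h.first_piece hc' hx hz hL'
    rcases le_or_gt (t * D x y) (D x o) with h1 | h1
    · have hs : t * (D x y / D x o) ∈ Icc (0 : ℝ) 1 := by
        refine ⟨by have := ht.1; positivity, ?_⟩
        rw [← mul_div_assoc, div_le_one hXpos]; exact h1
      have e3 := hA.bus x o o _ _ hc1 hc1' _ hs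
      rw [h.met.self o (Or.inl h.oA), mul_zero] at e3
      have e4 : t * (D x y / D x o) * (D x o / D x y) = t := by field_simp
      have e5 : t * (D x y / D x o) * (D x o / D x z) = t * (D x y / D x z) := by field_simp
      simp only [e4, e5] at e3
      have hm1 := hc1.mem _ hs
      have hm2 := hc1'.mem _ hs
      simp only [e4, e5] at hm1 hm2
      have e6 : c t = c' (t * (D x y / D x z)) :=
        h.met.eq _ (Or.inl hm1) _ (Or.inl hm2)
          (le_antisymm e3 (h.nonneg (Or.inl hm1) (Or.inl hm2)))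
      have hle1 : D x y / D x z ≤ 1 := by rw [div_le_one hL']; linarith
      have hs' : t * (D x y / D x z) ∈ Icc (0 : ℝ) 1 := by
        refine ⟨by have := ht.1; positivity, ?_⟩
        calc t * (D x y / D x z) ≤ 1 * 1 := mul_le_mul ht.2 hle1 (by positivity) zero_le_one
          _ = 1 := one_mul _
      rw [e6, hc'.dist _ hs' _ ht]
      have e7 : t * (D x y / D x z) ≤ t := mul_le_of_le_one_right ht.1 hle1
      rw [abs_sub_comm, abs_of_nonneg (by linarith)]
      have e8 : (t - t * (D x y / D x z)) * D x z = t * (D o z - D o y) := by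
        field_simp
        rw [e1, e2]; ring
      rw [e8]
      exact mul_le_mul_of_nonneg_left htri ht.1
    · have hYpos : 0 < D o y := by
        by_contra hcon
        have : D o y = 0 := le_antisymm (not_lt.1 hcon) hY
        have h2 : t * D x y ≤ 1 * D x y := mul_le_mul_of_nonneg_right ht.2 hL.le
        linarith
      have hZpos : 0 < D o z := by linarith
      have hcy := h.last_piece hc hx hy hL
      have hcz := h.last_piece hc' hx hz hL'
      set X := D x o with hXdef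
      set Yy := D o y with hYdef
      set Z := D o z with hZdef
      set s := (t * (X + Yy) - X) / Yy with hsdef
      set s' := (t * (X + Z) - X) / Z with hs'def
      have hs : s ∈ Icc (0 : ℝ) 1 := by
        refine ⟨div_nonneg (by rw [e2] at h1; linarith) hYpos.le, ?_⟩
        rw [hsdef, div_le_one hYpos]
        have : t * (X + Yy) ≤ 1 * (X + Yy) := mul_le_mul_of_nonneg_right ht.2 (by linarith)
        linarith
      have h1' : X < t * (X + Z) := by
        rw [e2] at h1
        have : t * (X + Yy) ≤ t * (X + Z) := mul_le_mul_of_nonneg_left (by linarith) ht.1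
        linarith
      have hs' : s' ∈ Icc (0 : ℝ) 1 := by
        refine ⟨div_nonneg (by linarith) hZpos.le, ?_⟩
        rw [hs'def, div_le_one hZpos]
        have : t * (X + Z) ≤ 1 * (X + Z) := mul_le_mul_of_nonneg_right ht.2 (by linarith)
        linarith
      have hss' : s ≤ s' := by
        rw [hsdef, hs'def, div_le_div_iff₀ hYpos hZpos]
        have : X * (1 - t) * Yy ≤ X * (1 - t) * Z :=
          mul_le_mul_of_nonneg_left hle (mul_nonneg hX (by linarith [ht.2]))
        nlinarith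
      have f1 : X / D x y + s * (1 - X / D x y) = t := by
        rw [e2, hsdef]; field_simp; ring
      have f2 : X / D x z + s' * (1 - X / D x z) = t := by
        rw [e1, hs'def]; field_simp; ring
      have e3 := hB.bus o y z _ _ hcy hcz s hs
      have e4 := hcz.dist s hs s' hs'
      have m1 := hcy.mem s hs
      have m2 := hcz.mem s hs
      have m3 := hcz.mem s' hs'
      simp only [f1, f2] at e3 e4 m1 m3
      rw [abs_sub_comm, abs_of_nonneg (by linarith)] at e4
      have e5 := h.met.tri _ (Or.inr m1) _ (Or.inr m2) _ (Or.inr m3)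
      rw [e4] at e5
      refine e5.trans ?_
      have e6 : (s' - s) * Z = (1 - t) * (X / Yy) * (Z - Yy) := by
        rw [hsdef, hs'def]; field_simp; ring
      have e7 : t - s = (1 - t) * (X / Yy) := by
        rw [hsdef]; field_simp; ring
      have e8 : (1 - t) * (X / Yy) * (Z - Yy) ≤ (1 - t) * (X / Yy) * D y z :=
        mul_le_mul_of_nonneg_left htri (mul_nonneg (by linarith [ht.2]) (by positivity))
      have e9 : (1 - t) * (X / Yy) * D y z = (t - s) * D y z := by rw [e7]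
      linarith

lemma bus_aux (hA : Good D A) (hB : Good D B) {x y z : Y} {c c' : ℝ → Y} (hx : x ∈ A)
    (hc : IsGeod D (A ∪ B) c x y) (hc' : IsGeod D (A ∪ B) c' x z) {t : ℝ}
    (ht : t ∈ Icc (0 : ℝ) 1) : D (c t) (c' t) ≤ t * D y z := by
  have hsymm : D (c t) (c' t) = D (c' t) (c t) :=
    h.met.symm _ (hc.mem t ht) _ (hc'.mem t ht)
  have hsymm2 : D y z = D z y := h.met.symm _ hc.right_mem _ hc'.right_mem
  rcases hc.right_mem with hy | hy <;> rcases hc'.right_mem with hz | hz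
  · exact hA.bus x y z c c' (h.geod_left hc hx hy) (h.geod_left hc' hx hz) t ht
  · exact h.bus1 hA hx hy hz hc hc' ht
  · rw [hsymm, hsymm2]
    exact h.bus1 hA hx hz hy hc' hc ht
  · rcases le_total (D o y) (D o z) with h1 | h1
    · exact h.bus2 hA hB hx hy hz hc hc' h1 ht
    · rw [hsymm, hsymm2]
      exact h.bus2 hA hB hx hz hy hc' hc h1 ht

lemma exi_aux (hA : Good D A) (hB : Good D B) {x z : Y} (hx : x ∈ A) (hz : z ∈ B) :
    ∃ c, IsGeod D (A ∪ B) c x z := by
  have e1 := h.sep x hx z hz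
  have hX := h.nonneg (Or.inl hx) (Or.inl h.oA : o ∈ A ∪ B)
  have hZ := h.nonneg (Or.inl h.oA) (Or.inr hz : z ∈ A ∪ B)
  by_cases hX0 : D x o = 0
  · have hxo := h.met.eq x (Or.inl hx) o (Or.inl h.oA) hX0
    obtain ⟨c, hc⟩ := hB.exi x (hxo ▸ h.oB) z hz
    exact ⟨c, hc.mono subset_union_right⟩
  by_cases hZ0 : D o z = 0
  · have hoz := h.met.eq o (Or.inl h.oA) z (Or.inr hz) hZ0
    obtain ⟨c, hc⟩ := hA.exi x hx z (hoz ▸ h.oA)
    exact ⟨c, hc.mono subset_union_left⟩
  have hXp : 0 < D x o := lt_of_le_of_ne hX (Ne.symm hX0)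
  have hZp : 0 < D o z := lt_of_le_of_ne hZ (Ne.symm hZ0)
  obtain ⟨c1, hc1⟩ := hA.exi x hx o h.oA
  obtain ⟨c2, hc2⟩ := hB.exi o h.oB z hz
  set X := D x o
  set Z := D o z
  have hL : 0 < X + Z := by linarith
  -- parameters
  have k1 : ∀ t ∈ Icc (0 : ℝ) 1, t * (X + Z) ≤ X → t * (X + Z) / X ∈ Icc (0 : ℝ) 1 := by
    intro t ht h1
    exact ⟨div_nonneg (mul_nonneg ht.1 hL.le) hX, by rwa [div_le_one hXp]⟩
  have k2 : ∀ t ∈ Icc (0 : ℝ) 1, ¬ t * (X + Z) ≤ X → (t * (X + Z) - X) / Z ∈ Icc (0 : ℝ) 1 := by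
    intro t ht h1
    refine ⟨div_nonneg (by linarith) hZ, ?_⟩
    rw [div_le_one hZp]
    have : t * (X + Z) ≤ 1 * (X + Z) := mul_le_mul_of_nonneg_right ht.2 hL.le
    linarith
  refine ⟨fun t => if t * (X + Z) ≤ X then c1 (t * (X + Z) / X) else c2 ((t * (X + Z) - X) / Z),
    ?_, ?_, ?_, ?_⟩
  · simp [hX, hc1.zero]
  · have h1 : ¬ (1 * (X + Z) ≤ X) := by linarith
    simp only [h1, if_false]
    rw [show (1 * (X + Z) - X) / Z = 1 by field_simp; ring, hc2.one]
  · intro t ht
    by_cases h1 : t * (X + Z) ≤ X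
    · simp only [h1, if_true]; exact Or.inl (hc1.mem _ (k1 t ht h1))
    · simp only [h1, if_false]; exact Or.inr (hc2.mem _ (k2 t ht h1))
  · have main : ∀ s ∈ Icc (0 : ℝ) 1, ∀ t ∈ Icc (0 : ℝ) 1, s * (X + Z) ≤ X → ¬ t * (X + Z) ≤ X →
        D (c1 (s * (X + Z) / X)) (c2 ((t * (X + Z) - X) / Z)) = |s - t| * (X + Z) := by
      intro s hs t ht h1 h2
      have g1 := h.sep _ (hc1.mem _ (k1 s hs h1)) _ (hc2.mem _ (k2 t ht h2))
      rw [g1, hc1.dist_right (k1 s hs h1), hc2.dist_left (k2 t ht h2)]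
      have hst : s ≤ t := by
        by_contra hcon
        push Not at hcon h2
        have : t * (X + Z) ≤ s * (X + Z) := mul_le_mul_of_nonneg_right hcon.le hL.le
        linarith
      rw [abs_sub_comm, abs_of_nonneg (by linarith)]
      change (1 - s * (X + Z) / X) * X + (t * (X + Z) - X) / Z * Z = _
      field_simp
      ring
    intro s hs t ht
    rw [e1]
    by_cases h1 : s * (X + Z) ≤ X <;> by_cases h2 : t * (X + Z) ≤ X <;>
      simp only [h1, h2, if_true, if_false]
    · rw [hc1.dist _ (k1 s hs h1) _ (k1 t ht h2)]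
      change |s * (X + Z) / X - t * (X + Z) / X| * X = _
      rw [show s * (X + Z) / X - t * (X + Z) / X = (s - t) * ((X + Z) / X) by ring, abs_mul,
        abs_of_pos (div_pos hL hXp)]
      field_simp
    · exact main s hs t ht h1 h2
    · rw [h.met.symm _ (Or.inr (hc2.mem _ (k2 s hs h1))) _ (Or.inl (hc1.mem _ (k1 t ht h2))),
        main t ht s hs h2 h1, abs_sub_comm]
    · rw [hc2.dist _ (k2 s hs h1) _ (k2 t ht h2)]
      change |(s * (X + Z) - X) / Z - (t * (X + Z) - X) / Z| * Z = _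
      rw [show (s * (X + Z) - X) / Z - (t * (X + Z) - X) / Z = (s - t) * ((X + Z) / Z) by ring,
        abs_mul, abs_of_pos (div_pos hL hZp)]
      field_simp

lemma good (hA : Good D A) (hB : Good D B) : Good D (A ∪ B) := by
  constructor
  · intro x hx y hy
    rcases hx with hx | hx <;> rcases hy with hy | hy
    · obtain ⟨c, hc⟩ := hA.exi x hx y hy
      exact ⟨c, hc.mono subset_union_left⟩
    · exact h.exi_aux hA hB hx hy
    · have := h.swap.exi_aux hB hA hx hy
      rwa [union_comm] at this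
    · obtain ⟨c, hc⟩ := hB.exi x hx y hy
      exact ⟨c, hc.mono subset_union_right⟩
  · intro x y z c c' hc hc' t ht
    rcases hc.left_mem with hx | hx
    · exact h.bus_aux hA hB hx hc hc' ht
    · rw [union_comm] at hc hc'
      exact h.swap.bus_aux hB hA hx hc hc' ht

lemma cn1 (hA : CN D A) {x y z : Y} {c : ℝ → Y} (hx : x ∈ A) (hy : y ∈ A) (hz : z ∈ B)
    (hc : IsGeod D (A ∪ B) c x y) {t : ℝ} (ht : t ∈ Icc (0 : ℝ) 1) :
    D z (c t) ^ 2 ≤ (1 - t) * D z x ^ 2 + t * D z y ^ 2 - t * (1 - t) * D x y ^ 2 := by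
  have hcA := h.geod_left hc hx hy
  have hs := h.swap
  have e1 := hs.sep z hz _ (hcA.mem t ht)
  have e2 := hs.sep z hz x hx
  have e3 := hs.sep z hz y hy
  have e4 := hA x y c hcA o h.oA t ht
  have hg := h.nonneg (Or.inr hz : z ∈ A ∪ B) (Or.inl h.oA)
  have hox := h.nonneg (Or.inl h.oA : o ∈ A ∪ B) (Or.inl hx)
  have hoy := h.nonneg (Or.inl h.oA : o ∈ A ∪ B) (Or.inl hy)
  have hxy := h.nonneg (Or.inl hx : x ∈ A ∪ B) (Or.inl hy)
  have hoc := h.nonneg (Or.inl h.oA : o ∈ A ∪ B) (hc.mem t ht)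
  have t1 := h.met.tri o (Or.inl h.oA) x (Or.inl hx) y (Or.inl hy)
  have t2 := h.met.tri o (Or.inl h.oA) y (Or.inl hy) x (Or.inl hx)
  rw [h.met.symm y (Or.inl hy) x (Or.inl hx)] at t2
  have ht0 := ht.1
  have ht1 : 0 ≤ 1 - t := by linarith [ht.2]
  have hsq : (D o x - D o y) ^ 2 ≤ D x y ^ 2 := by
    apply sq_le_sq'
    · linarith
    · linarith
  have hlin : D o (c t) ≤ (1 - t) * D o x + t * D o y := by
    have h1 : D o (c t) ^ 2 ≤ ((1 - t) * D o x + t * D o y) ^ 2 := by
      have : t * (1 - t) * (D o x - D o y) ^ 2 ≤ t * (1 - t) * D x y ^ 2 :=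
        mul_le_mul_of_nonneg_left hsq (mul_nonneg ht0 ht1)
      nlinarith
    exact le_of_sq_le_sq h1 (by positivity)
  rw [e1, e2, e3]
  have : D z o * D o (c t) ≤ D z o * ((1 - t) * D o x + t * D o y) :=
    mul_le_mul_of_nonneg_left hlin hg
  nlinarith
where
  le_of_sq_le_sq {a b : ℝ} (h : a ^ 2 ≤ b ^ 2) (hb : 0 ≤ b) : a ≤ b := by
    by_contra hcon
    push Not at hcon
    nlinarith

lemma cn2 (hA : CN D A) (hB : CN D B) {x y z : Y} {c : ℝ → Y} (hx : x ∈ A) (hy : y ∈ B)
    (hz : z ∈ A) (hc : IsGeod D (A ∪ B) c x y) {t : ℝ} (ht : t ∈ Icc (0 : ℝ) 1) :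
    D z (c t) ^ 2 ≤ (1 - t) * D z x ^ 2 + t * D z y ^ 2 - t * (1 - t) * D x y ^ 2 := by
  have e1 := h.sep x hx y hy
  have e2 := h.sep z hz y hy
  have hX := h.nonneg (Or.inl hx) (Or.inl h.oA : o ∈ A ∪ B)
  have hY := h.nonneg (Or.inl h.oA) (Or.inr hy : y ∈ A ∪ B)
  have t1 := h.met.tri z (Or.inl hz) x (Or.inl hx) o (Or.inl h.oA)
  have t2 := h.met.tri x (Or.inl hx) z (Or.inl hz) o (Or.inl h.oA)
  rw [h.met.symm x (Or.inl hx) z (Or.inl hz)] at t2
  have hzx := h.nonneg (Or.inl hz : z ∈ A ∪ B) (Or.inl hx)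
  have hsq : (D z o - D x o) ^ 2 ≤ D z x ^ 2 := by
    apply sq_le_sq' <;> linarith
  have ht0 := ht.1
  have ht1 : 0 ≤ 1 - t := by linarith [ht.2]
  by_cases hX0 : D x o = 0
  · have hxo := h.met.eq x (Or.inl hx) o (Or.inl h.oA) hX0
    have hxB : x ∈ B := hxo ▸ h.oB
    rw [union_comm] at hc
    exact h.swap.cn1 hB hxB hy hz hc ht
  · have hXpos : 0 < D x o := lt_of_le_of_ne hX (Ne.symm hX0)
    have hL : 0 < D x y := by linarith
    rcases le_or_gt (t * D x y) (D x o) with h1 | h1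
    · have hc1 := h.first_piece hc hx hy hL
      set s := t * (D x y / D x o) with hsdef
      have hs : s ∈ Icc (0 : ℝ) 1 := by
        refine ⟨by positivity, ?_⟩
        rw [hsdef, ← mul_div_assoc, div_le_one hXpos]; exact h1
      have e4 : s * (D x o / D x y) = t := by rw [hsdef]; field_simp
      have e5 := hA x o _ hc1 z hz s hs
      simp only [e4] at e5
      rw [e2, e1]
      have e6 : s * D x o = t * (D x o + D o y) := by rw [hsdef, ← e1]; field_simp
      have hst : 0 ≤ s - t := by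
        have : t * 1 ≤ t * (D x y / D x o) := by
          apply mul_le_mul_of_nonneg_left _ ht0
          rw [one_le_div hXpos]; linarith
        rw [hsdef]; linarith
      have e7 : (s - t) * D x o = t * D o y := by linarith
      have e8 : 0 ≤ (s - t) * (D z x ^ 2 - (D z o - D x o) ^ 2) :=
        mul_nonneg hst (by linarith)
      have e9 : (1 - t) * D z x ^ 2 + t * (D z o + D o y) ^ 2
          - t * (1 - t) * (D x o + D o y) ^ 2
          - ((1 - s) * D z x ^ 2 + s * D z o ^ 2 - s * (1 - s) * D x o ^ 2)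
          = (s - t) * (D z x ^ 2 - (D z o - D x o) ^ 2) := by
        have hY' : t * D o y = (s - t) * D x o := e7.symm
        have h3 : s * (1 - s) * D x o ^ 2 = (s * D x o) * (D x o - s * D x o) := by ring
        rw [h3, e6]
        have h4 : t * (D z o + D o y) ^ 2 = t * D z o ^ 2 + 2 * D z o * (t * D o y)
          + (t * D o y) * D o y := by ring
        have h5 : t * (D x o + D o y) * (D x o - t * (D x o + D o y))
            - t * (1 - t) * (D x o + D o y) ^ 2 = - (t * D o y) * (D x o + D o y) := by ring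
        have h6 : (1 - t) * D z x ^ 2 + t * (D z o + D o y) ^ 2
          - t * (1 - t) * (D x o + D o y) ^ 2
          - ((1 - s) * D z x ^ 2 + s * D z o ^ 2
            - t * (D x o + D o y) * (D x o - t * (D x o + D o y)))
          = (s - t) * D z x ^ 2 + t * (D z o + D o y) ^ 2 - s * D z o ^ 2
            + (t * (D x o + D o y) * (D x o - t * (D x o + D o y))
            - t * (1 - t) * (D x o + D o y) ^ 2) := by ring
        rw [h6, h5, h4, hY']
        ring_nf
      linarith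
    · have h2 := h.geod_right' hc hx hy ht h1.le
      have e3 := h.sep z hz _ h2
      have e4 := h.sep x hx _ h2
      rw [hc.dist_left ht] at e4
      have e5 : D z (c t) = D z o - D x o + t * (D x o + D o y) := by rw [← e1]; linarith
      rw [e5, e2, e1]
      have e6 : (1 - t) * (D z o - D x o) ^ 2 ≤ (1 - t) * D z x ^ 2 :=
        mul_le_mul_of_nonneg_left hsq ht1
      nlinarith

lemma cn (hA : CN D A) (hB : CN D B) : CN D (A ∪ B) := by
  intro x y c hc z hz t ht
  have hrev : IsGeod D (A ∪ B) (fun t => c (1 - t)) y x := hc.reverse h.met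
  have ht' : 1 - t ∈ Icc (0 : ℝ) 1 := ⟨by linarith [ht.2], by linarith [ht.1]⟩
  have hxy : D x y = D y x := h.met.symm _ hc.left_mem _ hc.right_mem
  have h11 : (1 : ℝ) - (1 - t) = t := by ring
  rcases hc.left_mem with hx | hx <;> rcases hc.right_mem with hy | hy <;> rcases hz with hz | hz
  · exact hA x y c (h.geod_left hc hx hy) z hz t ht
  · exact h.cn1 hA hx hy hz hc ht
  · exact h.cn2 hA hB hx hy hz hc ht
  · -- x ∈ A, y ∈ B, z ∈ B
    have := h.swap.cn2 hB hA hy hx hz (by rw [union_comm]; exact hrev) ht'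
    simp only [h11] at this
    rw [hxy]
    linarith
  · -- x ∈ B, y ∈ A, z ∈ A
    have := h.cn2 hA hB hy hx hz hrev ht'
    simp only [h11] at this
    rw [hxy]
    linarith
  · rw [union_comm] at hc
    exact h.swap.cn2 hB hA hx hy hz hc ht
  · rw [union_comm] at hc
    exact h.swap.cn1 hB hx hy hz hc ht
  · rw [union_comm] at hc
    exact hB x y c (h.swap.geod_left hc hx hy) z hz t ht

end Glued

end Glue

end Pool.Agent.W539.Cube
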