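import Mathlib

/-!
# The function `(a ^ p + b ^ p) ^ (1 / p)`
-/

namespace Pool.Agent.W539.Cube

/-- The `ℓ^p` norm of the vector `(a, b)` for `a, b ≥ 0`. -/
noncomputable def M (p a b : ℝ) : ℝ := (a ^ p + b ^ p) ^ (1 / p)

variable {p a b a' b' : ℝ}

lemma M_nonneg (ha : 0 ≤ a) (hb : 0 ≤ b) : 0 ≤ M p a b :=
  Real.rpow_nonneg (add_nonneg (Real.rpow_nonneg ha _) (Real.rpow_nonneg hb _)) _

lemma M_pow (hp : 1 ≤ p) (ha : 0 ≤ a) (hb : 0 ≤ b) : M p a b ^ p = a ^ p + b ^ p := by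
  have h : 0 ≤ a ^ p + b ^ p := add_nonneg (Real.rpow_nonneg ha _) (Real.rpow_nonneg hb _)
  rw [M, ← Real.rpow_mul h, one_div_mul_cancel (by linarith), Real.rpow_one]

lemma M_mono (hp : 1 ≤ p) (ha : 0 ≤ a) (hb : 0 ≤ b) (h1 : a ≤ a') (h2 : b ≤ b') :
    M p a b ≤ M p a' b' := by
  apply Real.rpow_le_rpow
  · exact add_nonneg (Real.rpow_nonneg ha _) (Real.rpow_nonneg hb _)
  · exact add_le_add (Real.rpow_le_rpow ha h1 (by linarith))
      (Real.rpow_le_rpow hb h2 (by linarith))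
  · positivity

lemma M_zero_right (hp : 1 ≤ p) (ha : 0 ≤ a) : M p a 0 = a := by
  rw [M, Real.zero_rpow (by linarith), add_zero, ← Real.rpow_mul ha,
    mul_one_div_cancel (by linarith), Real.rpow_one]

lemma M_zero_left (hp : 1 ≤ p) (hb : 0 ≤ b) : M p 0 b = b := by
  rw [M, Real.zero_rpow (by linarith), zero_add, ← Real.rpow_mul hb,
    mul_one_div_cancel (by linarith), Real.rpow_one]

lemma le_M_left (hp : 1 ≤ p) (ha : 0 ≤ a) (hb : 0 ≤ b) : a ≤ M p a b := by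
  calc a = M p a 0 := (M_zero_right hp ha).symm
    _ ≤ M p a b := M_mono hp ha le_rfl le_rfl hb

lemma le_M_right (hp : 1 ≤ p) (ha : 0 ≤ a) (hb : 0 ≤ b) : b ≤ M p a b := by
  calc b = M p 0 b := (M_zero_left hp hb).symm
    _ ≤ M p a b := M_mono hp le_rfl hb ha le_rfl

lemma M_eq_zero (hp : 1 ≤ p) (ha : 0 ≤ a) (hb : 0 ≤ b) (h : M p a b = 0) : a = 0 ∧ b = 0 :=
  ⟨le_antisymm (h ▸ le_M_left hp ha hb) ha, le_antisymm (h ▸ le_M_right hp ha hb) hb⟩

lemma M_smul (hp : 1 ≤ p) {t : ℝ} (ht : 0 ≤ t) (ha : 0 ≤ a) (hb : 0 ≤ b) :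
    M p (t * a) (t * b) = t * M p a b := by
  have h : 0 ≤ a ^ p + b ^ p := add_nonneg (Real.rpow_nonneg ha _) (Real.rpow_nonneg hb _)
  rw [M, M, Real.mul_rpow ht ha, Real.mul_rpow ht hb, ← mul_add,
    Real.mul_rpow (Real.rpow_nonneg ht _) h, ← Real.rpow_mul ht,
    mul_one_div_cancel (by linarith), Real.rpow_one]

lemma M_add_le (hp : 1 ≤ p) (ha : 0 ≤ a) (hb : 0 ≤ b) (ha' : 0 ≤ a') (hb' : 0 ≤ b') :
    M p (a + a') (b + b') ≤ M p a b + M p a' b' := by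
  have := Real.Lp_add_le (Finset.univ : Finset (Fin 2)) ![a, b] ![a', b'] hp
  simpa [M, Fin.sum_univ_two, abs_of_nonneg, ha, hb, ha', hb', add_nonneg] using this

/-- The equality case of the triangle inequality. -/
lemma M_strict (hp : 1 < p) {t L D D' : ℝ} (ht0 : 0 < t) (ht1 : t < 1)
    (ha : 0 ≤ a) (hb : 0 ≤ b) (ha' : 0 ≤ a') (hb' : 0 ≤ b') (hD : 0 ≤ D) (hD' : 0 ≤ D')
    (hL : 0 ≤ L)
    (h1 : M p a a' = t * L) (h2 : M p b b' = (1 - t) * L) (h3 : M p D D' = L)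
    (h4 : D ≤ a + b) (h5 : D' ≤ a' + b') :
    a = t * D ∧ a' = t * D' ∧ b = (1 - t) * D ∧ b' = (1 - t) * D' := by
  have hp1 : 1 ≤ p := hp.le
  have ht1' : 0 < 1 - t := by linarith
  have e1 : a ^ p + a' ^ p = t ^ p * L ^ p := by
    rw [← M_pow hp1 ha ha', h1, Real.mul_rpow ht0.le hL]
  have e2 : b ^ p + b' ^ p = (1 - t) ^ p * L ^ p := by
    rw [← M_pow hp1 hb hb', h2, Real.mul_rpow ht1'.le hL]
  have e3 : D ^ p + D' ^ p = L ^ p := by rw [← M_pow hp1 hD hD', h3]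
  have key : ∀ x y E : ℝ, 0 ≤ x → 0 ≤ y → 0 ≤ E → E ≤ x + y →
      E ^ p ≤ t * (x / t) ^ p + (1 - t) * (y / (1 - t)) ^ p ∧
      (E ^ p = t * (x / t) ^ p + (1 - t) * (y / (1 - t)) ^ p → x = t * E ∧ y = (1 - t) * E) := by
    intro x y E hx hy hE hxy
    have hc := strictConvexOn_rpow hp
    have hx' : x / t ∈ Set.Ici (0 : ℝ) := Set.mem_Ici.2 (by positivity)
    have hy' : y / (1 - t) ∈ Set.Ici (0 : ℝ) := Set.mem_Ici.2 (by positivity)
    have hxt : t * (x / t) = x := by field_simp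
    have hyt : (1 - t) * (y / (1 - t)) = y := by field_simp
    have hle : (x + y) ^ p ≤ t * (x / t) ^ p + (1 - t) * (y / (1 - t)) ^ p := by
      have := hc.convexOn.2 hx' hy' ht0.le ht1'.le (by ring)
      simp only [smul_eq_mul] at this
      rwa [hxt, hyt] at this
    have hEle : E ^ p ≤ (x + y) ^ p := Real.rpow_le_rpow hE hxy (by linarith)
    refine ⟨hEle.trans hle, fun heq => ?_⟩
    have heq1 : E ^ p = (x + y) ^ p := le_antisymm hEle (by linarith)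
    have hExy : E = x + y := by
      by_contra hne
      have : E < x + y := lt_of_le_of_ne hxy hne
      exact absurd heq1 (Real.rpow_lt_rpow hE this (by linarith)).ne
    have hEq2 : x / t = y / (1 - t) := by
      by_contra hne
      have := hc.2 hx' hy' hne ht0 ht1' (by ring)
      simp only [smul_eq_mul] at this
      rw [hxt, hyt] at this
      linarith
    have h7 : x * (1 - t) = y * t := by
      rw [div_eq_div_iff ht0.ne' ht1'.ne'] at hEq2
      exact hEq2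
    constructor
    · rw [hExy]; linarith
    · rw [hExy]; linarith
  have htp : t * (1 / t) ^ p * t ^ p = t := by
    rw [mul_assoc, ← Real.mul_rpow (by positivity) ht0.le, one_div_mul_cancel ht0.ne',
      Real.one_rpow, mul_one]
  have htp' : (1 - t) * (1 / (1 - t)) ^ p * (1 - t) ^ p = 1 - t := by
    rw [mul_assoc, ← Real.mul_rpow (by positivity) ht1'.le, one_div_mul_cancel ht1'.ne',
      Real.one_rpow, mul_one]
  have hdiv : ∀ x : ℝ, 0 ≤ x → (x / t) ^ p = (1 / t) ^ p * x ^ p := by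
    intro x hx
    rw [← Real.mul_rpow (by positivity) hx]; congr 1; ring
  have hdiv' : ∀ x : ℝ, 0 ≤ x → (x / (1 - t)) ^ p = (1 / (1 - t)) ^ p * x ^ p := by
    intro x hx
    rw [← Real.mul_rpow (by positivity) hx]; congr 1; ring
  obtain ⟨k1, k2⟩ := key a b D ha hb hD h4
  obtain ⟨k3, k4⟩ := key a' b' D' ha' hb' hD' h5
  have hsum : (t * (a / t) ^ p + (1 - t) * (b / (1 - t)) ^ p) +
      (t * (a' / t) ^ p + (1 - t) * (b' / (1 - t)) ^ p) = L ^ p := by
    rw [hdiv a ha, hdiv a' ha', hdiv' b hb, hdiv' b' hb']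
    calc _ = t * (1 / t) ^ p * (a ^ p + a' ^ p) +
          (1 - t) * (1 / (1 - t)) ^ p * (b ^ p + b' ^ p) := by ring
      _ = (t * (1 / t) ^ p * t ^ p) * L ^ p +
          ((1 - t) * (1 / (1 - t)) ^ p * (1 - t) ^ p) * L ^ p := by rw [e1, e2]; ring
      _ = L ^ p := by rw [htp, htp']; ring
  obtain ⟨r1, r2⟩ := k2 (by linarith)
  obtain ⟨r3, r4⟩ := k4 (by linarith)
  exact ⟨r1, r3, r2, r4⟩

end Pool.Agent.W539.Cube
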