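import Pool.Agent.W539.Cube.Good

/-!
# Intervals, products, isometric images and increasing unions
-/

namespace Pool.Agent.W539.Cube

open Set

/-! ### The real line -/

/-- The distance of the real line. -/
def dR (x y : ℝ) : ℝ := |x - y|

lemma dR_met (A : Set ℝ) : IsMetricOn dR A where
  self x _ := by simp [dR]
  symm x _ y _ := abs_sub_comm x y
  tri x _ y _ z _ := abs_sub_le x y z
  eq x _ y _ h := by simpa [dR, sub_eq_zero] using h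

lemma geod_real {A : Set ℝ} {c : ℝ → ℝ} {x y : ℝ} (h : IsGeod dR A c x y) {t : ℝ}
    (ht : t ∈ Icc (0 : ℝ) 1) : c t = (1 - t) * x + t * y := by
  have h1 := h.dist_left ht
  have h2 := h.dist_right ht
  have ht0 := ht.1
  have ht1 : 0 ≤ 1 - t := by linarith [ht.2]
  simp only [dR] at h1 h2
  rcases le_total x y with hxy | hxy
  · rw [abs_of_nonpos (show x - y ≤ 0 by linarith)] at h1 h2
    have h3 := neg_abs_le (x - c t)
    have h4 := le_abs_self (c t - y)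
    have h5 := neg_abs_le (c t - y)
    have h6 := le_abs_self (x - c t)
    nlinarith
  · rw [abs_of_nonneg (show 0 ≤ x - y by linarith)] at h1 h2
    have h3 := neg_abs_le (x - c t)
    have h4 := le_abs_self (c t - y)
    have h5 := neg_abs_le (c t - y)
    have h6 := le_abs_self (x - c t)
    nlinarith

lemma good_real {A : Set ℝ} (hA : A.OrdConnected) : Good dR A where
  exi x hx y hy := by
    refine ⟨fun t => (1 - t) * x + t * y, by simp, by simp, fun t ht => ?_, fun s _ t _ => ?_⟩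
    · have ht0 := ht.1
      have ht1 : 0 ≤ 1 - t := by linarith [ht.2]
      rcases le_total x y with hxy | hxy
      · apply hA.out hx hy
        constructor <;> nlinarith
      · apply hA.out hy hx
        constructor <;> nlinarith
    · simp only [dR]
      rw [show (1 - s) * x + s * y - ((1 - t) * x + t * y) = -((s - t) * (x - y)) by ring,
        abs_neg, abs_mul]
  bus x y z c c' hc hc' t ht := by
    rw [geod_real hc ht, geod_real hc' ht]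
    simp only [dR]
    rw [show (1 - t) * x + t * y - ((1 - t) * x + t * z) = t * (y - z) by ring, abs_mul,
      abs_of_nonneg ht.1]

lemma cn_real (A : Set ℝ) : CN dR A := by
  intro x y c hc z _ t ht
  rw [geod_real hc ht]
  simp only [dR, sq_abs]
  apply le_of_eq
  ring

/-! ### Products -/

section Prod

variable {Y₁ Y₂ : Type*} {D₁ : Y₁ → Y₁ → ℝ} {D₂ : Y₂ → Y₂ → ℝ} {A₁ : Set Y₁} {A₂ : Set Y₂}
  {p : ℝ}

/-- The `ℓ^p` product distance. -/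
noncomputable def prodD (p : ℝ) (D₁ : Y₁ → Y₁ → ℝ) (D₂ : Y₂ → Y₂ → ℝ) (x y : Y₁ × Y₂) : ℝ :=
  M p (D₁ x.1 y.1) (D₂ x.2 y.2)

lemma prodD_met (hp : 1 ≤ p) (h₁ : IsMetricOn D₁ A₁) (h₂ : IsMetricOn D₂ A₂) :
    IsMetricOn (prodD p D₁ D₂) (A₁ ×ˢ A₂) where
  self x hx := by
    simp only [prodD]
    rw [h₁.self _ hx.1, h₂.self _ hx.2, M_zero_right hp le_rfl]
  symm x hx y hy := by
    simp only [prodD]
    rw [h₁.symm _ hx.1 _ hy.1, h₂.symm _ hx.2 _ hy.2]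
  tri x hx y hy z hz := by
    simp only [prodD]
    refine (M_mono hp (h₁.nonneg hx.1 hz.1) (h₂.nonneg hx.2 hz.2)
      (h₁.tri _ hx.1 _ hy.1 _ hz.1) (h₂.tri _ hx.2 _ hy.2 _ hz.2)).trans ?_
    exact M_add_le hp (h₁.nonneg hx.1 hy.1) (h₂.nonneg hx.2 hy.2) (h₁.nonneg hy.1 hz.1)
      (h₂.nonneg hy.2 hz.2)
  eq x hx y hy h := by
    obtain ⟨e1, e2⟩ := M_eq_zero hp (h₁.nonneg hx.1 hy.1) (h₂.nonneg hx.2 hy.2) h
    exact Prod.ext (h₁.eq _ hx.1 _ hy.1 e1) (h₂.eq _ hx.2 _ hy.2 e2)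

lemma geod_prod_aux (hp : 1 < p) (h₁ : IsMetricOn D₁ A₁) (h₂ : IsMetricOn D₂ A₂)
    {c : ℝ → Y₁ × Y₂} {x y : Y₁ × Y₂} (hc : IsGeod (prodD p D₁ D₂) (A₁ ×ˢ A₂) c x y) {t : ℝ}
    (ht : t ∈ Icc (0 : ℝ) 1) :
    D₁ x.1 (c t).1 = t * D₁ x.1 y.1 ∧ D₂ x.2 (c t).2 = t * D₂ x.2 y.2 ∧
    D₁ (c t).1 y.1 = (1 - t) * D₁ x.1 y.1 ∧ D₂ (c t).2 y.2 = (1 - t) * D₂ x.2 y.2 := by
  have hx := hc.left_mem
  have hy := hc.right_mem
  have hct := hc.mem t ht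
  rcases eq_or_lt_of_le ht.1 with h0 | h0
  · rw [← h0, hc.zero, h₁.self _ hx.1, h₂.self _ hx.2]; simp
  rcases eq_or_lt_of_le ht.2 with h1 | h1
  · rw [h1, hc.one, h₁.self _ hy.1, h₂.self _ hy.2]; simp
  have hm := prodD_met hp.le h₁ h₂
  exact M_strict hp h0 h1 (h₁.nonneg hx.1 hct.1) (h₁.nonneg hct.1 hy.1) (h₂.nonneg hx.2 hct.2)
    (h₂.nonneg hct.2 hy.2) (h₁.nonneg hx.1 hy.1) (h₂.nonneg hx.2 hy.2) (hm.nonneg hx hy)
    (hc.dist_left ht) (hc.dist_right ht) rfl (h₁.tri _ hx.1 _ hct.1 _ hy.1)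
    (h₂.tri _ hx.2 _ hct.2 _ hy.2) |>.imp id (fun h => ⟨h.1, h.2.1, h.2.2⟩)

lemma geod_prod (hp : 1 < p) (h₁ : IsMetricOn D₁ A₁) (h₂ : IsMetricOn D₂ A₂)
    {c : ℝ → Y₁ × Y₂} {x y : Y₁ × Y₂} (hc : IsGeod (prodD p D₁ D₂) (A₁ ×ˢ A₂) c x y) :
    IsGeod D₁ A₁ (fun t => (c t).1) x.1 y.1 ∧ IsGeod D₂ A₂ (fun t => (c t).2) x.2 y.2 := by
  have hm := prodD_met hp.le h₁ h₂
  have key : ∀ s ∈ Icc (0 : ℝ) 1, ∀ t ∈ Icc (0 : ℝ) 1, s ≤ t →
      D₁ (c s).1 (c t).1 = |s - t| * D₁ x.1 y.1 ∧ D₂ (c s).2 (c t).2 = |s - t| * D₂ x.2 y.2 := by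
    intro s hs t ht hst
    rcases eq_or_lt_of_le ht.1 with h0 | h0
    · have hs0 : s = 0 := by linarith [hs.1]
      have hm1 := hc.mem 0 ⟨le_rfl, zero_le_one⟩
      rw [← h0, hs0, h₁.self _ hm1.1, h₂.self _ hm1.2]; simp
    have hpc := hc.piece (a := 0) ⟨le_rfl, zero_le_one⟩ ht ht.1
    rw [hc.zero] at hpc
    have hr : s / t ∈ Icc (0 : ℝ) 1 := ⟨div_nonneg hs.1 h0.le, by rwa [div_le_one h0]⟩
    have h3 := geod_prod_aux hp h₁ h₂ hpc hr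
    have h4 := geod_prod_aux hp h₁ h₂ hc ht
    have e : 0 + s / t * (t - 0) = s := by field_simp; ring
    simp only [e] at h3
    rw [abs_sub_comm, abs_of_nonneg (show (0 : ℝ) ≤ t - s by linarith)]
    constructor
    · rw [h3.2.2.1, h4.1]; field_simp
    · rw [h3.2.2.2, h4.2.1]; field_simp
  constructor
  · refine ⟨by rw [hc.zero], by rw [hc.one], fun t ht => (hc.mem t ht).1, fun s hs t ht => ?_⟩
    rcases le_total s t with h | h
    · exact (key s hs t ht h).1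
    · rw [h₁.symm _ (hc.mem s hs).1 _ (hc.mem t ht).1, abs_sub_comm]
      exact (key t ht s hs h).1
  · refine ⟨by rw [hc.zero], by rw [hc.one], fun t ht => (hc.mem t ht).2, fun s hs t ht => ?_⟩
    rcases le_total s t with h | h
    · exact (key s hs t ht h).2
    · rw [h₂.symm _ (hc.mem s hs).2 _ (hc.mem t ht).2, abs_sub_comm]
      exact (key t ht s hs h).2

lemma good_prod (hp : 1 < p) (h₁ : IsMetricOn D₁ A₁) (h₂ : IsMetricOn D₂ A₂) (g₁ : Good D₁ A₁)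
    (g₂ : Good D₂ A₂) : Good (prodD p D₁ D₂) (A₁ ×ˢ A₂) where
  exi x hx y hy := by
    obtain ⟨c₁, hc₁⟩ := g₁.exi _ hx.1 _ hy.1
    obtain ⟨c₂, hc₂⟩ := g₂.exi _ hx.2 _ hy.2
    refine ⟨fun t => (c₁ t, c₂ t), Prod.ext hc₁.zero hc₂.zero, Prod.ext hc₁.one hc₂.one,
      fun t ht => ⟨hc₁.mem t ht, hc₂.mem t ht⟩, fun s hs t ht => ?_⟩
    simp only [prodD]
    rw [hc₁.dist s hs t ht, hc₂.dist s hs t ht, M_smul hp.le (abs_nonneg _)
      (h₁.nonneg hx.1 hy.1) (h₂.nonneg hx.2 hy.2)]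
  bus x y z c c' hc hc' t ht := by
    obtain ⟨k1, k2⟩ := geod_prod hp h₁ h₂ hc
    obtain ⟨k1', k2'⟩ := geod_prod hp h₁ h₂ hc'
    have hm := hc.mem t ht
    have hm' := hc'.mem t ht
    have hy := hc.right_mem
    have hz := hc'.right_mem
    simp only [prodD]
    rw [← M_smul hp.le ht.1 (h₁.nonneg hy.1 hz.1) (h₂.nonneg hy.2 hz.2)]
    exact M_mono hp.le (h₁.nonneg hm.1 hm'.1) (h₂.nonneg hm.2 hm'.2)
      (g₁.bus _ _ _ _ _ k1 k1' t ht) (g₂.bus _ _ _ _ _ k2 k2' t ht)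

lemma M_two_sq {a b : ℝ} (ha : 0 ≤ a) (hb : 0 ≤ b) : M 2 a b ^ 2 = a ^ 2 + b ^ 2 := by
  have := M_pow (p := 2) (by norm_num) ha hb
  simpa using this

lemma cn_prod (h₁ : IsMetricOn D₁ A₁) (h₂ : IsMetricOn D₂ A₂) (g₁ : CN D₁ A₁)
    (g₂ : CN D₂ A₂) : CN (prodD 2 D₁ D₂) (A₁ ×ˢ A₂) := by
  intro x y c hc z hz t ht
  obtain ⟨k1, k2⟩ := geod_prod (by norm_num) h₁ h₂ hc
  have hm := hc.mem t ht
  have hx := hc.left_mem
  have hy := hc.right_mem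
  simp only [prodD]
  rw [M_two_sq (h₁.nonneg hz.1 hm.1) (h₂.nonneg hz.2 hm.2),
    M_two_sq (h₁.nonneg hz.1 hx.1) (h₂.nonneg hz.2 hx.2),
    M_two_sq (h₁.nonneg hz.1 hy.1) (h₂.nonneg hz.2 hy.2),
    M_two_sq (h₁.nonneg hx.1 hy.1) (h₂.nonneg hx.2 hy.2)]
  have e1 := g₁ _ _ _ k1 z.1 hz.1 t ht
  have e2 := g₂ _ _ _ k2 z.2 hz.2 t ht
  linarith

end Prod

/-! ### Isometric images -/

section Image

variable {Y Y' : Type*} {D : Y → Y → ℝ} {D' : Y' → Y' → ℝ} {A : Set Y} {e : Y → Y'}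

lemma met_image (hm : IsMetricOn D A) (he : ∀ x ∈ A, ∀ y ∈ A, D' (e x) (e y) = D x y) :
    IsMetricOn D' (e '' A) where
  self := by
    rintro _ ⟨x, hx, rfl⟩
    rw [he x hx x hx, hm.self x hx]
  symm := by
    rintro _ ⟨x, hx, rfl⟩ _ ⟨y, hy, rfl⟩
    rw [he x hx y hy, he y hy x hx, hm.symm x hx y hy]
  tri := by
    rintro _ ⟨x, hx, rfl⟩ _ ⟨y, hy, rfl⟩ _ ⟨z, hz, rfl⟩
    rw [he x hx y hy, he y hy z hz, he x hx z hz]
    exact hm.tri x hx y hy z hz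
  eq := by
    rintro _ ⟨x, hx, rfl⟩ _ ⟨y, hy, rfl⟩ h
    rw [he x hx y hy] at h
    rw [hm.eq x hx y hy h]

lemma geod_image {c : ℝ → Y} {x y : Y} (he : ∀ x ∈ A, ∀ y ∈ A, D' (e x) (e y) = D x y)
    (hc : IsGeod D A c x y) : IsGeod D' (e '' A) (fun t => e (c t)) (e x) (e y) :=
  ⟨by rw [hc.zero], by rw [hc.one], fun t ht => ⟨c t, hc.mem t ht, rfl⟩, fun s hs t ht => by
    rw [he _ (hc.mem s hs) _ (hc.mem t ht), hc.dist s hs t ht,
      he _ hc.left_mem _ hc.right_mem]⟩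

lemma geod_of_image (hm : IsMetricOn D A) {c' : ℝ → Y'} {x y : Y} (hx : x ∈ A) (hy : y ∈ A)
    (he : ∀ x ∈ A, ∀ y ∈ A, D' (e x) (e y) = D x y) (hc : IsGeod D' (e '' A) c' (e x) (e y)) :
    ∃ c, IsGeod D A c x y ∧ ∀ t ∈ Icc (0 : ℝ) 1, e (c t) = c' t := by
  have hinj : ∀ a ∈ A, ∀ b ∈ A, e a = e b → a = b := by
    intro a ha b hb hab
    apply hm.eq a ha b hb
    rw [← he a ha b hb, hab, he b hb b hb, hm.self b hb]
  choose f hf hf' using fun t (ht : t ∈ Icc (0 : ℝ) 1) => hc.mem t ht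
  classical
  let c : ℝ → Y := fun t => if ht : t ∈ Icc (0 : ℝ) 1 then f t ht else x
  have hcA : ∀ t ∈ Icc (0 : ℝ) 1, c t ∈ A := fun t ht => by simp only [c, ht, dif_pos]; exact hf t ht
  have hce : ∀ t ∈ Icc (0 : ℝ) 1, e (c t) = c' t := fun t ht => by
    simp only [c, ht, dif_pos]; exact hf' t ht
  have h0 : (0 : ℝ) ∈ Icc (0 : ℝ) 1 := ⟨le_rfl, zero_le_one⟩
  have h1 : (1 : ℝ) ∈ Icc (0 : ℝ) 1 := ⟨zero_le_one, le_rfl⟩
  refine ⟨c, ⟨hinj _ (hcA 0 h0) _ hx (by rw [hce 0 h0, hc.zero]),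
    hinj _ (hcA 1 h1) _ hy (by rw [hce 1 h1, hc.one]), hcA, fun s hs t ht => ?_⟩, hce⟩
  rw [← he _ (hcA s hs) _ (hcA t ht), hce s hs, hce t ht, hc.dist s hs t ht, he x hx y hy]

lemma good_image (hm : IsMetricOn D A) (he : ∀ x ∈ A, ∀ y ∈ A, D' (e x) (e y) = D x y)
    (g : Good D A) : Good D' (e '' A) where
  exi := by
    rintro _ ⟨x, hx, rfl⟩ _ ⟨y, hy, rfl⟩
    obtain ⟨c, hc⟩ := g.exi x hx y hy
    exact ⟨_, geod_image he hc⟩
  bus := by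
    intro x' y' z' c c' hc hc' t ht
    obtain ⟨x, hx, rfl⟩ := hc.left_mem
    obtain ⟨y, hy, rfl⟩ := hc.right_mem
    obtain ⟨z, hz, rfl⟩ := hc'.right_mem
    obtain ⟨d, hd, hd'⟩ := geod_of_image hm hx hy he hc
    obtain ⟨f, hf, hf'⟩ := geod_of_image hm hx hz he hc'
    rw [← hd' t ht, ← hf' t ht, he _ (hd.mem t ht) _ (hf.mem t ht), he y hy z hz]
    exact g.bus x y z d f hd hf t ht

lemma cn_image (hm : IsMetricOn D A) (he : ∀ x ∈ A, ∀ y ∈ A, D' (e x) (e y) = D x y)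
    (g : CN D A) : CN D' (e '' A) := by
  intro x' y' c hc z' hz' t ht
  obtain ⟨x, hx, rfl⟩ := hc.left_mem
  obtain ⟨y, hy, rfl⟩ := hc.right_mem
  obtain ⟨z, hz, rfl⟩ := hz'
  obtain ⟨d, hd, hd'⟩ := geod_of_image hm hx hy he hc
  rw [← hd' t ht, he z hz _ (hd.mem t ht), he z hz x hx, he z hz y hy, he x hx y hy]
  exact g x y d hd z hz t ht

end Image

/-! ### Increasing unions -/

section Union

variable {Y : Type*} {D : Y → Y → ℝ} {A : ℕ → Set Y}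

lemma geod_union {c : ℝ → Y} {x y : Y} {n : ℕ}
    (hcv : ∀ n, ∀ x ∈ A n, ∀ y ∈ A n, ∀ z ∈ ⋃ n, A n, D x z + D z y = D x y → z ∈ A n)
    (hc : IsGeod D (⋃ n, A n) c x y) (hx : x ∈ A n) (hy : y ∈ A n) : IsGeod D (A n) c x y :=
  hc.restr fun t ht => hcv n x hx y hy _ (hc.mem t ht) (by
    rw [hc.dist_left ht, hc.dist_right ht]; ring)

lemma good_union (hmono : Monotone A)
    (hcv : ∀ n, ∀ x ∈ A n, ∀ y ∈ A n, ∀ z ∈ ⋃ n, A n, D x z + D z y = D x y → z ∈ A n)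
    (g : ∀ n, Good D (A n)) : Good D (⋃ n, A n) where
  exi x hx y hy := by
    obtain ⟨i, hi⟩ := mem_iUnion.1 hx
    obtain ⟨j, hj⟩ := mem_iUnion.1 hy
    obtain ⟨c, hc⟩ := (g (max i j)).exi x (hmono (le_max_left i j) hi) y
      (hmono (le_max_right i j) hj)
    exact ⟨c, hc.mono (subset_iUnion A _)⟩
  bus x y z c c' hc hc' t ht := by
    obtain ⟨i, hi⟩ := mem_iUnion.1 hc.left_mem
    obtain ⟨j, hj⟩ := mem_iUnion.1 hc.right_mem
    obtain ⟨k, hk⟩ := mem_iUnion.1 hc'.right_mem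
    have h1 : i ≤ max (max i j) k := (le_max_left i j).trans (le_max_left _ _)
    have h2 : j ≤ max (max i j) k := (le_max_right i j).trans (le_max_left _ _)
    have h3 : k ≤ max (max i j) k := le_max_right _ _
    exact (g (max (max i j) k)).bus x y z c c' (geod_union hcv hc (hmono h1 hi) (hmono h2 hj))
      (geod_union hcv hc' (hmono h1 hi) (hmono h3 hk)) t ht

lemma cn_union (hmono : Monotone A)
    (hcv : ∀ n, ∀ x ∈ A n, ∀ y ∈ A n, ∀ z ∈ ⋃ n, A n, D x z + D z y = D x y → z ∈ A n)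
    (g : ∀ n, CN D (A n)) : CN D (⋃ n, A n) := by
  intro x y c hc z hz t ht
  obtain ⟨i, hi⟩ := mem_iUnion.1 hc.left_mem
  obtain ⟨j, hj⟩ := mem_iUnion.1 hc.right_mem
  obtain ⟨k, hk⟩ := mem_iUnion.1 hz
  have h1 : i ≤ max (max i j) k := (le_max_left i j).trans (le_max_left _ _)
  have h2 : j ≤ max (max i j) k := (le_max_right i j).trans (le_max_left _ _)
  have h3 : k ≤ max (max i j) k := le_max_right _ _
  exact g (max (max i j) k) x y c (geod_union hcv hc (hmono h1 hi) (hmono h2 hj)) z (hmono h3 hk)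
    t ht

end Union

end Pool.Agent.W539.Cube
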