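import Pool.Agent.W539.Cube.Space
import Pool.Agent.W539.Cube.Bicomb

/-!
# Rays with oscillating direction
-/

namespace Pool.Agent.W539.Cube

open Set Filter Topology Pool.Agent.W539.CubeDefs
open scoped NNReal Nat

/-- The indices in the blocks `[(2k)!, (2k+1)!)`. -/
def Aset (j : ℕ) : Prop := ∃ k, (2 * k)! ≤ j ∧ j < (2 * k + 1)!

open Classical in
/-- The directions of the path: long stretches of diagonals and long stretches of sides. -/
noncomputable def dirs (j : ℕ) : Dir := if Aset j then .diag else .hor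

/-- The blocks met by the path which starts in the block `b`. -/
noncomputable def B (b : Blk) : ℕ → Blk
  | 0 => b
  | n + 1 => child (dirs n) (B b n)

/-- The points of the path. -/
noncomputable def κ (b : Blk) (u : ℝ × ℝ) : ℕ → YK
  | 0 => pt b u
  | n + 1 => P (B b (n + 1))

lemma B_length (b : Blk) (n : ℕ) : (B b n).2.length = b.2.length + n := by
  induction n with
  | zero => rfl
  | succ n ih => simp only [B, child, List.length_cons, ih]; omega

variable {b : Blk} {u : ℝ × ℝ} {p : ℝ}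

lemma κ_mem (hu : u ∈ sq) (n : ℕ) : κ b u n ∈ K := by
  cases n with
  | zero => exact blk_subset_K b ⟨u, hu, rfl⟩
  | succ n => exact blk_subset_K _ (P_mem_blk _)

lemma κ_apply {i j : ℕ} (hij : i ≤ j) (hj : 0 < j) : κ b u i (B b j) = 0 := by
  cases i with
  | zero =>
    have h1 := B_length b j
    rw [κ, pt_ne (fun h => by rw [h] at h1; omega), P_length (by rw [h1]; omega)]
  | succ i =>
    rw [κ, P_length]
    rw [B_length, B_length]; omega

lemma DK_step (hp : 1 ≤ p) {i j : ℕ} (hij : i ≤ j) :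
    DK p (κ b u i) (κ b u (j + 1)) = DK p (κ b u i) (κ b u j) + DK p (κ b u j) (κ b u (j + 1)) := by
  apply DK_add hp
  intro c
  cases j with
  | zero =>
    left
    have : i = 0 := by omega
    rw [this]
  | succ j =>
    by_cases hc : c = B b (j + 1)
    · left
      rw [hc, κ_apply hij (by omega), κ_apply le_rfl (by omega)]
    · right
      change P (child (dirs (j + 1)) (B b (j + 1))) c = P (B b (j + 1)) c
      exact P_child_ne hc

lemma DK_chain (hp : 1 ≤ p) {i j k : ℕ} (hij : i ≤ j) (hjk : j ≤ k) :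
    DK p (κ b u i) (κ b u k) = DK p (κ b u i) (κ b u j) + DK p (κ b u j) (κ b u k) := by
  induction k, hjk using Nat.le_induction with
  | base => rw [(DK_met hp univ).self _ (mem_univ (κ b u j)), add_zero]
  | succ k hk ih =>
    rw [DK_step hp (hij.trans hk), DK_step hp hk, ih]; ring

/-- The distance from the origin of the path to its `n`-th point. -/
noncomputable def T (b : Blk) (u : ℝ × ℝ) (p : ℝ) (n : ℕ) : ℝ := DK p (κ b u 0) (κ b u n)

lemma T_zero (hp : 1 ≤ p) : T b u p 0 = 0 := (DK_met hp univ).self _ (mem_univ _)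

lemma DK_κ (hp : 1 ≤ p) {i j : ℕ} (hij : i ≤ j) :
    DK p (κ b u i) (κ b u j) = T b u p j - T b u p i := by
  have := DK_chain (b := b) (u := u) hp (Nat.zero_le i) hij
  rw [T, T, this]; ring

lemma T_succ (hp : 1 ≤ p) {n : ℕ} (hn : 0 < n) :
    T b u p (n + 1) = T b u p n + N p (dirs n).vec := by
  have h1 := DK_κ (b := b) (u := u) hp (Nat.le_succ n)
  obtain ⟨n, rfl⟩ : ∃ m, n = m + 1 := ⟨n - 1, by omega⟩
  have h2 : DK p (κ b u (n + 1)) (κ b u (n + 1 + 1)) = N p (dirs (n + 1)).vec := by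
    change DK p (P (B b (n + 1))) (P (child (dirs (n + 1)) (B b (n + 1)))) = _
    rw [P_eq_pt (B b (n + 1)), P_child_eq_pt, DK_pt hp, zero_sub, N_neg]
  rw [Nat.succ_eq_add_one] at h1
  linarith

/-- The length of the diagonal of the unit square. -/
noncomputable def kap (p : ℝ) : ℝ := M p 1 1

lemma kap_eq (p : ℝ) : kap p = 2 ^ (1 / p) := by
  rw [kap, M, Real.one_rpow]; norm_num

lemma one_le_kap (hp : 1 ≤ p) : 1 ≤ kap p := le_M_left hp zero_le_one zero_le_one

lemma N_dirs (hp : 1 ≤ p) (n : ℕ) [Decidable (Aset n)] :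
    N p (dirs n).vec = 1 + (kap p - 1) * (if Aset n then 1 else 0) := by
  by_cases h : Aset n
  · simp [dirs, h, N, Dir.vec, kap]
  · simp [dirs, h, N, Dir.vec, M_zero_right hp zero_le_one]

open Classical in
/-- The number of diagonals among the first `n` steps. -/
noncomputable def cnt (n : ℕ) : ℕ := ((Finset.range n).filter Aset).card

lemma cnt_succ (n : ℕ) [Decidable (Aset n)] : (cnt (n + 1) : ℝ) = cnt n + (if Aset n then 1 else 0) := by
  classical
  rw [cnt, Finset.range_add_one, Finset.filter_insert]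
  by_cases h : Aset n
  · simp only [h, if_true]
    rw [Finset.card_insert_of_notMem (by simp)]
    push_cast
    rfl
  · simp only [h, if_false, add_zero]
    rfl

lemma T_formula (hp : 1 ≤ p) : ∃ C, ∀ n, 0 < n → T b u p n = n + (kap p - 1) * cnt n + C := by
  classical
  refine ⟨T b u p 1 - (1 + (kap p - 1) * cnt 1), fun n hn => ?_⟩
  induction n, hn using Nat.le_induction with
  | base => push_cast; ring
  | succ n hn ih =>
    rw [T_succ hp (by omega), ih, N_dirs hp, cnt_succ n]
    push_cast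
    ring

lemma cnt_le (n : ℕ) : cnt n ≤ n := by
  classical
  calc cnt n ≤ (Finset.range n).card := Finset.card_filter_le _ _
    _ = n := Finset.card_range n

lemma cnt_odd (k : ℕ) : (2 * k + 1)! - (2 * k)! ≤ cnt (2 * k + 1)! := by
  classical
  rw [← Nat.card_Ico]
  apply Finset.card_le_card
  intro j hj
  rw [Finset.mem_Ico] at hj
  rw [Finset.mem_filter, Finset.mem_range]
  exact ⟨hj.2, k, hj⟩

lemma cnt_even (k : ℕ) (hk : 0 < k) : cnt (2 * k)! ≤ (2 * k - 1)! := by
  classical
  calc cnt (2 * k)! ≤ (Finset.range (2 * k - 1)!).card := by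
        apply Finset.card_le_card
        intro j hj
        rw [Finset.mem_filter, Finset.mem_range] at hj
        obtain ⟨hj, k', h1, h2⟩ := hj
        rw [Finset.mem_range]
        have h3 : k' < k := by
          by_contra hcon
          have : (2 * k)! ≤ (2 * k')! := Nat.factorial_le (by omega)
          omega
        exact h2.trans_le (Nat.factorial_le (by omega))
    _ = _ := Finset.card_range _

lemma tendsto_fact_odd : Tendsto (fun k : ℕ => (((2 * k + 1)! : ℕ) : ℝ)) atTop atTop := by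
  apply tendsto_natCast_atTop_atTop.comp
  apply tendsto_atTop_mono (fun k => ?_) tendsto_id
  exact le_trans (by simp only [id]; omega) (Nat.self_le_factorial _)

lemma tendsto_fact_even : Tendsto (fun k : ℕ => (((2 * k)! : ℕ) : ℝ)) atTop atTop := by
  apply tendsto_natCast_atTop_atTop.comp
  apply tendsto_atTop_mono (fun k => ?_) tendsto_id
  exact le_trans (by simp only [id]; omega) (Nat.self_le_factorial _)

lemma tendsto_cnt_odd :
    Tendsto (fun k : ℕ => (cnt (2 * k + 1)! : ℝ) / ((2 * k + 1)! : ℕ)) atTop (𝓝 1) := by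
  have h1 : Tendsto (fun k : ℕ => 1 - 1 / ((k : ℝ) + 1)) atTop (𝓝 1) := by
    have := tendsto_one_div_add_atTop_nhds_zero_nat (𝕜 := ℝ)
    simpa using tendsto_const_nhds.sub this
  refine tendsto_of_tendsto_of_tendsto_of_le_of_le h1 tendsto_const_nhds (fun k => ?_)
    (fun k => ?_)
  · have hpos : (0 : ℝ) < ((2 * k + 1)! : ℕ) := by exact_mod_cast Nat.factorial_pos _
    have h2 := cnt_odd k
    have h3 : (((2 * k + 1)! : ℕ) : ℝ) - ((2 * k)! : ℕ) ≤ cnt (2 * k + 1)! := by
      rw [tsub_le_iff_right] at h2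
      have : (((2 * k + 1)! : ℕ) : ℝ) ≤ cnt (2 * k + 1)! + ((2 * k)! : ℕ) := by exact_mod_cast h2
      linarith
    have h4 : (((2 * k + 1)! : ℕ) : ℝ) = (2 * k + 1) * ((2 * k)! : ℕ) := by
      rw [Nat.factorial_succ]; push_cast; ring
    have hpos' : (0 : ℝ) < ((2 * k)! : ℕ) := by exact_mod_cast Nat.factorial_pos _
    simp only
    rw [le_div_iff₀ hpos]
    have h5 : (((2 * k)! : ℕ) : ℝ) ≤ 1 / ((k : ℝ) + 1) * ((2 * k + 1)! : ℕ) := by
      rw [h4, one_div, inv_mul_eq_div, le_div_iff₀ (by positivity)]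
      have : (0 : ℝ) ≤ k := Nat.cast_nonneg k
      nlinarith
    linarith
  · have hpos : (0 : ℝ) < ((2 * k + 1)! : ℕ) := by exact_mod_cast Nat.factorial_pos _
    simp only
    rw [div_le_one hpos]
    exact_mod_cast cnt_le _

lemma tendsto_cnt_even :
    Tendsto (fun k : ℕ => (cnt (2 * k)! : ℝ) / ((2 * k)! : ℕ)) atTop (𝓝 0) := by
  have h1 : Tendsto (fun k : ℕ => 1 / (k : ℝ)) atTop (𝓝 0) := tendsto_one_div_atTop_nhds_zero_nat
  refine tendsto_of_tendsto_of_tendsto_of_le_of_le' tendsto_const_nhds h1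
    (Eventually.of_forall fun k => by positivity) ?_
  filter_upwards [eventually_gt_atTop 0] with k hk
  have hpos : (0 : ℝ) < ((2 * k)! : ℕ) := by exact_mod_cast Nat.factorial_pos _
  have hk' : (0 : ℝ) < k := by exact_mod_cast hk
  have h2 : (cnt (2 * k)! : ℝ) ≤ ((2 * k - 1)! : ℕ) := by exact_mod_cast cnt_even k hk
  have h3 : (((2 * k)! : ℕ) : ℝ) = 2 * k * ((2 * k - 1)! : ℕ) := by
    obtain ⟨m, hm⟩ : ∃ m, 2 * k = m + 1 := ⟨2 * k - 1, by omega⟩
    have : ((2 * k : ℕ) : ℝ) = 2 * k := by push_cast; ring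
    rw [← this, hm, Nat.factorial_succ]
    push_cast
    simp
  rw [div_le_iff₀ hpos, h3]
  have hpos' : (0 : ℝ) < ((2 * k - 1)! : ℕ) := by exact_mod_cast Nat.factorial_pos _
  calc (cnt (2 * k)! : ℝ) ≤ ((2 * k - 1)! : ℕ) := h2
    _ ≤ 1 / (k : ℝ) * (2 * k * ((2 * k - 1)! : ℕ)) := by
      field_simp
      linarith

/-- The behaviour of the distances along the two subsequences. -/
lemma tendsto_T (hp : 1 ≤ p) {f : ℕ → ℕ} {δ : ℝ} (hf : ∀ k, 0 < f k)
    (hf' : Tendsto (fun k => (f k : ℝ)) atTop atTop)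
    (hδ : Tendsto (fun k => (cnt (f k) : ℝ) / (f k : ℝ)) atTop (𝓝 δ)) :
    Tendsto (fun k => T b u p (f k) / (f k : ℝ)) atTop (𝓝 (1 + (kap p - 1) * δ)) := by
  obtain ⟨C, hC⟩ := T_formula (b := b) (u := u) hp
  have h1 : ∀ k, T b u p (f k) / (f k : ℝ) =
      1 + (kap p - 1) * ((cnt (f k) : ℝ) / (f k : ℝ)) + C / (f k : ℝ) := by
    intro k
    have : (0 : ℝ) < f k := by exact_mod_cast hf k
    rw [hC _ (hf k)]
    field_simp
  simp only [h1]
  have h2 : Tendsto (fun k => C / (f k : ℝ)) atTop (𝓝 0) := hf'.const_div_atTop C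
  simpa using (tendsto_const_nhds.add (hδ.const_mul (kap p - 1))).add h2

lemma tendsto_M {r : ℝ} (hr : 1 ≤ r) {f g : ℕ → ℝ} {a c : ℝ} (hf : Tendsto f atTop (𝓝 a))
    (hg : Tendsto g atTop (𝓝 c)) : Tendsto (fun n => M r (f n) (g n)) atTop (𝓝 (M r a c)) := by
  have h0 : 0 ≤ r := by linarith
  exact ((hf.rpow_const (Or.inr h0)).add (hg.rpow_const (Or.inr h0))).rpow_const
    (Or.inr (by positivity))

/-- The slopes of the points of the path in the `ℓ^r` metric do not converge if `p ≠ r`. -/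
lemma no_limit {r : ℝ} (hp : 1 < p) (hr : 1 < r) {l : ℝ}
    (h : Tendsto (fun n => T b u p n / M r (T b u r n) (T b u p n)) atTop (𝓝 l)) : p = r := by
  have key : ∀ (f : ℕ → ℕ) (δ : ℝ), (∀ k, 0 < f k) →
      Tendsto (fun k => (f k : ℝ)) atTop atTop → 0 ≤ δ →
      Tendsto (fun k => (cnt (f k) : ℝ) / (f k : ℝ)) atTop (𝓝 δ) →
      l = (1 + (kap p - 1) * δ) / M r (1 + (kap r - 1) * δ) (1 + (kap p - 1) * δ) := by
    intro f δ hf hf' hδ0 hδ
    have h1 := tendsto_T (b := b) (u := u) hp.le hf hf' hδ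
    have h2 := tendsto_T (b := b) (u := u) hr.le hf hf' hδ
    have k1 := one_le_kap hp.le
    have k2 := one_le_kap hr.le
    have a1 : (0 : ℝ) < 1 + (kap p - 1) * δ := by
      have : 0 ≤ (kap p - 1) * δ := mul_nonneg (by linarith) hδ0
      linarith
    have a2 : (0 : ℝ) ≤ 1 + (kap r - 1) * δ := by
      have : 0 ≤ (kap r - 1) * δ := mul_nonneg (by linarith) hδ0
      linarith
    have h3 := tendsto_M hr.le h2 h1
    have hM : M r (1 + (kap r - 1) * δ) (1 + (kap p - 1) * δ) ≠ 0 :=
      (lt_of_lt_of_le a1 (le_M_right hr.le a2 a1.le)).ne'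
    have h4 := h1.div h3 hM
    have hf'' : Tendsto f atTop atTop := tendsto_natCast_atTop_iff.1 hf'
    have h5 := h.comp hf''
    refine tendsto_nhds_unique h5 (h4.congr fun k => ?_)
    have hk : (0 : ℝ) < f k := by exact_mod_cast hf k
    have t1 : 0 ≤ T b u p (f k) := (DK_met hp.le univ).nonneg (mem_univ _) (mem_univ _)
    have t2 : 0 ≤ T b u r (f k) := (DK_met hr.le univ).nonneg (mem_univ _) (mem_univ _)
    have e1 : M r (T b u r (f k) / f k) (T b u p (f k) / f k) =
        (1 / (f k : ℝ)) * M r (T b u r (f k)) (T b u p (f k)) := by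
      rw [← M_smul hr.le (by positivity) t2 t1]
      congr 1 <;> ring
    simp only [Pi.div_apply, Function.comp_apply]
    rw [e1]
    field_simp
  have e1 := key (fun k => (2 * k + 1)!) 1 (fun k => Nat.factorial_pos _) tendsto_fact_odd
    zero_le_one tendsto_cnt_odd
  have e2 := key (fun k => (2 * k)!) 0 (fun k => Nat.factorial_pos _) tendsto_fact_even
    le_rfl tendsto_cnt_even
  simp only [mul_one, mul_zero, add_zero, add_sub_cancel] at e1 e2
  rw [e1] at e2
  have k1 := one_le_kap hp.le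
  have k2 := one_le_kap hr.le
  have hM : 0 < M r (kap r) (kap p) :=
    lt_of_lt_of_le (by linarith) (le_M_right hr.le (by linarith) (by linarith))
  have hk : M r 1 1 = kap r := rfl
  rw [hk, div_eq_div_iff hM.ne' (by linarith), one_mul] at e2
  have e3 := congrArg (fun x => x ^ r) e2
  beta_reduce at e3
  rw [M_pow hr.le (by linarith) (by linarith), Real.mul_rpow (by linarith) (by linarith)] at e3
  have e4 : kap r ^ r = 2 := by
    rw [kap, M_pow hr.le zero_le_one zero_le_one, Real.one_rpow]; norm_num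
  rw [e4] at e3
  have e5 : kap p ^ r = 2 := by linarith
  have e6 : kap p = kap r := by
    have := congrArg (fun x => x ^ (1 / r)) (e5.trans e4.symm)
    beta_reduce at this
    rwa [← Real.rpow_mul (by linarith), ← Real.rpow_mul (by linarith),
      mul_one_div_cancel (by linarith), Real.rpow_one, Real.rpow_one] at this
  rw [kap_eq, kap_eq] at e6
  have e7 : 1 / p = 1 / r := by
    have h2 : StrictMono fun x : ℝ => (2 : ℝ) ^ x := Real.strictMono_rpow_of_base_gt_one (by norm_num)
    exact h2.injective e6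
  rw [one_div, one_div] at e7
  exact inv_injective e7

end Pool.Agent.W539.Cube
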