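import Pool.Agent.W539.Cube.Tree
import Pool.Agent.W539.Cube.Defs

/-!
# The product of the tree of squares with the line
-/

namespace Pool.Agent.W539.Cube

open Set Pool.Agent.W539.CubeDefs

/-- The coordinates: two for each block, and one for the line. -/
abbrev Idx : Type := Option (Blk × Bool)

/-- The embedding of the product into the space of functions on the coordinates. -/
def emb (x : YK × ℝ) : Idx → ℝ
  | none => x.2
  | some (b, false) => (x.1 b).1
  | some (b, true) => (x.1 b).2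

lemma emb_inj {x y : YK × ℝ} (h : emb x = emb y) : x = y := by
  apply Prod.ext
  · ext1 b
    exact Prod.ext (congrFun h (some (b, false))) (congrFun h (some (b, true)))
  · exact congrFun h none

lemma Dir.vec_int (v : Dir) : ∃ a b : ℤ, v.vec = ((a : ℝ), (b : ℝ)) := by
  cases v
  · exact ⟨1, 0, by simp [Dir.vec]⟩
  · exact ⟨0, 1, by simp [Dir.vec]⟩
  · exact ⟨1, 1, by simp [Dir.vec]⟩

lemma pos_int (s : Bool) (l : List Dir) (c : Blk) : ∃ a b : ℤ, pos s l c = ((a : ℝ), (b : ℝ)) := by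
  induction l with
  | nil => exact ⟨0, 0, by simp [pos]; rfl⟩
  | cons v l ih =>
    obtain ⟨a, b, h⟩ := ih
    rw [pos, Finsupp.add_apply, h]
    by_cases hc : c = (s, l)
    · subst hc
      obtain ⟨a', b', h'⟩ := v.vec_int
      rw [Finsupp.single_eq_same, h']
      exact ⟨a + a', b + b', by simp⟩
    · rw [Finsupp.single_eq_of_ne hc, add_zero]
      exact ⟨a, b, rfl⟩

lemma P_int (b c : Blk) : ((⌊(P b c).1⌋ : ℤ) : ℝ) = (P b c).1 ∧
    ((⌊(P b c).2⌋ : ℤ) : ℝ) = (P b c).2 := by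
  obtain ⟨x, y, h⟩ := pos_int b.1 b.2 c
  rw [P, h]; simp

/-- The cube given by the block `b` and the interval `[m, m + 1]` of the line. -/
noncomputable def cubeAt (b : Blk) (m : ℤ) : CubeDefs.Cube Idx where
  n
    | none => m
    | some (c, false) => ⌊(P b c).1⌋
    | some (c, true) => ⌊(P b c).2⌋
  dirs := {none, some (b, false), some (b, true)}

/-- The cube complex: the product of the tree of squares and the line. -/
def XC : Set (CubeDefs.Cube Idx) := {Q | ∃ b m, Q = cubeAt b m}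

lemma mem_cubeAt {b : Blk} {m : ℤ} {x : Idx → ℝ} : x ∈ (cubeAt b m).pts ↔
    ∃ u ∈ sq, ∃ s : ℝ, (m : ℝ) ≤ s ∧ s ≤ m + 1 ∧ x = emb (pt b u, s) := by
  constructor
  · rintro ⟨h1, h2⟩
    have k0 := h1 none (by simp [cubeAt])
    have k1 := h1 (some (b, false)) (by simp [cubeAt])
    have k2 := h1 (some (b, true)) (by simp [cubeAt])
    have hb : P b b = 0 := P_desc (Desc.refl b)
    simp only [cubeAt, hb] at k0 k1 k2
    simp only [Prod.fst_zero, Prod.snd_zero, Int.floor_zero, Int.cast_zero, zero_add] at k1 k2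
    refine ⟨(x (some (b, false)), x (some (b, true))), ⟨k1, k2⟩, x none, k0.1, k0.2, ?_⟩
    funext i
    rcases i with _ | ⟨c, j⟩
    · rfl
    · by_cases hc : c = b
      · subst hc
        cases j <;> simp [emb, pt_self]
      · have := h2 (some (c, j)) (by simp [cubeAt, hc])
        rw [this]
        cases j
        · simp only [cubeAt, emb, pt_ne hc]; exact (P_int b c).1
        · simp only [cubeAt, emb, pt_ne hc]; exact (P_int b c).2
  · rintro ⟨u, hu, s, h1, h2, rfl⟩
    have hb : P b b = 0 := P_desc (Desc.refl b)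
    constructor
    · intro i hi
      simp only [cubeAt, Finset.mem_insert, Finset.mem_singleton] at hi
      rcases hi with rfl | rfl | rfl
      · exact ⟨h1, h2⟩
      · simp only [cubeAt, hb, emb, pt_self]
        simpa using hu.1
      · simp only [cubeAt, hb, emb, pt_self]
        simpa using hu.2
    · intro i hi
      rcases i with _ | ⟨c, j⟩
      · exact absurd (by simp [cubeAt]) hi
      · have hc : c ≠ b := by
          rintro rfl
          apply hi
          cases j <;> simp [cubeAt]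
        cases j
        · simp only [cubeAt, emb, pt_ne hc]; exact (P_int b c).1.symm
        · simp only [cubeAt, emb, pt_ne hc]; exact (P_int b c).2.symm

/-- The distance of the product. -/
noncomputable def DX (p : ℝ) : YK × ℝ → YK × ℝ → ℝ := prodD p (DK p) dR

/-- The set of the points of the product. -/
def KX : Set (YK × ℝ) := K ×ˢ univ

lemma DX_met {p : ℝ} (hp : 1 ≤ p) : IsMetricOn (DX p) KX := prodD_met hp (DK_met hp _) (dR_met _)

lemma DX_met' {p : ℝ} (hp : 1 ≤ p) : IsMetricOn (DX p) univ := by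
  have := prodD_met hp (DK_met hp univ) (dR_met univ)
  rwa [univ_prod_univ] at this

lemma good_X {p : ℝ} (hp : 1 < p) : Good (DX p) KX :=
  good_prod hp (DK_met hp.le _) (dR_met _) (good_K hp) (good_real ordConnected_univ)

lemma cn_X : CN (DX 2) KX :=
  cn_prod (DK_met (by norm_num) _) (dR_met _) cn_K (cn_real _)

lemma dist_cubeAt {p : ℝ} (hp : 1 ≤ p) (b : Blk) (m : ℤ) (u u' : ℝ × ℝ) (s s' : ℝ) :
    (cubeAt b m).dist p (emb (pt b u, s)) (emb (pt b u', s')) = DX p (pt b u, s) (pt b u', s') := by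
  rw [CubeDefs.Cube.dist, DX, prodD, M]
  simp only
  rw [DK_pt hp, N, M_pow hp (abs_nonneg _) (abs_nonneg _)]
  congr 1
  rw [show (cubeAt b m).dirs = {none, some (b, false), some (b, true)} from rfl,
    Finset.sum_insert (by simp), Finset.sum_insert (by simp), Finset.sum_singleton]
  simp only [emb, pt_self, dR, Prod.fst_sub, Prod.snd_sub]
  ring

lemma exists_coord (x : Pt XC) : ∃ y ∈ KX, emb y = x.1 := by
  obtain ⟨Q, ⟨b, m, rfl⟩, hQ⟩ := x.2
  obtain ⟨u, hu, s, _, _, h⟩ := mem_cubeAt.1 hQ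
  exact ⟨(pt b u, s), ⟨blk_subset_K b ⟨u, hu, rfl⟩, mem_univ _⟩, h.symm⟩

/-- The coordinates of a point of the complex. -/
noncomputable def coord (x : Pt XC) : YK × ℝ := (exists_coord x).choose

lemma coord_mem (x : Pt XC) : coord x ∈ KX := (exists_coord x).choose_spec.1

@[simp] lemma emb_coord (x : Pt XC) : emb (coord x) = x.1 := (exists_coord x).choose_spec.2

lemma coord_inj {x y : Pt XC} (h : coord x = coord y) : x = y :=
  Subtype.ext (by rw [← emb_coord, ← emb_coord, h])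

lemma emb_mem {y : YK × ℝ} (hy : y ∈ KX) : ∃ Q ∈ XC, emb y ∈ Q.pts := by
  have h1 : y.1 ∈ K := hy.1
  rw [K_eq] at h1
  obtain ⟨b, u, hu, h⟩ := mem_iUnion.1 h1
  refine ⟨cubeAt b ⌊y.2⌋, ⟨b, _, rfl⟩, mem_cubeAt.2 ⟨u, hu, y.2, Int.floor_le _,
    (Int.lt_floor_add_one _).le, ?_⟩⟩
  rw [h]

/-- The point with given coordinates. -/
noncomputable def mkX (y : YK × ℝ) (hy : y ∈ KX) : Pt XC := ⟨emb y, emb_mem hy⟩

@[simp] lemma coord_mkX (y : YK × ℝ) (hy : y ∈ KX) : coord (mkX y hy) = y :=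
  emb_inj (emb_coord _)

@[simp] lemma mkX_coord (x : Pt XC) : mkX (coord x) (coord_mem x) = x :=
  Subtype.ext (emb_coord x)

lemma coord_of_mem {b : Blk} {m : ℤ} {x : Pt XC} (h : x.1 ∈ (cubeAt b m).pts) :
    ∃ u ∈ sq, ∃ s : ℝ, (m : ℝ) ≤ s ∧ s ≤ m + 1 ∧ coord x = (pt b u, s) := by
  obtain ⟨u, hu, s, h1, h2, h⟩ := mem_cubeAt.1 h
  exact ⟨u, hu, s, h1, h2, emb_inj (by rw [emb_coord, h])⟩

lemma mem_cube_of_coord {b : Blk} {m : ℤ} {x : Pt XC} {u : ℝ × ℝ} (hu : u ∈ sq) {s : ℝ}
    (h1 : (m : ℝ) ≤ s) (h2 : s ≤ m + 1) (h : coord x = (pt b u, s)) :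
    x.1 ∈ (cubeAt b m).pts := mem_cubeAt.2 ⟨u, hu, s, h1, h2, by rw [← emb_coord, h]⟩

section Strings

variable {p : ℝ}

lemma str_le (hp : 1 ≤ p) {x y : Pt XC} {L : ℝ} (h : Str XC p x y L) :
    DX p (coord x) (coord y) ≤ L := by
  induction h with
  | refl x => rw [(DX_met hp).self _ (coord_mem x)]
  | step x y z L Q hQ hx hy _ ih =>
    obtain ⟨b, m, rfl⟩ := hQ
    obtain ⟨u, _, s, _, _, e1⟩ := coord_of_mem hx
    obtain ⟨u', _, s', _, _, e2⟩ := coord_of_mem hy
    have := (DX_met hp).tri _ (coord_mem x) _ (coord_mem y) _ (coord_mem z)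
    rw [← emb_coord x, ← emb_coord y, e1, e2, dist_cubeAt hp, ← e1, ← e2]
    linarith

lemma Str.trans {C : Set (CubeDefs.Cube Idx)} {x y z : Pt C} {L L' : ℝ} (h : Str C p x y L)
    (h' : Str C p y z L') : Str C p x z (L + L') := by
  induction h with
  | refl x => simpa using h'
  | step x y w L Q hQ hx hy _ ih =>
    rw [add_assoc]
    exact Str.step x y z _ Q hQ hx hy (ih h')

lemma Str.symm {C : Set (CubeDefs.Cube Idx)} {x y : Pt C} {L : ℝ} (h : Str C p x y L) :
    Str C p y x L := by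
  induction h with
  | refl x => exact Str.refl x
  | step x y w L Q hQ hx hy _ ih =>
    have h1 : Str C p y x (Q.dist p y.1 x.1 + 0) := Str.step y x x 0 Q hQ hy hx (Str.refl x)
    have h2 : Q.dist p y.1 x.1 = Q.dist p x.1 y.1 := by
      simp only [CubeDefs.Cube.dist, abs_sub_comm]
    rw [h2, add_zero] at h1
    rw [add_comm]
    exact Str.trans ih h1

/-- Any two points over the set `A` are joined by a string of the expected length. -/
def Joined (p : ℝ) (A : Set YK) : Prop :=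
  ∀ x y : Pt XC, (coord x).1 ∈ A → (coord y).1 ∈ A →
    Str XC p x y (DX p (coord x) (coord y))

lemma str_same (hp : 1 ≤ p) {b : Blk} {m : ℤ} {x y : Pt XC} (hx : x.1 ∈ (cubeAt b m).pts)
    (hy : y.1 ∈ (cubeAt b m).pts) : Str XC p x y (DX p (coord x) (coord y)) := by
  obtain ⟨u, _, s, _, _, e1⟩ := coord_of_mem hx
  obtain ⟨u', _, s', _, _, e2⟩ := coord_of_mem hy
  have h := Str.step (C := XC) (p := p) x y y 0 (cubeAt b m) ⟨b, m, rfl⟩ hx hy (Str.refl y)
  rw [add_zero, ← emb_coord x, ← emb_coord y, e1, e2, dist_cubeAt hp, ← e1, ← e2] at h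
  exact h

lemma sq_convex {u v : ℝ × ℝ} (hu : u ∈ sq) (hv : v ∈ sq) {t : ℝ} (ht : t ∈ Icc (0 : ℝ) 1) :
    ((1 - t) * u.1 + t * v.1, (1 - t) * u.2 + t * v.2) ∈ sq := by
  have h0 := ht.1
  have h1 : 0 ≤ 1 - t := by linarith [ht.2]
  obtain ⟨⟨a1, a2⟩, a3, a4⟩ := hu
  obtain ⟨⟨b1, b2⟩, b3, b4⟩ := hv
  refine ⟨⟨by positivity, ?_⟩, by positivity, ?_⟩ <;> simp only <;> nlinarith

lemma DX_seg (hp : 1 ≤ p) (b : Blk) (u v : ℝ × ℝ) (s s' : ℝ) {t : ℝ} (ht : t ∈ Icc (0 : ℝ) 1) :
    DX p (pt b u, s) (pt b ((1 - t) * u.1 + t * v.1, (1 - t) * u.2 + t * v.2),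
      (1 - t) * s + t * s') = t * DX p (pt b u, s) (pt b v, s') ∧
    DX p (pt b ((1 - t) * u.1 + t * v.1, (1 - t) * u.2 + t * v.2), (1 - t) * s + t * s')
      (pt b v, s') = (1 - t) * DX p (pt b u, s) (pt b v, s') := by
  have h0 := ht.1
  have h1 : 0 ≤ 1 - t := by linarith [ht.2]
  simp only [DX, prodD, DK_pt hp, N, dR, Prod.fst_sub, Prod.snd_sub]
  have e : ∀ a b : ℝ, a - ((1 - t) * a + t * b) = t * (a - b) := fun a b => by ring
  have e' : ∀ a b : ℝ, (1 - t) * a + t * b - b = (1 - t) * (a - b) := fun a b => by ring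
  constructor
  · rw [e, e, e, abs_mul, abs_mul, abs_mul, abs_of_nonneg h0,
      M_smul hp h0 (abs_nonneg _) (abs_nonneg _),
      M_smul hp h0 (M_nonneg (abs_nonneg _) (abs_nonneg _)) (abs_nonneg _)]
  · rw [e', e', e', abs_mul, abs_mul, abs_mul, abs_of_nonneg h1,
      M_smul hp h1 (abs_nonneg _) (abs_nonneg _),
      M_smul hp h1 (M_nonneg (abs_nonneg _) (abs_nonneg _)) (abs_nonneg _)]

lemma joined_blk_aux (hp : 1 ≤ p) (b : Blk) (n : ℕ) : ∀ x y : Pt XC, ∀ u ∈ sq, ∀ v ∈ sq,
    ∀ s s' : ℝ, coord x = (pt b u, s) → coord y = (pt b v, s') → s ≤ s' → s' ≤ ⌊s⌋ + n →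
      Str XC p x y (DX p (coord x) (coord y)) := by
  induction n with
  | zero =>
    intro x y u hu v hv s s' hx hy h1 h2
    have h3 := Int.floor_le s
    simp only [Nat.cast_zero, add_zero] at h2
    exact str_same hp (mem_cube_of_coord hu (Int.floor_le s) (Int.lt_floor_add_one s).le hx)
      (mem_cube_of_coord hv (h3.trans h1) (by linarith) hy)
  | succ n ih =>
    intro x y u hu v hv s s' hx hy h1 h2
    rcases le_or_gt s' (⌊s⌋ + 1) with h3 | h3
    · exact str_same hp (mem_cube_of_coord hu (Int.floor_le s) (Int.lt_floor_add_one s).le hx)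
        (mem_cube_of_coord hv ((Int.floor_le s).trans h1) h3 hy)
    · have h4 := Int.lt_floor_add_one s
      have hss : 0 < s' - s := by linarith
      set t := ((⌊s⌋ : ℝ) + 1 - s) / (s' - s) with htdef
      have ht : t ∈ Icc (0 : ℝ) 1 :=
        ⟨div_nonneg (by linarith) hss.le, by rw [htdef, div_le_one hss]; linarith⟩
      have hs1 : (1 - t) * s + t * s' = (⌊s⌋ : ℝ) + 1 := by
        have : t * (s' - s) = (⌊s⌋ : ℝ) + 1 - s := by rw [htdef]; field_simp
        linarith
      have hw := sq_convex hu hv ht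
      set w : ℝ × ℝ := ((1 - t) * u.1 + t * v.1, (1 - t) * u.2 + t * v.2) with hwdef
      have hz : (pt b w, (⌊s⌋ : ℝ) + 1) ∈ KX := ⟨blk_subset_K b ⟨w, hw, rfl⟩, mem_univ _⟩
      have e1 := str_same (p := p) hp
        (mem_cube_of_coord hu (Int.floor_le s) (Int.lt_floor_add_one s).le hx)
        (mem_cube_of_coord (x := mkX _ hz) hw (by linarith [Int.floor_le s]) le_rfl
          (coord_mkX _ hz))
      have hfl : (⌊(⌊s⌋ : ℝ) + 1⌋ : ℤ) = ⌊s⌋ + 1 := by
        rw [Int.floor_add_one, Int.floor_intCast]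
      have e2 := ih (mkX _ hz) y w hw v hv _ s' (coord_mkX _ hz) hy h3.le (by
        rw [hfl]; push_cast; push_cast at h2; linarith)
      have e3 := Str.trans e1 e2
      rw [coord_mkX, hx, hy, ← hs1] at e3
      rw [hx, hy]
      obtain ⟨f1, f2⟩ := DX_seg hp b u v s s' ht
      rw [hwdef, f1, f2, ← add_mul] at e3
      convert e3 using 1
      ring

lemma joined_blk (hp : 1 ≤ p) (b : Blk) : Joined p (blk b) := by
  have key : ∀ x y : Pt XC, (coord x).1 ∈ blk b → (coord y).1 ∈ blk b →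
      (coord x).2 ≤ (coord y).2 → Str XC p x y (DX p (coord x) (coord y)) := by
    rintro x y ⟨u, hu, hx⟩ ⟨v, hv, hy⟩ h
    obtain ⟨n, hn⟩ := exists_nat_ge ((coord y).2 - ⌊(coord x).2⌋)
    exact joined_blk_aux hp b n x y u hu v hv _ _ (Prod.ext hx.symm rfl) (Prod.ext hy.symm rfl) h
      (by linarith)
  intro x y hx hy
  rcases le_total (coord x).2 (coord y).2 with h | h
  · exact key x y hx hy h
  · rw [(DX_met hp).symm _ (coord_mem x) _ (coord_mem y)]
    exact Str.symm (key y x hy hx h)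

lemma joined_glue_aux (hp : 1 ≤ p) {A B : Set YK} {o : YK} (hAK : A ⊆ K)
    (h : Glued (DK p) A B o) (hA : Joined p A) (hB : Joined p B) {x y : Pt XC}
    (hx : (coord x).1 ∈ A) (hy : (coord y).1 ∈ B) :
    Str XC p x y (DX p (coord x) (coord y)) := by
  have hsep := h.sep _ hx _ hy
  have hX := h.nonneg (Or.inl hx) (Or.inl h.oA : o ∈ A ∪ B)
  have hZ := h.nonneg (Or.inl h.oA) (Or.inr hy : (coord y).1 ∈ A ∪ B)
  rcases eq_or_lt_of_le (add_nonneg hX hZ) with h0 | h0
  · have hZ0 : DK p o (coord y).1 = 0 := by linarith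
    have := h.met.eq _ (Or.inl h.oA) _ (Or.inr hy) hZ0
    exact hA x y hx (this ▸ h.oA)
  · set X := DK p (coord x).1 o with hXdef
    set Z := DK p o (coord y).1 with hZdef
    set t := X / (X + Z) with htdef
    have ht0 : 0 ≤ t := div_nonneg hX h0.le
    have ht1 : 0 ≤ 1 - t := by
      have : t ≤ 1 := by rw [htdef, div_le_one h0]; linarith
      linarith
    set s := (coord x).2 with hs
    set s' := (coord y).2 with hs'
    have hz : (o, (1 - t) * s + t * s') ∈ KX := ⟨hAK h.oA, mem_univ _⟩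
    have e1 := hA x (mkX _ hz) hx (by rw [coord_mkX]; exact h.oA)
    have e2 := hB (mkX _ hz) y (by rw [coord_mkX]; exact h.oB) hy
    have e3 := Str.trans e1 e2
    rw [coord_mkX] at e3
    convert e3 using 1
    simp only [DX, prodD, hsep, dR]
    rw [← hXdef, ← hZdef, ← hs, ← hs']
    have f1 : |s - ((1 - t) * s + t * s')| = t * |s - s'| := by
      rw [show s - ((1 - t) * s + t * s') = t * (s - s') by ring, abs_mul, abs_of_nonneg ht0]
    have f2 : |(1 - t) * s + t * s' - s'| = (1 - t) * |s - s'| := by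
      rw [show (1 - t) * s + t * s' - s' = (1 - t) * (s - s') by ring, abs_mul,
        abs_of_nonneg ht1]
    have f3 : X = t * (X + Z) := by rw [htdef]; field_simp
    have f4 : Z = (1 - t) * (X + Z) := by rw [htdef]; field_simp; ring
    have f5 : M p X (t * |s - s'|) = t * M p (X + Z) |s - s'| := by
      conv_lhs => rw [f3]
      exact M_smul hp ht0 h0.le (abs_nonneg _)
    have f6 : M p Z ((1 - t) * |s - s'|) = (1 - t) * M p (X + Z) |s - s'| := by
      conv_lhs => rw [f4]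
      exact M_smul hp ht1 h0.le (abs_nonneg _)
    rw [f1, f2, f5, f6]
    ring

lemma joined_K (hp : 1 ≤ p) : Joined p K := by
  have key : ∀ n, Kn n ⊆ K ∧ Joined p (Kn n) := by
    intro n
    refine ⟨subset_iUnion Kn n, ?_⟩
    have := Kn_induction p hp (Q := fun A => A ⊆ K ∧ Joined p A)
      (fun b => ⟨blk_subset_K b, joined_blk hp b⟩) ?_ n
    · exact this.2
    · rintro A B o h ⟨hAK, hA⟩ ⟨hBK, hB⟩
      refine ⟨union_subset hAK hBK, ?_⟩
      rintro x y (hx | hx) (hy | hy)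
      · exact hA x y hx hy
      · exact joined_glue_aux hp hAK h hA hB hx hy
      · rw [(DX_met hp).symm _ (coord_mem x) _ (coord_mem y)]
        exact Str.symm (joined_glue_aux hp hAK h hA hB hy hx)
      · exact hB x y hx hy
  intro x y hx hy
  obtain ⟨i, hi⟩ := mem_iUnion.1 hx
  obtain ⟨j, hj⟩ := mem_iUnion.1 hy
  exact (key (max i j)).2 x y (Kn_mono (le_max_left i j) hi) (Kn_mono (le_max_right i j) hj)

/-- The piecewise `ℓ^p` metric of the complex. -/
lemma pdist_eq (hp : 1 ≤ p) (x y : Pt XC) : pdist XC p x y = DX p (coord x) (coord y) := by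
  have h1 : Str XC p x y (DX p (coord x) (coord y)) :=
    joined_K hp x y (coord_mem x).1 (coord_mem y).1
  apply le_antisymm
  · exact csInf_le ⟨DX p (coord x) (coord y), fun L hL => str_le hp hL⟩ h1
  · exact le_csInf ⟨_, h1⟩ fun L hL => str_le hp hL

lemma isConn_XC : IsConn XC := fun x y =>
  ⟨_, joined_K (by norm_num) x y (coord_mem x).1 (coord_mem y).1⟩

lemma isMetric_pdist (hp : 1 ≤ p) : IsMetric (pdist XC p) where
  self x := by rw [pdist_eq hp]; exact (DX_met hp).self _ (coord_mem x)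
  eq x y h := by
    rw [pdist_eq hp] at h
    exact coord_inj ((DX_met hp).eq _ (coord_mem x) _ (coord_mem y) h)
  symm x y := by
    rw [pdist_eq hp, pdist_eq hp]
    exact (DX_met hp).symm _ (coord_mem x) _ (coord_mem y)
  tri x y z := by
    rw [pdist_eq hp, pdist_eq hp, pdist_eq hp]
    exact (DX_met hp).tri _ (coord_mem x) _ (coord_mem y) _ (coord_mem z)

lemma geodesic_iff (hp : 1 ≤ p) {c : ℝ → Pt XC} {x y : Pt XC} :
    IsGeodesic (pdist XC p) c x y → IsGeod (DX p) KX (fun t => coord (c t)) (coord x) (coord y) := by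
  intro h
  refine ⟨by rw [h.zero], by rw [h.one], fun t _ => coord_mem _, fun s hs t ht => ?_⟩
  rw [← pdist_eq hp, ← pdist_eq hp]
  exact h.dist s hs t ht

lemma exists_geodesic (hp : 1 < p) (x y : Pt XC) : ∃ c, IsGeodesic (pdist XC p) c x y := by
  obtain ⟨c, hc⟩ := (good_X hp).exi _ (coord_mem x) _ (coord_mem y)
  classical
  let c' : ℝ → Pt XC := fun t => if ht : t ∈ Icc (0 : ℝ) 1 then mkX (c t) (hc.mem t ht) else x
  have h : ∀ t ∈ Icc (0 : ℝ) 1, coord (c' t) = c t := fun t ht => by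
    simp only [c', ht, dif_pos, coord_mkX]
  refine ⟨c', coord_inj ?_, coord_inj ?_, fun s hs t ht => ?_⟩
  · rw [h 0 ⟨le_rfl, zero_le_one⟩, hc.zero]
  · rw [h 1 ⟨zero_le_one, le_rfl⟩, hc.one]
  · rw [pdist_eq hp.le, pdist_eq hp.le, h s hs, h t ht]
    exact hc.dist s hs t ht

/-- The Busemann inequality for the piecewise `ℓ^p` metric. -/
lemma busemann (hp : 1 < p) {x y z : Pt XC} {c c' : ℝ → Pt XC}
    (hc : IsGeodesic (pdist XC p) c x y) (hc' : IsGeodesic (pdist XC p) c' x z) {t : ℝ}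
    (ht : t ∈ Icc (0 : ℝ) 1) : pdist XC p (c t) (c' t) ≤ t * pdist XC p y z := by
  rw [pdist_eq hp.le, pdist_eq hp.le]
  exact (good_X hp).bus _ _ _ _ _ (geodesic_iff hp.le hc) (geodesic_iff hp.le hc') t ht

lemma isCAT0_XC : IsCAT0 (pdist XC 2) where
  metric := isMetric_pdist (by norm_num)
  geodesic := exists_geodesic (by norm_num)
  thin x y z c hc t ht := by
    have h2 : (1 : ℝ) ≤ 2 := by norm_num
    simp only [pdist_eq h2]
    exact cn_X _ _ _ (geodesic_iff h2 hc) _ (coord_mem z) t ht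

end Strings

end Pool.Agent.W539.Cube
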