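import Pool.Agent.W539.Cube.Prod

/-!
# The tree of squares
-/

namespace Pool.Agent.W539.Cube

open Set

/-- The three vertices of the unit square different from the origin. -/
inductive Dir : Type
  | hor
  | ver
  | diag
  deriving DecidableEq

namespace Dir

/-- The vertex as a vector. -/
def vec : Dir → ℝ × ℝ
  | hor => (1, 0)
  | ver => (0, 1)
  | diag => (1, 1)

lemma vec_mem (v : Dir) : v.vec ∈ Icc (0 : ℝ) 1 ×ˢ Icc (0 : ℝ) 1 := by
  cases v <;> simp [vec]

end Dir

/-- The blocks (squares) of the tree of squares: a side and a finite word in the three vertices;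
the letter at the head of the word is the last one. -/
abbrev Blk : Type := Bool × List Dir

/-- The block attached to the vertex `v` of the block `b`. -/
def child (v : Dir) (b : Blk) : Blk := (b.1, v :: b.2)

/-- The coordinate space of the tree of squares: two coordinates for each block. -/
abbrev YK : Type := Blk →₀ ℝ × ℝ

/-- The vertex of the block `(s, l)` nearest to the origin. -/
noncomputable def pos (s : Bool) : List Dir → YK
  | [] => 0
  | v :: l => pos s l + Finsupp.single (s, l) v.vec

/-- The vertex of the block `b` nearest to the origin. -/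
noncomputable def P (b : Blk) : YK := pos b.1 b.2

@[simp] lemma P_nil (s : Bool) : P (s, []) = 0 := rfl

lemma P_child (v : Dir) (b : Blk) : P (child v b) = P b + Finsupp.single b v.vec := rfl

/-- The point of the block `b` with coordinates `u`. -/
noncomputable def pt (b : Blk) (u : ℝ × ℝ) : YK := P b + Finsupp.single b u

/-- The unit square in the plane. -/
def sq : Set (ℝ × ℝ) := Icc (0 : ℝ) 1 ×ˢ Icc (0 : ℝ) 1

/-- The block `b` as a set. -/
def blk (b : Blk) : Set YK := pt b '' sq

/-- The part of the tree consisting of the blocks below `b`, up to `n` generations. -/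
def Sub : ℕ → Blk → Set YK
  | 0, b => blk b
  | n + 1, b => ((blk b ∪ Sub n (child .hor b)) ∪ Sub n (child .ver b)) ∪ Sub n (child .diag b)

/-- The finite tree with `n + 1` generations. -/
def Kn (n : ℕ) : Set YK := Sub n (false, []) ∪ Sub n (true, [])

/-- The tree of squares. -/
def K : Set YK := ⋃ n, Kn n

/-- The norm of the plane. -/
noncomputable def N (p : ℝ) (u : ℝ × ℝ) : ℝ := M p |u.1| |u.2|

/-- The distance of the tree of squares. -/
noncomputable def DK (p : ℝ) (x y : YK) : ℝ := (x - y).sum fun _ w => N p w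

section Dist

variable {p : ℝ}

lemma N_zero (hp : 1 ≤ p) : N p 0 = 0 := by simp [N, M_zero_right hp le_rfl]

lemma N_nonneg (p : ℝ) (u : ℝ × ℝ) : 0 ≤ N p u := M_nonneg (abs_nonneg _) (abs_nonneg _)

lemma N_neg (u : ℝ × ℝ) : N p (-u) = N p u := by simp [N]

lemma N_add_le (hp : 1 ≤ p) (u v : ℝ × ℝ) : N p (u + v) ≤ N p u + N p v := by
  refine (M_mono hp (abs_nonneg _) (abs_nonneg _) (abs_add_le u.1 v.1) (abs_add_le u.2 v.2)).trans ?_
  exact M_add_le hp (abs_nonneg _) (abs_nonneg _) (abs_nonneg _) (abs_nonneg _)

lemma N_eq_zero (hp : 1 ≤ p) {u : ℝ × ℝ} (h : N p u = 0) : u = 0 := by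
  obtain ⟨h1, h2⟩ := M_eq_zero hp (abs_nonneg _) (abs_nonneg _) h
  exact Prod.ext (abs_eq_zero.1 h1) (abs_eq_zero.1 h2)

lemma DK_eq (hp : 1 ≤ p) {x y : YK} {S : Finset Blk} (hS : (x - y).support ⊆ S) :
    DK p x y = ∑ c ∈ S, N p (x c - y c) := by
  rw [DK, Finsupp.sum_of_support_subset _ hS _ (fun _ _ => N_zero hp)]
  rfl

open Classical in
lemma DK_eq3 (hp : 1 ≤ p) (x y z : YK) :
    DK p x y = ∑ c ∈ x.support ∪ y.support ∪ z.support, N p (x c - y c) := by
  apply DK_eq hp
  exact (Finsupp.support_sub).trans Finset.subset_union_left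

open Classical in
lemma DK_met (hp : 1 ≤ p) (A : Set YK) : IsMetricOn (DK p) A where
  self x _ := by simp [DK]
  symm x _ y _ := by
    rw [DK_eq3 hp x y 0, DK_eq3 hp y x 0, Finset.union_comm x.support y.support]
    refine Finset.sum_congr rfl fun c _ => ?_
    rw [← N_neg, neg_sub]
  tri x _ y _ z _ := by
    rw [DK_eq3 hp x y z, DK_eq3 hp y z x, DK_eq3 hp x z y]
    rw [show x.support ∪ z.support ∪ y.support = x.support ∪ y.support ∪ z.support by
        ext; simp; tauto,
      show y.support ∪ z.support ∪ x.support = x.support ∪ y.support ∪ z.support by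
        ext; simp; tauto, ← Finset.sum_add_distrib]
    refine Finset.sum_le_sum fun c _ => ?_
    have := N_add_le hp (x c - y c) (y c - z c)
    simpa using this
  eq x _ y _ h := by
    rw [DK_eq3 hp x y 0] at h
    rw [Finset.sum_eq_zero_iff_of_nonneg (fun c _ => N_nonneg p _)] at h
    ext1 c
    by_cases hc : c ∈ x.support ∪ y.support ∪ (0 : YK).support
    · exact sub_eq_zero.1 (N_eq_zero hp (h c hc))
    · simp only [Finset.mem_union, not_or, Finsupp.mem_support_iff, not_not] at hc
      rw [hc.1.1, hc.1.2]

open Classical in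
/-- The additivity of the distance when the coordinates change one after the other. -/
lemma DK_add (hp : 1 ≤ p) {x y q : YK} (h : ∀ c, x c = q c ∨ y c = q c) :
    DK p x y = DK p x q + DK p q y := by
  rw [DK_eq3 hp x y q, DK_eq3 hp x q y, DK_eq3 hp q y x]
  rw [show x.support ∪ q.support ∪ y.support = x.support ∪ y.support ∪ q.support by
        ext; simp; tauto,
      show q.support ∪ y.support ∪ x.support = x.support ∪ y.support ∪ q.support by
        ext; simp; tauto, ← Finset.sum_add_distrib]
  refine Finset.sum_congr rfl fun c _ => ?_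
  rcases h c with h | h
  · rw [h]; simp [N_zero hp]
  · rw [h]; simp [N_zero hp]

lemma DK_pt (hp : 1 ≤ p) (b : Blk) (u v : ℝ × ℝ) : DK p (pt b u) (pt b v) = N p (u - v) := by
  have : pt b u - pt b v = Finsupp.single b (u - v) := by
    rw [pt, pt, Finsupp.single_sub]; abel
  rw [DK, this]
  exact Finsupp.sum_single_index (N_zero hp)

lemma DK_pt' (hp : 1 ≤ p) (b : Blk) (u v : ℝ × ℝ) :
    DK p (pt b u) (pt b v) = prodD p dR dR u v := DK_pt hp b u v

end Dist

/-! ### The combinatorics of the tree -/

/-- The block `c` is `b` or lies below `b`. -/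
def Desc (b c : Blk) : Prop := b.1 = c.1 ∧ b.2 <:+ c.2

lemma Desc.refl (b : Blk) : Desc b b := ⟨rfl, List.suffix_rfl⟩

lemma Desc.of_child {v : Dir} {b c : Blk} (h : Desc (child v b) c) : Desc b c :=
  ⟨h.1, (List.suffix_cons v b.2).trans h.2⟩

lemma Desc.child_ne {v : Dir} {b c : Blk} (h : Desc (child v b) c) : c ≠ b := by
  rintro rfl
  have := h.2.length_le
  simp [child] at this

lemma Desc.child_inj {v v' : Dir} {b c : Blk} (h : Desc (child v b) c)
    (h' : Desc (child v' b) c) : v = v' := by
  have h1 := h.2
  have h2 := h'.2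
  simp only [child] at h1 h2
  have h3 := List.suffix_of_suffix_length_le h1 h2 (by simp)
  have h4 := h3.eq_of_length (by simp)
  exact (List.cons.inj h4).1

lemma pos_apply_desc (s : Bool) (l : List Dir) (c : Blk) (h : l <:+ c.2 ∨ s ≠ c.1) :
    pos s l c = 0 := by
  induction l with
  | nil => rfl
  | cons v l ih =>
    rw [pos, Finsupp.add_apply]
    have h1 : (s, l) ≠ c := by
      rintro rfl
      rcases h with h | h
      · have := h.length_le; simp at this
      · exact h rfl
    rw [Finsupp.single_eq_of_ne h1.symm, add_zero]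
    apply ih
    rcases h with h | h
    · exact Or.inl ((List.suffix_cons v l).trans h)
    · exact Or.inr h

lemma P_desc {b c : Blk} (h : Desc b c) : P b c = 0 := pos_apply_desc _ _ _ (Or.inl h.2)

lemma P_side {b c : Blk} (h : b.1 ≠ c.1) : P b c = 0 := pos_apply_desc _ _ _ (Or.inr h)

lemma pos_length (s : Bool) (l : List Dir) (c : Blk) (h : l.length ≤ c.2.length) :
    pos s l c = 0 := by
  induction l with
  | nil => rfl
  | cons v l ih =>
    rw [pos, Finsupp.add_apply]
    have h1 : (s, l) ≠ c := by
      rintro rfl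
      simp at h
    rw [Finsupp.single_eq_of_ne h1.symm, add_zero]
    apply ih
    simp at h
    omega

lemma P_length {b c : Blk} (h : b.2.length ≤ c.2.length) : P b c = 0 := pos_length _ _ _ h

lemma P_child_ne {v : Dir} {b c : Blk} (h : c ≠ b) : P (child v b) c = P b c := by
  rw [P_child, Finsupp.add_apply, Finsupp.single_eq_of_ne h, add_zero]

lemma P_child_self (v : Dir) (b : Blk) : P (child v b) b = v.vec := by
  rw [P_child, Finsupp.add_apply, P_desc (Desc.refl b), zero_add, Finsupp.single_eq_same]

lemma pt_ne {b c : Blk} {u : ℝ × ℝ} (h : c ≠ b) : pt b u c = P b c := by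
  rw [pt, Finsupp.add_apply, Finsupp.single_eq_of_ne h, add_zero]

lemma pt_self (b : Blk) (u : ℝ × ℝ) : pt b u b = u := by
  rw [pt, Finsupp.add_apply, P_desc (Desc.refl b), zero_add, Finsupp.single_eq_same]

lemma P_eq_pt (b : Blk) : P b = pt b 0 := by simp [pt]

lemma P_child_eq_pt (v : Dir) (b : Blk) : P (child v b) = pt b v.vec := rfl

lemma P_mem_blk (b : Blk) : P b ∈ blk b :=
  ⟨0, ⟨⟨le_rfl, zero_le_one⟩, ⟨le_rfl, zero_le_one⟩⟩, (P_eq_pt b).symm⟩

lemma P_child_mem_blk (v : Dir) (b : Blk) : P (child v b) ∈ blk b := ⟨v.vec, v.vec_mem, rfl⟩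

lemma blk_subset_Sub (n : ℕ) (b : Blk) : blk b ⊆ Sub n b := by
  cases n with
  | zero => exact subset_rfl
  | succ n => exact fun x hx => Or.inl (Or.inl (Or.inl hx))

lemma Sub_child_subset (n : ℕ) (b : Blk) (v : Dir) : Sub n (child v b) ⊆ Sub (n + 1) b := by
  intro x hx
  cases v
  · exact Or.inl (Or.inl (Or.inr hx))
  · exact Or.inl (Or.inr hx)
  · exact Or.inr hx

lemma mem_Sub_succ {n : ℕ} {b : Blk} {x : YK} (hx : x ∈ Sub (n + 1) b) :
    x ∈ blk b ∨ ∃ v, x ∈ Sub n (child v b) := by
  rcases hx with ((hx | hx) | hx) | hx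
  · exact Or.inl hx
  · exact Or.inr ⟨_, hx⟩
  · exact Or.inr ⟨_, hx⟩
  · exact Or.inr ⟨_, hx⟩

lemma P_mem_Sub (n : ℕ) (b : Blk) : P b ∈ Sub n b := blk_subset_Sub n b (P_mem_blk b)

/-- Away from the blocks below `b`, the points of the part below `b` have the coordinates of the
vertex `P b`. -/
lemma Sub_apply {n : ℕ} {b : Blk} {x : YK} (hx : x ∈ Sub n b) {c : Blk} (hc : ¬ Desc b c) :
    x c = P b c := by
  induction n generalizing b with
  | zero =>
    obtain ⟨u, _, rfl⟩ := hx
    exact pt_ne (fun h => hc (h ▸ Desc.refl b))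
  | succ n ih =>
    rcases mem_Sub_succ hx with hx | ⟨v, hx⟩
    · obtain ⟨u, _, rfl⟩ := hx
      exact pt_ne (fun h => hc (h ▸ Desc.refl b))
    · rw [ih hx (fun h => hc h.of_child), P_child_ne (fun h => hc (by rw [h]; exact Desc.refl b))]

lemma blk_apply_child {b c : Blk} {v : Dir} {x : YK} (hx : x ∈ blk b)
    (hc : Desc (child v b) c) : x c = 0 := by
  obtain ⟨u, _, rfl⟩ := hx
  rw [pt_ne hc.child_ne, P_desc hc.of_child]

lemma Sub_apply_child {n : ℕ} {b c : Blk} {v v' : Dir} (hv : v ≠ v') {x : YK}
    (hx : x ∈ Sub n (child v' b)) (hc : Desc (child v b) c) : x c = 0 := by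
  rw [Sub_apply hx (fun h => hv (hc.child_inj h)), P_child_ne hc.child_ne, P_desc hc.of_child]

lemma Sub_mono (n : ℕ) (b : Blk) : Sub n b ⊆ Sub (n + 1) b := by
  induction n generalizing b with
  | zero => exact blk_subset_Sub 1 b
  | succ n ih =>
    intro x hx
    rcases mem_Sub_succ hx with hx | ⟨v, hx⟩
    · exact blk_subset_Sub _ b hx
    · exact Sub_child_subset _ b v (ih _ hx)

lemma Kn_mono : Monotone Kn :=
  monotone_nat_of_le_succ fun n => union_subset_union (Sub_mono n _) (Sub_mono n _)

/-! ### Gluing -/

section Glue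

variable {p : ℝ}

lemma glued_child (hp : 1 ≤ p) {A : Set YK} {b : Blk} {v : Dir} (n : ℕ)
    (hA : ∀ x ∈ A, ∀ c, Desc (child v b) c → x c = 0) (hP : P (child v b) ∈ A) :
    Glued (DK p) A (Sub n (child v b)) (P (child v b)) where
  met := DK_met hp _
  oA := hP
  oB := P_mem_Sub n _
  sep a ha y hy := by
    apply DK_add hp
    intro c
    by_cases hc : Desc (child v b) c
    · left; rw [hA a ha c hc, P_desc hc]
    · right; exact Sub_apply hy hc

lemma glued_root (hp : 1 ≤ p) (n : ℕ) :
    Glued (DK p) (Sub n (false, [])) (Sub n (true, [])) 0 where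
  met := DK_met hp _
  oA := P_mem_Sub n (false, [])
  oB := P_mem_Sub n (true, [])
  sep a ha y hy := by
    apply DK_add hp
    intro c
    by_cases hc : c.1 = false
    · right
      rw [Sub_apply hy (fun h => by have := h.1; rw [hc] at this; exact absurd this (by decide))]
      simp
    · left
      rw [Sub_apply ha (fun h => hc h.1.symm)]
      simp

variable (p) in
/-- A property of sets which holds for the blocks and is preserved by gluing holds for all finite
trees. -/
lemma Kn_induction (hp : 1 ≤ p) {Q : Set YK → Prop} (h0 : ∀ b, Q (blk b))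
    (hg : ∀ A B o, Glued (DK p) A B o → Q A → Q B → Q (A ∪ B)) (n : ℕ) : Q (Kn n) := by
  have key : ∀ n b, Q (Sub n b) := by
    intro n
    induction n with
    | zero => exact h0
    | succ n ih =>
      intro b
      have h1 : Q (blk b ∪ Sub n (child .hor b)) :=
        hg _ _ _ (glued_child hp n (fun x hx c hc => blk_apply_child hx hc)
          (P_child_mem_blk _ b)) (h0 b) (ih _)
      have h2 : Q ((blk b ∪ Sub n (child .hor b)) ∪ Sub n (child .ver b)) := by
        refine hg _ _ _ (glued_child hp n ?_ (Or.inl (P_child_mem_blk _ b))) h1 (ih _)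
        rintro x (hx | hx) c hc
        · exact blk_apply_child hx hc
        · exact Sub_apply_child (by decide) hx hc
      refine hg _ _ _ (glued_child hp n ?_ (Or.inl (Or.inl (P_child_mem_blk _ b)))) h2 (ih _)
      rintro x ((hx | hx) | hx) c hc
      · exact blk_apply_child hx hc
      · exact Sub_apply_child (by decide) hx hc
      · exact Sub_apply_child (by decide) hx hc
  exact hg _ _ _ (glued_root hp n) (key n _) (key n _)

lemma good_blk (hp : 1 < p) (b : Blk) : Good (DK p) (blk b) :=
  good_image (prodD_met hp.le (dR_met _) (dR_met _)) (fun u _ v _ => DK_pt' hp.le b u v)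
    (good_prod hp (dR_met _) (dR_met _) (good_real ordConnected_Icc) (good_real ordConnected_Icc))

lemma cn_blk (b : Blk) : CN (DK 2) (blk b) :=
  cn_image (prodD_met (by norm_num) (dR_met _) (dR_met _))
    (fun u _ v _ => DK_pt' (by norm_num) b u v) (cn_prod (dR_met _) (dR_met _) (cn_real _)
      (cn_real _))

lemma good_Kn (hp : 1 < p) (n : ℕ) : Good (DK p) (Kn n) :=
  Kn_induction p hp.le (good_blk hp) (fun _ _ _ h hA hB => h.good hA hB) n

lemma cn_Kn (n : ℕ) : CN (DK 2) (Kn n) :=
  Kn_induction 2 (by norm_num) cn_blk (fun _ _ _ h hA hB => h.cn hA hB) n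

end Glue

/-! ### Truncation -/

open Classical in
/-- Truncation of a point to the blocks of length at most `n`. -/
noncomputable def trunc (n : ℕ) (x : YK) : YK := x.filter fun c => c.2.length ≤ n

lemma trunc_apply_le {n : ℕ} {x : YK} {c : Blk} (h : c.2.length ≤ n) : trunc n x c = x c := by
  classical
  exact Finsupp.filter_apply_pos _ x h

lemma trunc_apply_gt {n : ℕ} {x : YK} {c : Blk} (h : n < c.2.length) : trunc n x c = 0 := by
  classical
  exact Finsupp.filter_apply_neg _ x (by omega)

lemma Sub_length {n : ℕ} {b : Blk} {x : YK} (hx : x ∈ Sub n b) {c : Blk}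
    (hc : b.2.length + n < c.2.length) : x c = 0 := by
  induction n generalizing b with
  | zero =>
    obtain ⟨u, _, rfl⟩ := hx
    rw [pt_ne (fun h => by subst h; omega), P_length (by omega)]
  | succ n ih =>
    rcases mem_Sub_succ hx with hx | ⟨v, hx⟩
    · obtain ⟨u, _, rfl⟩ := hx
      rw [pt_ne (fun h => by subst h; omega), P_length (by omega)]
    · exact ih hx (by simp only [child, List.length_cons]; omega)

lemma trunc_mem {m : ℕ} {b : Blk} {z : YK} (hz : z ∈ Sub m b) (n : ℕ) :
    trunc (b.2.length + n) z ∈ Sub n b := by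
  induction m generalizing b n with
  | zero =>
    have : trunc (b.2.length + n) z = z := by
      ext1 c
      by_cases h : c.2.length ≤ b.2.length + n
      · exact trunc_apply_le h
      · rw [trunc_apply_gt (by omega), Sub_length hz (by omega)]
    rw [this]
    exact blk_subset_Sub n b hz
  | succ m ih =>
    rcases mem_Sub_succ hz with hz | ⟨v, hz⟩
    · have : trunc (b.2.length + n) z = z := by
        ext1 c
        by_cases h : c.2.length ≤ b.2.length + n
        · exact trunc_apply_le h
        · rw [trunc_apply_gt (by omega), Sub_length (n := 0) hz (by omega)]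
      rw [this]
      exact blk_subset_Sub n b hz
    · cases n with
      | zero =>
        have : trunc (b.2.length + 0) z = P (child v b) := by
          ext1 c
          by_cases h : c.2.length ≤ b.2.length + 0
          · rw [trunc_apply_le h, Sub_apply hz]
            intro h1
            have := h1.2.length_le
            simp only [child, List.length_cons] at this
            omega
          · rw [trunc_apply_gt (by omega), P_length]
            simp only [child, List.length_cons]
            omega
        rw [this]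
        exact P_child_mem_blk v b
      | succ n =>
        have := ih hz n
        rw [show (child v b).2.length + n = b.2.length + (n + 1) by
          simp only [child, List.length_cons]; omega] at this
        exact Sub_child_subset n b v this

lemma K_convex {p : ℝ} (hp : 1 ≤ p) (n : ℕ) : ∀ x ∈ Kn n, ∀ y ∈ Kn n, ∀ z ∈ ⋃ n, Kn n,
    DK p x z + DK p z y = DK p x y → z ∈ Kn n := by
  intro x hx y hy z hz h
  have hm := DK_met hp (univ : Set YK)
  obtain ⟨m, hm'⟩ := mem_iUnion.1 hz
  have hT : trunc n z ∈ Kn n := by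
    rcases hm' with hz | hz
    · left; simpa using trunc_mem hz n
    · right; simpa using trunc_mem hz n
  have h0 : ∀ w ∈ Kn n, DK p w z = DK p w (trunc n z) + DK p (trunc n z) z := by
    intro w hw
    apply DK_add hp
    intro c
    by_cases hc : c.2.length ≤ n
    · right; exact (trunc_apply_le hc).symm
    · left
      rw [trunc_apply_gt (by omega)]
      rcases hw with hw | hw <;> exact Sub_length hw (by simp; omega)
  have e1 := h0 x hx
  have e2 := h0 y hy
  rw [hm.symm z (mem_univ _) y (mem_univ _)] at h
  have e3 := hm.tri x (mem_univ _) (trunc n z) (mem_univ _) y (mem_univ _)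
  rw [hm.symm (trunc n z) (mem_univ _) y (mem_univ _)] at e3
  have e4 := hm.nonneg (mem_univ (trunc n z)) (mem_univ z)
  have e5 : DK p (trunc n z) z = 0 := by linarith
  rw [← hm.eq _ (mem_univ _) _ (mem_univ _) e5]
  exact hT

lemma good_K {p : ℝ} (hp : 1 < p) : Good (DK p) K :=
  good_union Kn_mono (K_convex hp.le) (good_Kn hp)

lemma cn_K : CN (DK 2) K := cn_union Kn_mono (K_convex (by norm_num)) cn_Kn

lemma Sub_subset_K_aux (n : ℕ) (l : List Dir) (s : Bool) : Sub n (s, l) ⊆ Sub (n + l.length) (s, []) := by
  induction l generalizing n with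
  | nil => exact subset_rfl
  | cons v l ih =>
    refine (Sub_child_subset n (s, l) v).trans ((ih (n + 1)).trans_eq ?_)
    rw [List.length_cons]
    congr 1
    omega

lemma blk_subset_K (b : Blk) : blk b ⊆ K := by
  intro x hx
  obtain ⟨s, l⟩ := b
  have := Sub_subset_K_aux 0 l s hx
  refine mem_iUnion.2 ⟨0 + l.length, ?_⟩
  cases s
  · exact Or.inl this
  · exact Or.inr this

lemma Sub_subset_iUnion (n : ℕ) (b : Blk) : Sub n b ⊆ ⋃ c, blk c := by
  induction n generalizing b with
  | zero => exact subset_iUnion blk b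
  | succ n ih =>
    intro x hx
    rcases mem_Sub_succ hx with hx | ⟨v, hx⟩
    · exact subset_iUnion blk b hx
    · exact ih _ hx

lemma K_eq : K = ⋃ b, blk b := by
  apply subset_antisymm
  · apply iUnion_subset
    intro n
    exact union_subset (Sub_subset_iUnion n _) (Sub_subset_iUnion n _)
  · exact iUnion_subset blk_subset_K

end Pool.Agent.W539.Cube
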